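import Pool.Agent.Y95.KM.Main

/-!
# The cone conjecture descends along contractions
-/

set_option autoImplicit false

namespace Pool.Agent.Y95.KM

open Finset Filter Topology
open Pool.Agent.Y167

variable {W A : Type*} [NormedAddCommGroup W] [NormedSpace ℝ W] [Group A] {Z : Num W A}
  {W' B : Type*} [NormedAddCommGroup W'] [NormedSpace ℝ W'] [Group B] {Y : Num W' B}
  {q : W' →ₗ[ℝ] W}

/-- The part of a cone in a face is generated by the generators in the face. -/
theorem contr_cone (h : Z.Good) (hq : Z.IsContraction Y q) (S : Finset W)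
    (hS : ∀ s ∈ S, s ∈ Z.lat ∧ s ∈ Z.nef) :
    ∃ F : Finset W', (∀ s ∈ F, s ∈ Y.lat ∧ s ∈ Y.nef) ∧ ∀ y, q y ∈ cone S → y ∈ cone F := by
  classical
  obtain ⟨k, hk, hkl⟩ := hq.lat'
  have hkr : (0 : ℝ) < k := by exact_mod_cast hk
  have h1 : ∀ s : W, ∃ y : W', (∃ y', q y' = s) → q y = s := by
    intro s
    by_cases hs : ∃ y', q y' = s
    · exact ⟨hs.choose, fun _ => hs.choose_spec⟩
    · exact ⟨0, fun h => absurd h hs⟩
  choose p hp using h1
  let S1 := S.filter fun s => ∃ y', q y' = s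
  refine ⟨S1.image fun s => k • p s, fun z hz => ?_, ?_⟩
  · obtain ⟨s, hs, rfl⟩ := Finset.mem_image.1 hz
    have hs' := Finset.mem_filter.1 hs
    have h2 := hp s hs'.2
    refine ⟨hkl _ (by rw [h2]; exact (hS s hs'.1).1), ?_⟩
    rw [hq.nef, map_nsmul, h2, ← Nat.cast_smul_eq_nsmul ℝ]
    exact h.nef_smul hkr.le (hS s hs'.1).2
  · rintro y ⟨c, hc, hy⟩
    -- the generators with positive coefficient are in the face
    have hpos : ∀ s ∈ S, 0 < c s → ∃ y', q y' = s := by
      intro s hs hcs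
      have h2 : c s • s ∈ Z.nef := h.nef_smul hcs.le (hS s hs).2
      have h3 : ∑ t ∈ S.erase s, c t • t ∈ Z.nef := by
        refine Finset.sum_induction _ (fun x => x ∈ Z.nef) (fun x y hx hy => h.nef_add hx hy) ?_ ?_
        · have := h.nef_smul (le_refl (0 : ℝ)) h2
          rwa [zero_smul] at this
        · exact fun t ht => h.nef_smul (hc t) (hS t (Finset.mem_of_mem_erase ht)).2
      obtain ⟨y', hy'⟩ := hq.face _ h2 _ h3 ⟨y, by
        rw [hy]; exact (Finset.add_sum_erase S (fun t => c t • t) hs).symm⟩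
      exact ⟨(c s)⁻¹ • y', by rw [map_smul, hy', smul_smul, inv_mul_cancel₀ hcs.ne', one_smul]⟩
    have h4 : y = ∑ s ∈ S1, (c s / k) • (k • p s) := by
      apply hq.inj
      rw [hy, map_sum, Finset.sum_filter]
      refine Finset.sum_congr rfl fun s hs => ?_
      by_cases hs' : ∃ y', q y' = s
      · rw [if_pos hs', map_smul, map_nsmul, hp s hs', ← Nat.cast_smul_eq_nsmul ℝ, smul_smul,
          div_mul_cancel₀ _ hkr.ne']
      · rw [if_neg hs']
        have h5 : c s = 0 := by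
          by_contra h0
          exact hs' (hpos s hs (lt_of_le_of_ne (hc s) (Ne.symm h0)))
        rw [h5, zero_smul]
    rw [h4]
    exact mem_cone_of_sum S1 (fun s => k • p s) _
      (fun s hs => Finset.mem_image_of_mem (fun s => k • p s) hs)
      fun s _ => div_nonneg (hc s) hkr.le

theorem contr_Cp (h : Z.Good) (hq : Z.IsContraction Y q) (y : W') :
    y ∈ Cp Y.lat Y.nef ↔ q y ∈ Cp Z.lat Z.nef := by
  classical
  constructor
  · rintro ⟨S, hS, hy⟩
    refine ⟨S.image q, fun s hs => ?_, cone_image q hy⟩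
    obtain ⟨b, hb, rfl⟩ := Finset.mem_image.1 hs
    exact ⟨hq.lat b (hS b hb).1, (hq.nef b).1 (hS b hb).2⟩
  · rintro ⟨S, hS, hy⟩
    obtain ⟨F, hF, hF2⟩ := contr_cone h hq S hS
    exact ⟨F, hF, hF2 y hy⟩

/-- the elements of the open cone are in the convex hull of the rational points -/
theorem amp_Cp {X : Num W A} (h : X.Good) {x : W} (hx : x ∈ X.amp) : x ∈ Cp X.lat X.nef := by
  classical
  obtain ⟨n, b, hb⟩ := h.lattice
  have : FiniteDimensional ℝ W := Module.Finite.of_basis b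
  have hbL : ∀ i, b i ∈ X.lat := fun i => (hb _).2 fun j => by
    rw [b.repr_self, Finsupp.single_apply]
    by_cases hij : i = j
    · exact ⟨1, by simp [hij]⟩
    · exact ⟨0, by simp [hij]⟩
  -- `N x` is close to lattice points
  obtain ⟨C, hC⟩ : ∃ C : ℝ, ∀ (f : Fin n → ℝ), (∀ i, |f i| ≤ n + 1) →
      ‖∑ i, f i • b i‖ ≤ C := by
    refine ⟨∑ i, ((n : ℝ) + 1) * ‖b i‖, fun f hf => (norm_sum_le _ _).trans ?_⟩
    refine Finset.sum_le_sum fun i _ => ?_
    rw [norm_smul, Real.norm_eq_abs]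
    exact mul_le_mul_of_nonneg_right (hf i) (norm_nonneg _)
  obtain ⟨ε, hε, hball⟩ := Metric.isOpen_iff.1 h.isOpen x hx
  obtain ⟨N, hN⟩ := exists_nat_gt (C / ε)
  have hC0 : 0 ≤ C := (norm_nonneg _).trans (hC 0 fun i => by simp; positivity)
  have hN0 : (0 : ℝ) < N := lt_of_le_of_lt (div_nonneg hC0 hε.le) hN
  have hnear : ∀ f : Fin n → ℝ, (∀ i, |f i| ≤ n + 1) → (N : ℝ) • x + ∑ i, f i • b i ∈ X.amp := by
    intro f hf
    have h1 : x + (N : ℝ)⁻¹ • ∑ i, f i • b i ∈ X.amp := by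
      apply hball
      rw [Metric.mem_ball, dist_eq_norm, add_sub_cancel_left, norm_smul, norm_inv,
        Real.norm_of_nonneg hN0.le, inv_mul_lt_iff₀ hN0]
      have h2 := hC f hf
      rw [div_lt_iff₀ hε] at hN
      linarith
    have h2 := h.smul _ hN0 _ h1
    rwa [smul_add, smul_smul, mul_inv_cancel₀ hN0.ne', one_smul] at h2
  let c : Fin n → ℝ := fun i => b.repr ((N : ℝ) • x) i
  let fr : Fin n → ℝ := fun i => Int.fract (c i)
  let z : W := ∑ i, (⌊c i⌋ : ℝ) • b i
  have hz : (N : ℝ) • x = z + ∑ i, fr i • b i := by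
    rw [← Finset.sum_add_distrib]
    conv_lhs => rw [← b.sum_repr ((N : ℝ) • x)]
    refine Finset.sum_congr rfl fun i _ => ?_
    rw [← add_smul]
    congr 1
    exact (Int.floor_add_fract _).symm
  have hfr : ∀ i, 0 ≤ fr i ∧ fr i ≤ 1 := fun i => ⟨Int.fract_nonneg _, (Int.fract_lt_one _).le⟩
  have hzL : z ∈ X.lat := X.lat.sum_mem fun i _ => by
    rw [Int.cast_smul_eq_zsmul]
    exact X.lat.zsmul_mem (hbL i) _
  have hz1 : z ∈ X.amp := by
    have h1 := hnear (fun i => -fr i) fun i => by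
      rw [abs_neg, abs_of_nonneg (hfr i).1]
      have := (hfr i).2
      have : (0 : ℝ) ≤ n := Nat.cast_nonneg n
      linarith
    rw [hz] at h1
    have h2 : z + ∑ i, fr i • b i + ∑ i, (-fr i) • b i = z := by
      rw [add_assoc, ← Finset.sum_add_distrib]
      simp
    rwa [h2] at h1
  have hzi : ∀ i, z + (n : ℝ) • b i ∈ X.lat ∧ z + (n : ℝ) • b i ∈ X.amp := by
    intro i
    refine ⟨X.lat.add_mem hzL (by
      rw [Nat.cast_smul_eq_nsmul]
      exact X.lat.nsmul_mem (hbL i) n), ?_⟩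
    have h1 := hnear (fun j => -fr j + if j = i then (n : ℝ) else 0) fun j => by
      have hn : (0 : ℝ) ≤ n := Nat.cast_nonneg n
      have h3 := hfr j
      rw [abs_le]
      split_ifs
      · constructor <;> linarith
      · constructor <;> linarith
    rw [hz] at h1
    have h2 : z + ∑ j, fr j • b j + ∑ j, (-fr j + if j = i then (n : ℝ) else 0) • b j =
        z + (n : ℝ) • b i := by
      rw [add_assoc, ← Finset.sum_add_distrib]
      congr 1
      rw [Finset.sum_eq_single i]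
      · rw [if_pos rfl, ← add_smul]
        congr 1
        ring
      · intro j _ hj
        rw [if_neg hj, add_zero, ← add_smul, add_neg_cancel, zero_smul]
      · intro hi
        exact absurd (Finset.mem_univ i) hi
    rwa [h2] at h1
  let S : Finset W := insert z (Finset.univ.image fun i => z + (n : ℝ) • b i)
  refine ⟨S, fun s hs => ?_, ?_⟩
  · rcases Finset.mem_insert.1 hs with rfl | hs
    · exact ⟨hzL, subset_closure hz1⟩
    · obtain ⟨i, -, rfl⟩ := Finset.mem_image.1 hs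
      exact ⟨(hzi i).1, subset_closure (hzi i).2⟩
  · have hzS : z ∈ cone S := mem_cone_self (Finset.mem_insert_self _ _)
    have hziS : ∀ i, z + (n : ℝ) • b i ∈ cone S := fun i =>
      mem_cone_self (Finset.mem_insert_of_mem (Finset.mem_image_of_mem _ (Finset.mem_univ i)))
    have hx2 : (N : ℝ) • x ∈ cone S := by
      rcases Nat.eq_zero_or_pos n with hn | hn
      · subst hn
        rw [hz]
        simpa using hzS
      · have hnr : (0 : ℝ) < n := by exact_mod_cast hn
        have h1 : (N : ℝ) • x = ∑ i : Fin n, ((1 / (n : ℝ)) • ((1 - fr i) • z) +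
            (1 / (n : ℝ)) • (fr i • (z + (n : ℝ) • b i))) := by
          rw [hz]
          have h2 : ∀ i : Fin n, (1 / (n : ℝ)) • ((1 - fr i) • z) +
              (1 / (n : ℝ)) • (fr i • (z + (n : ℝ) • b i)) = (1 / (n : ℝ)) • z + fr i • b i := by
            intro i
            rw [smul_add (fr i), smul_smul, smul_smul, smul_add, smul_smul, smul_smul, ← add_assoc,
              ← add_smul]
            congr 2
            · ring
            · field_simp
          rw [Finset.sum_congr rfl fun i _ => h2 i, Finset.sum_add_distrib, Finset.sum_const,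
            Finset.card_univ, Fintype.card_fin, ← Nat.cast_smul_eq_nsmul ℝ, smul_smul]
          rw [mul_one_div_cancel hnr.ne', one_smul]
        rw [h1]
        refine cone_sum _ _ fun i _ => cone_add ?_ ?_
        · exact cone_smul (cone_smul hzS (by linarith [(hfr i).2])) (by positivity)
        · exact cone_smul (cone_smul (hziS i) (hfr i).1) (by positivity)
    have h3 := cone_smul hx2 (inv_nonneg.2 hN0.le)
    rwa [smul_smul, inv_mul_cancel₀ hN0.ne', one_smul] at h3

/-- **The cone conjecture descends along contractions.** -/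
theorem contract (h : Z.Good) (h' : Y.Good) (hq : Z.IsContraction Y q) (hc : Z.ConeConj) :
    Y.ConeConj := by
  classical
  have := h.finDim
  have := h'.finDim
  have hCp := h.nefEff_eq hc
  obtain ⟨ξ₀, y₀, Y0, D, hy₀⟩ := h'.exists_cdata
  obtain ⟨S, hSL, hcov, -⟩ := hc
  have hSn : ∀ s ∈ S, s ∈ Z.lat ∧ s ∈ Z.nef := fun s hs => by
    have h1 : s ∈ Z.nefEff := by
      rw [hcov]
      exact Set.mem_iUnion.2 ⟨1, s, mem_cone_self hs, by rw [map_one]; rfl⟩
    exact ⟨hSL hs, h1.1⟩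
  -- the relatively open faces of `cone S`
  let E : Finset W → Set W := fun I => {z | ∃ c : W → ℝ, (∀ s ∈ I, 0 < c s) ∧ z = ∑ s ∈ I, c s • s}
  have hE : ∀ z ∈ cone S, ∃ I ∈ S.powerset, z ∈ E I := by
    rintro z ⟨c, hc, hz⟩
    refine ⟨S.filter fun s => 0 < c s, Finset.mem_powerset.2 (Finset.filter_subset _ _), c,
      fun s hs => (Finset.mem_filter.1 hs).2, ?_⟩
    rw [hz, Finset.sum_filter]
    refine Finset.sum_congr rfl fun s _ => ?_
    by_cases h0 : 0 < c s
    · rw [if_pos h0]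
    · rw [if_neg h0, le_antisymm (not_lt.1 h0) (hc s), zero_smul]
  have hnefsum : ∀ I ⊆ S, ∀ c : W → ℝ, (∀ s ∈ I, 0 ≤ c s) → ∑ s ∈ I, c s • s ∈ Z.nef := by
    intro I hI c hc
    refine Finset.sum_induction _ (fun x => x ∈ Z.nef) (fun x y hx hy => h.nef_add hx hy) ?_ ?_
    · obtain ⟨x, hx⟩ := h.nonempty
      have := h.nef_smul (le_refl (0 : ℝ)) (subset_closure hx : x ∈ Z.nef)
      rwa [zero_smul] at this
    · exact fun s hs => h.nef_smul (hc s hs) (hSn s (hI hs)).2
  -- the classes dominated by an ample class of `Y`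
  have hdom : ∀ y ∈ Y.amp, ∀ v : W', ∃ C : ℝ, 0 < C ∧ C • y - v ∈ Y.nef := fun y hy =>
    (inn_of_amp h' D hy).2
  -- two elements in the same relatively open face define the same face of the nef cone
  have hsame : ∀ I ⊆ S, ∀ a a' : A, (∃ y ∈ Y.amp, Z.act a (q y) ∈ E I) →
      (∃ y ∈ Y.amp, Z.act a' (q y) ∈ E I) → ∀ w, ∃ w', q w' = Z.act a⁻¹ (Z.act a' (q w)) := by
    rintro I hI a a' ⟨y, hy, c, hc, hyc⟩ ⟨y', hy', c', hc', hyc'⟩ w
    -- `M z - z'` is nef
    obtain ⟨M, hM0, hM⟩ : ∃ M : ℝ, 0 < M ∧ ∀ s ∈ I, c' s ≤ M * c s := by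
      refine ⟨1 + ∑ s ∈ I, c' s / c s, ?_, fun s hs => ?_⟩
      · have : 0 ≤ ∑ s ∈ I, c' s / c s :=
          Finset.sum_nonneg fun s hs => div_nonneg (hc' s hs).le (hc s hs).le
        linarith
      · have h1 := Finset.single_le_sum (f := fun s => c' s / c s)
          (fun s hs => div_nonneg (hc' s hs).le (hc s hs).le) hs
        have h2 : c' s = c' s / c s * c s := by
          rw [div_mul_cancel₀ _ (hc s hs).ne']
        rw [h2]
        exact mul_le_mul_of_nonneg_right (by linarith) (hc s hs).le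
    have h1 : M • Z.act a (q y) - Z.act a' (q y') ∈ Z.nef := by
      rw [hyc, hyc', Finset.smul_sum, ← Finset.sum_sub_distrib]
      have h2 : ∑ s ∈ I, (M • c s • s - c' s • s) = ∑ s ∈ I, (M * c s - c' s) • s :=
        Finset.sum_congr rfl fun s _ => by rw [sub_smul, mul_smul]
      rw [h2]
      exact hnefsum I hI _ fun s hs => by linarith [hM s hs]
    -- every class of `Y` is a difference of two nef classes
    have hkey : ∀ v ∈ Y.nef, ∃ w', q w' = Z.act a⁻¹ (Z.act a' (q v)) := by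
      intro v hv
      obtain ⟨C, hC, h3⟩ := hdom y' hy' v
      -- `act a' (q v) + (...) = C M act a (q y)`
      have h4 : Z.act a⁻¹ (Z.act a' (q v)) ∈ Z.nef :=
        h.act_nef _ (h.act_nef _ ((hq.nef v).1 hv))
      have h5 : Z.act a⁻¹ (Z.act a' (q (C • y' - v))) ∈ Z.nef :=
        h.act_nef _ (h.act_nef _ ((hq.nef _).1 h3))
      have h6 : Z.act a⁻¹ (C • (M • Z.act a (q y) - Z.act a' (q y'))) ∈ Z.nef :=
        h.act_nef _ (h.nef_smul hC.le h1)
      obtain ⟨w', hw'⟩ := hq.face _ h4 _ (h.nef_add h5 h6) ⟨(C * M) • y, by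
        simp only [map_sub, map_smul, smul_sub, act_inv_act, mul_smul]
        abel⟩
      exact ⟨w', hw'⟩
    obtain ⟨C, hC, h3⟩ := hdom y' hy' w
    obtain ⟨w1, hw1⟩ := hkey (C • y') (h'.nef_smul hC.le (subset_closure hy'))
    obtain ⟨w2, hw2⟩ := hkey _ h3
    refine ⟨w1 - w2, ?_⟩
    rw [map_sub, hw1, hw2, ← map_sub, ← map_sub, ← map_sub, sub_sub_cancel]
  -- representatives
  have hrep : ∀ I : Finset W, ∃ a : A, (∃ a' : A, ∃ y ∈ Y.amp, Z.act a' (q y) ∈ E I) →
      ∃ y ∈ Y.amp, Z.act a (q y) ∈ E I := by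
    intro I
    by_cases h0 : ∃ a' : A, ∃ y ∈ Y.amp, Z.act a' (q y) ∈ E I
    · exact ⟨h0.choose, fun _ => h0.choose_spec⟩
    · exact ⟨1, fun h1 => absurd h1 h0⟩
  choose rp hrp using hrep
  have hpiece : ∀ a : A, ∃ F : Finset W', (∀ s ∈ F, s ∈ Y.lat ∧ s ∈ Y.nef) ∧
      ∀ y, q y ∈ cone (S.image (Z.act a)) → y ∈ cone F := fun a =>
    contr_cone h hq (S.image (Z.act a)) (by
      intro s hs
      obtain ⟨b, hb, rfl⟩ := Finset.mem_image.1 hs
      exact ⟨h.act_lat a b (hSn b hb).1, h.act_nef a (hSn b hb).2⟩)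
  choose F hF hF2 using hpiece
  refine h'.conj_of_cover (S.powerset.biUnion fun I => F (rp I)⁻¹) ?_ ?_ ?_
  · intro s hs
    obtain ⟨a, -, ha⟩ := Finset.mem_biUnion.1 hs
    exact hF _ s ha
  · intro y hy
    have hx : q y ∈ Z.nefEff := by
      rw [hCp, ← contr_Cp h hq]
      exact amp_Cp h' hy
    rw [hcov] at hx
    obtain ⟨a, z, hz, hza⟩ := Set.mem_iUnion.1 hx
    have hz2 : Z.act a⁻¹ (q y) = z := by rw [← hza, act_inv_act]
    obtain ⟨I, hI, hzI⟩ := hE z hz
    have hIS := Finset.mem_powerset.1 hI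
    have hr := hrp I ⟨a⁻¹, y, hy, by rw [hz2]; exact hzI⟩
    have hme : ∃ y ∈ Y.amp, Z.act a⁻¹ (q y) ∈ E I := ⟨y, hy, by rw [hz2]; exact hzI⟩
    have hst : ∀ x, (∃ w, q w = x) ↔ ∃ w, q w = Z.act ((rp I)⁻¹ * a⁻¹) x := by
      intro x
      constructor
      · rintro ⟨w, rfl⟩
        rw [act_mul]
        exact hsame I hIS (rp I) a⁻¹ hr hme w
      · rintro ⟨w, hw⟩
        obtain ⟨w', hw'⟩ := hsame I hIS a⁻¹ (rp I) hme hr w
        refine ⟨w', ?_⟩
        rw [hw', hw, act_mul, act_act_inv, act_inv_act]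
    obtain ⟨b, hb⟩ := hq.desc _ hst
    refine ⟨b, cone_mono (Finset.subset_biUnion_of_mem (fun I => F (rp I)⁻¹) hI)
      (hF2 (rp I)⁻¹ _ ?_)⟩
    rw [hb, act_mul, hz2]
    exact cone_image (Z.act (rp I)⁻¹ : W →ₗ[ℝ] W) hz
  · ext y
    rw [contr_Cp h hq, ← hCp]
    constructor
    · rintro ⟨h1, h2⟩
      exact ⟨(hq.nef y).1 h1, (hq.eff y).1 h2⟩
    · rintro ⟨h1, h2⟩
      exact ⟨(hq.nef y).2 h1, (hq.eff y).2 h2⟩

end Pool.Agent.Y95.KM
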