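import Pool.Agent.Y95.KM.Main

/-!
# The cone conjecture for products
-/

set_option autoImplicit false

namespace Pool.Agent.Y95.KM

open Finset Filter Topology
open Pool.Agent.Y167

variable {ι : Type*} [Fintype ι] {W A : ι → Type*} [∀ i, NormedAddCommGroup (W i)]
  [∀ i, NormedSpace ℝ (W i)] [∀ i, Group (A i)] {B : Type*} [Group B] {X : ∀ i, Num (W i) (A i)}
  {P : Num (∀ i, W i) B}

theorem prod_nef (hP : Num.IsProduct X P) (x : ∀ i, W i) :
    x ∈ P.nef ↔ ∀ i, x i ∈ (X i).nef := by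
  have h1 : P.amp = Set.pi Set.univ fun i => (X i).amp := by
    ext y
    rw [hP.amp]
    simp
  unfold Num.nef
  rw [h1, closure_pi_set]
  simp

theorem zero_nef {W A : Type*} [NormedAddCommGroup W] [NormedSpace ℝ W] [Group A] {X : Num W A}
    (h : X.Good) : (0 : W) ∈ X.nef := by
  obtain ⟨y, hy⟩ := h.nonempty
  have := h.nef_smul (le_refl (0 : ℝ)) (subset_closure hy : y ∈ X.nef)
  rwa [zero_smul] at this

open Classical in
theorem single_mem (h : ∀ i, (X i).Good) (hP : Num.IsProduct X P) {i : ι} {s : W i}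
    (hs : s ∈ (X i).lat ∧ s ∈ (X i).nef) :
    (Pi.single i s : ∀ i, W i) ∈ P.lat ∧ (Pi.single i s : ∀ i, W i) ∈ P.nef := by
  rw [hP.lat, prod_nef hP]
  refine ⟨fun j => ?_, fun j => ?_⟩
  · by_cases hj : j = i
    · subst hj; rw [Pi.single_eq_same]; exact hs.1
    · rw [Pi.single_eq_of_ne hj]; exact (X j).lat.zero_mem
  · by_cases hj : j = i
    · subst hj; rw [Pi.single_eq_same]; exact hs.2
    · rw [Pi.single_eq_of_ne hj]; exact zero_nef (h j)

open Classical in
theorem mem_cone_pi (S : ∀ i, Finset (W i)) {x : ∀ i, W i}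
    (hx : ∀ i, x i ∈ cone (S i)) :
    x ∈ cone (Finset.univ.biUnion fun i => (S i).image (LinearMap.single ℝ W i)) := by
  have h1 : x = ∑ i, LinearMap.single ℝ W i (x i) := by
    funext j
    rw [Finset.sum_apply]
    simp
  rw [h1]
  refine cone_sum _ _ fun i _ => ?_
  exact cone_mono (Finset.subset_biUnion_of_mem
    (fun i => (S i).image (LinearMap.single ℝ W i)) (Finset.mem_univ i)) (cone_image _ (hx i))

theorem prod_Cp (h : ∀ i, (X i).Good) (hP : Num.IsProduct X P) (x : ∀ i, W i) :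
    x ∈ Cp P.lat P.nef ↔ ∀ i, x i ∈ Cp (X i).lat (X i).nef := by
  classical
  constructor
  · rintro ⟨S, hS, hx⟩ i
    refine ⟨S.image (LinearMap.proj (R := ℝ) i), fun s hs => ?_, cone_image _ hx⟩
    obtain ⟨b, hb, rfl⟩ := Finset.mem_image.1 hs
    exact ⟨(hP.lat b).1 (hS b hb).1 i, (prod_nef hP b).1 (hS b hb).2 i⟩
  · intro hx
    choose S hS hxS using hx
    refine ⟨_, fun s hs => ?_, mem_cone_pi S hxS⟩
    obtain ⟨i, -, hi⟩ := Finset.mem_biUnion.1 hs
    obtain ⟨b, hb, rfl⟩ := Finset.mem_image.1 hi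
    exact single_mem h hP (hS i b hb)

/-- **The cone conjecture for products.** -/
theorem product (h : ∀ i, (X i).Good) (h' : P.Good) (hP : Num.IsProduct X P)
    (hc : ∀ i, (X i).ConeConj) : P.ConeConj := by
  classical
  have hCp : ∀ i, (X i).nefEff = Cp (X i).lat (X i).nef := fun i => by
    obtain ⟨ξ₀, y₀, Y0, D, hy₀⟩ := (h i).exists_cdata
    obtain ⟨-, -, -, -, -, -, h1⟩ := (h i).of_conj (hc i) D hy₀
    exact h1
  choose S hSL hcov _ using hc
  have hSn : ∀ i, ∀ s ∈ S i, s ∈ (X i).nef := fun i s hs => by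
    have h1 : s ∈ (X i).nefEff := by
      rw [hcov]
      exact Set.mem_iUnion.2 ⟨1, s, mem_cone_self hs, by rw [map_one]; rfl⟩
    exact h1.1
  refine h'.conj_of_cover
    (Finset.univ.biUnion fun i => (S i).image (LinearMap.single ℝ W i)) ?_ ?_ ?_
  · intro s hs
    obtain ⟨i, -, hi⟩ := Finset.mem_biUnion.1 hs
    obtain ⟨b, hb, rfl⟩ := Finset.mem_image.1 hi
    exact single_mem h hP ⟨hSL i hb, hSn i b hb⟩
  · intro x hx
    have h1 : ∀ i, ∃ a, (X i).act a (x i) ∈ cone (S i) := fun i => by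
      have h2 := (hP.amp x).1 hx i
      have h3 : x i ∈ (X i).nefEff := ⟨subset_closure h2, (h i).amp_eff h2⟩
      rw [hcov] at h3
      obtain ⟨a, y, hy, hyx⟩ := Set.mem_iUnion.1 h3
      exact ⟨a⁻¹, by rw [← hyx, act_inv_act]; exact hy⟩
    choose a ha using h1
    obtain ⟨b, hb⟩ := hP.prod a
    exact ⟨b, mem_cone_pi S fun i => by rw [hb]; exact ha i⟩
  · ext x
    rw [prod_Cp h hP]
    constructor
    · rintro ⟨h1, h2⟩ i
      rw [← hCp]
      exact ⟨(prod_nef hP x).1 h1 i, (hP.eff x).1 h2 i⟩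
    · intro h1
      have h2 : ∀ i, x i ∈ (X i).nefEff := fun i => by rw [hCp]; exact h1 i
      exact ⟨(prod_nef hP x).2 fun i => (h2 i).1, (hP.eff x).2 fun i => (h2 i).2⟩

end Pool.Agent.Y95.KM
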