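import Pool.Agent.Y167.Dom

/-!
# The Dirichlet domain of a group acting on a rational cone

The theorem `Pool.Agent.Y167.CData.domain` with more information, and the Siegel property.
-/

set_option autoImplicit false

namespace Pool.Agent.Y95.KM

open Finset Filter Topology
open Pool.Agent.Y167 Pool.Agent.Y167.CData

variable {W : Type*} [AddCommGroup W] [Module ℝ W]
variable {L : AddSubgroup W} {Nf : Set W} {ξ₀ : W →ₗ[ℝ] ℝ} {y₀ : W} {Y : Finset W}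

/-- **Rational polyhedral fundamental domains**, with the Dirichlet form. (The proof is that of
`Pool.Agent.Y167.CData.domain`.) -/
theorem dirichlet (D : CData L Nf ξ₀ y₀ Y) (𝒢 : Subgroup (W ≃ₗ[ℝ] W))
    (hL : ∀ g ∈ 𝒢, ∀ x ∈ L, g x ∈ L) (hN : ∀ g ∈ 𝒢, ∀ x ∈ Nf, g x ∈ Nf)
    (F : Finset W) (hF : ∀ a ∈ F, a ∈ L ∧ a ∈ Nf)
    (hcov : ∀ x, (∃ t : ℝ, 0 < t ∧ x - t • y₀ ∈ Nf) → ∃ g ∈ 𝒢, g x ∈ cone F) :
    ∃ (ξ : W →ₗ[ℝ] ℝ) (S : Finset W), (∃ c : ℝ, 0 < c ∧ ∀ x ∈ Nf, c * ξ₀ x ≤ ξ x) ∧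
      (∀ a ∈ S, a ∈ L ∧ a ∈ Nf) ∧
      (∀ x, x ∈ Cp L Nf ↔ ∃ g ∈ 𝒢, g x ∈ cone S) ∧
      (∀ x ∈ cone S, ∀ g ∈ 𝒢, ξ x ≤ ξ (g x)) ∧
      (∀ a ∈ S, ∃ g ∈ 𝒢, ∃ b ∈ cone F, g b = a) ∧
      ∀ g ∈ 𝒢, g ≠ 1 → ∃ φ : W →ₗ[ℝ] ℝ, φ ≠ 0 ∧ (∀ x ∈ cone S, 0 ≤ φ x) ∧
        ∀ x ∈ cone S, φ (g x) ≤ 0 := by
  classical
  obtain ⟨ξ, hξ, ⟨c, hc, hξc⟩, hstab⟩ := D.exists_xi 𝒢 hL hN
  have hξpos : ∀ x ∈ Nf, x ≠ 0 → 0 < ξ x := fun x hx h0 =>
    lt_of_lt_of_le (mul_pos hc (D.xi_pos x hx h0)) (hξc x hx)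
  have hξnn : ∀ x ∈ Nf, 0 ≤ ξ x := fun x hx =>
    le_trans (mul_nonneg hc.le (D.xi_nonneg hx)) (hξc x hx)
  obtain ⟨T, hT𝒢, hT⟩ := D.exists_dickson 𝒢 hL hN hξ hc hξc F hF
  -- the pieces
  have hpiece : ∀ t : W ≃ₗ[ℝ] W, t ∈ T → ∃ S' : Finset W, (∀ a ∈ S', a ∈ L ∧ a ∈ Nf) ∧
      ∀ x, x ∈ cone S' ↔ x ∈ cone F ∧ ∀ t' ∈ T, ξ (t x) ≤ ξ (t' x) := by
    intro t ht
    obtain ⟨S', hS', h⟩ := D.cut_many F hF
      (T.image fun t' : W ≃ₗ[ℝ] W => ξ.comp (t' : W →ₗ[ℝ] W) - ξ.comp (t : W →ₗ[ℝ] W)) (by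
        intro φ hφ x hx
        obtain ⟨t', ht', rfl⟩ := Finset.mem_image.1 hφ
        obtain ⟨m, hm⟩ := hξ _ (hL t' (hT𝒢 t' ht') x hx)
        obtain ⟨n, hn⟩ := hξ _ (hL t (hT𝒢 t ht) x hx)
        exact ⟨m - n, by simp [hm, hn]⟩)
    refine ⟨S', hS', fun x => ?_⟩
    rw [h]
    simp only [Finset.forall_mem_image, LinearMap.sub_apply, LinearMap.comp_apply,
      LinearEquiv.coe_coe, sub_nonneg]
  choose! P hP hPc using hpiece
  let S0 : Finset W := T.biUnion fun t => (P t).image t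
  let S : Finset W := S0.filter (· ≠ 0)
  have hSS0 : ∀ x, x ∈ cone S0 → x ∈ cone S := by
    intro x hx
    refine cone_le (fun a ha => ?_) hx
    by_cases h : a = 0
    · rw [h]; exact zero_mem_cone S
    · exact mem_cone_self (Finset.mem_filter.2 ⟨ha, h⟩)
  have hSmem : ∀ a ∈ S, ∃ t ∈ T, ∃ b ∈ P t, t b = a := by
    intro a ha
    obtain ⟨t, ht, h1⟩ := Finset.mem_biUnion.1 (Finset.mem_filter.1 ha).1
    obtain ⟨b, hb, rfl⟩ := Finset.mem_image.1 h1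
    exact ⟨t, ht, b, hb, rfl⟩
  have hSLN : ∀ a ∈ S, a ∈ L ∧ a ∈ Nf := by
    intro a ha
    obtain ⟨t, ht, b, hb, rfl⟩ := hSmem a ha
    exact ⟨hL t (hT𝒢 t ht) _ (hP t ht b hb).1, hN t (hT𝒢 t ht) _ (hP t ht b hb).2⟩
  have hSpos : ∀ a ∈ S, 0 < ξ a := fun a ha =>
    hξpos a (hSLN a ha).2 (Finset.mem_filter.1 ha).2
  -- the Dirichlet property
  have hdir : ∀ x ∈ cone S, ∀ g ∈ 𝒢, ξ x ≤ ξ (g x) := by
    intro x hx g hg
    have h1 : ∀ a ∈ S, ξ ((LinearMap.id : W →ₗ[ℝ] W) a) ≤ ξ ((g : W →ₗ[ℝ] W) a) := by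
      intro a ha
      obtain ⟨t, ht, b, hb, rfl⟩ := hSmem a ha
      have h2 := (hPc t ht b).1 (mem_cone_self hb)
      obtain ⟨t', ht', h3⟩ := hT (g * t) (𝒢.mul_mem hg (hT𝒢 t ht))
      have h4 : ξ ((t' : W →ₗ[ℝ] W) b) ≤ ξ (((g * t : W ≃ₗ[ℝ] W) : W →ₗ[ℝ] W) b) :=
        le_of_cone (fun a ha => h3 a ha) h2.1
      exact (h2.2 t' ht').trans h4
    exact le_of_cone h1 hx
  -- the interior is covered
  have hcov2 : ∀ x, (∃ t : ℝ, 0 < t ∧ x - t • y₀ ∈ Nf) → ∃ g ∈ 𝒢, g x ∈ cone S := by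
    intro x hx
    obtain ⟨g, hg, hgx⟩ := hcov x hx
    have hTne : T.Nonempty := by
      obtain ⟨t, ht, -⟩ := hT 1 𝒢.one_mem
      exact ⟨t, ht⟩
    obtain ⟨t, ht, hmin⟩ := Finset.exists_min_image T (fun t => ξ (t (g x))) hTne
    have h1 : g x ∈ cone (P t) := (hPc t ht _).2 ⟨hgx, hmin⟩
    refine ⟨t * g, 𝒢.mul_mem (hT𝒢 t ht) hg, hSS0 _ ?_⟩
    have h2 : (t : W →ₗ[ℝ] W) (g x) ∈ cone ((P t).image (t : W →ₗ[ℝ] W)) := cone_image _ h1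
    refine cone_mono ?_ h2
    exact Finset.subset_biUnion_of_mem (fun t : W ≃ₗ[ℝ] W => (P t).image t) ht
  -- closedness argument
  have hclos : ∀ x, x ∈ Cp L Nf → ∃ g ∈ 𝒢, g x ∈ cone S := by
    rintro x ⟨A', hA', hx⟩
    let δ : ℕ → ℝ := fun n => 1 / ((n : ℝ) + 1)
    have hδpos : ∀ n, 0 < δ n := fun n => by simp only [δ]; positivity
    have hδ : Tendsto δ atTop (𝓝 0) := tendsto_one_div_add_atTop_nhds_zero_nat
    have hxN : x ∈ Nf := D.cone_Nf hA' hx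
    have hg : ∀ n, ∃ g ∈ 𝒢, g (x + δ n • y₀) ∈ cone S := by
      intro n
      apply hcov2
      refine ⟨δ n, hδpos n, ?_⟩
      rwa [add_sub_cancel_right]
    choose g hg𝒢 hgS using hg
    obtain ⟨T', hT'𝒢, hT'⟩ := D.exists_dickson 𝒢 hL hN hξ hc hξc (insert y₀ A') (by
      intro a ha
      rcases Finset.mem_insert.1 ha with rfl | h
      · exact ⟨D.y_L, D.y_N⟩
      · exact hA' a h)
    set C : ℝ := ∑ t ∈ T', ξ (t y₀) with hC
    have hbound : ∀ n, ξ (g n y₀) ≤ C := by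
      intro n
      obtain ⟨t, ht, h1⟩ := hT' (g n) (hg𝒢 n)
      have h2 : ξ (t x) ≤ ξ (g n x) := by
        have : ξ ((t : W →ₗ[ℝ] W) x) ≤ ξ ((g n : W →ₗ[ℝ] W) x) :=
          le_of_cone (fun a ha => h1 a (Finset.mem_insert_of_mem ha)) hx
        exact this
      have h3 := hdir _ (hgS n) (t * (g n)⁻¹) (𝒢.mul_mem (hT'𝒢 t ht) (𝒢.inv_mem (hg𝒢 n)))
      have h4 : (t * (g n)⁻¹) (g n (x + δ n • y₀)) = t (x + δ n • y₀) := by
        have : (t * (g n)⁻¹) (g n (x + δ n • y₀)) = (t * (g n)⁻¹ * g n) (x + δ n • y₀) := rfl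
        rw [this, inv_mul_cancel_right]
      rw [h4, map_add, map_add, map_add, map_add, map_smul, map_smul, map_smul, map_smul,
        smul_eq_mul, smul_eq_mul] at h3
      have h5 : δ n * ξ (g n y₀) ≤ δ n * ξ (t y₀) := by linarith
      have h6 : ξ (g n y₀) ≤ ξ (t y₀) := le_of_mul_le_mul_left h5 (hδpos n)
      refine h6.trans (Finset.single_le_sum (f := fun t : W ≃ₗ[ℝ] W => ξ (t y₀)) ?_ ht)
      intro t ht
      exact hξnn _ (hN t (hT'𝒢 t ht) _ D.y_N)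
    -- finitely many g
    have hYb : ∃ B : ℝ, ∀ n, ∀ y ∈ Y, ξ₀ (g n y) ≤ B := by
      choose! K hK using D.y_int
      refine ⟨∑ y ∈ Y, K y * C / c, fun n y hy => ?_⟩
      have hC0 : 0 ≤ C := le_trans (hξnn _ (hN _ (hg𝒢 n) _ D.y_N)) (hbound n)
      have h1 : g n (K y • y₀ - y) ∈ Nf := hN _ (hg𝒢 n) _ (hK y).2
      have h2 := hξnn _ h1
      rw [map_sub, map_sub, map_smul, map_smul, smul_eq_mul, sub_nonneg] at h2
      have h3 := hξc _ (hN _ (hg𝒢 n) _ (D.Y_mem y hy).2)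
      have h4 : c * ξ₀ (g n y) ≤ K y * C := by
        refine h3.trans (h2.trans ?_)
        exact mul_le_mul_of_nonneg_left (hbound n) (hK y).1.le
      have h5 : ξ₀ (g n y) ≤ K y * C / c := by
        rw [le_div_iff₀ hc]; linarith
      refine h5.trans (Finset.single_le_sum (f := fun y => K y * C / c) ?_ hy)
      intro y _
      exact div_nonneg (mul_nonneg (hK y).1.le hC0) hc.le
    obtain ⟨B, hB⟩ := hYb
    have hfin := D.finite_small 𝒢 hL hN B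
    have hrange : (Set.range g).Finite := hfin.subset (by
      rintro _ ⟨n, rfl⟩
      exact ⟨hg𝒢 n, hB n⟩)
    -- pigeonhole
    obtain ⟨h, hh⟩ : ∃ h : W ≃ₗ[ℝ] W, {n | g n = h}.Infinite := by
      by_contra hcon
      push Not at hcon
      have h1 : (Set.univ : Set ℕ) ⊆ ⋃ h ∈ Set.range g, {n | g n = h} := by
        intro n _
        simp only [Set.mem_iUnion]
        exact ⟨g n, ⟨n, rfl⟩, rfl⟩
      have h2 : (⋃ h ∈ Set.range g, {n | g n = h}).Finite :=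
        hrange.biUnion fun h _ => by simpa using hcon h
      exact Set.infinite_univ (h2.subset h1)
    have hh𝒢 : h ∈ 𝒢 := by
      obtain ⟨n, hn⟩ := hh.nonempty
      have hn : g n = h := hn
      rw [← hn]; exact hg𝒢 n
    refine ⟨h, hh𝒢, ?_⟩
    let k : ℕ → ℕ := Nat.nth (fun n => g n = h)
    have hk : StrictMono k := Nat.nth_strictMono hh
    have hkm : ∀ n, g (k n) = h := fun n => Nat.nth_mem_of_infinite hh n
    refine cone_closed (S := S) ξ hSpos (p := h x) (q := h y₀) (δ := δ ∘ k)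
      (hδ.comp hk.tendsto_atTop) (fun n => ?_)
    have h1 := hgS (k n)
    rw [hkm n, map_add, map_smul] at h1
    exact h1
  refine ⟨ξ, S, ⟨c, hc, hξc⟩, hSLN, fun x => ⟨hclos x, ?_⟩, hdir, ?_, ?_⟩
  · rintro ⟨g, hg, hgx⟩
    refine ⟨S.image (g⁻¹ : W ≃ₗ[ℝ] W), ?_, ?_⟩
    · intro a ha
      obtain ⟨b, hb, rfl⟩ := Finset.mem_image.1 ha
      have hg' := 𝒢.inv_mem hg
      exact ⟨hL _ hg' _ (hSLN b hb).1, hN _ hg' _ (hSLN b hb).2⟩
    · have h1 : ((g⁻¹ : W ≃ₗ[ℝ] W) : W →ₗ[ℝ] W) (g x) ∈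
          cone (S.image ((g⁻¹ : W ≃ₗ[ℝ] W) : W →ₗ[ℝ] W)) := cone_image _ hgx
      have h2 : ((g⁻¹ : W ≃ₗ[ℝ] W) : W →ₗ[ℝ] W) (g x) = x := by
        have : ((g⁻¹ : W ≃ₗ[ℝ] W) : W →ₗ[ℝ] W) (g x) = (g⁻¹ * g) x := rfl
        rw [this, inv_mul_cancel]
        rfl
      rw [h2] at h1
      exact h1
  · intro a ha
    obtain ⟨t, ht, b, hb, rfl⟩ := hSmem a ha
    exact ⟨t, hT𝒢 t ht, b, ((hPc t ht b).1 (mem_cone_self hb)).1, rfl⟩
  · intro g hg hg1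
    have hginv : g⁻¹ ≠ 1 := by
      intro h
      exact hg1 (inv_eq_one.1 h)
    obtain ⟨x, hx⟩ := hstab g⁻¹ (𝒢.inv_mem hg) hginv
    refine ⟨ξ.comp ((g⁻¹ : W ≃ₗ[ℝ] W) : W →ₗ[ℝ] W) - ξ, ?_, ?_, ?_⟩
    · intro h0
      have h1 := congrArg (fun φ : W →ₗ[ℝ] ℝ => φ x) h0
      simp only [LinearMap.sub_apply, LinearMap.comp_apply, LinearMap.zero_apply] at h1
      exact hx (sub_eq_zero.1 h1)
    · intro x hx
      have h1 := hdir x hx g⁻¹ (𝒢.inv_mem hg)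
      simp only [LinearMap.sub_apply, LinearMap.comp_apply, sub_nonneg]
      exact h1
    · intro x hx
      have h1 := hdir x hx g hg
      simp only [LinearMap.sub_apply, LinearMap.comp_apply, sub_nonpos]
      have h2 : ((g⁻¹ : W ≃ₗ[ℝ] W) : W →ₗ[ℝ] W) (g x) = x := by
        have : ((g⁻¹ : W ≃ₗ[ℝ] W) : W →ₗ[ℝ] W) (g x) = (g⁻¹ * g) x := rfl
        rw [this, inv_mul_cancel]
        rfl
      rw [h2]
      exact h1


/-- the interior points of the cone, algebraically -/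
def Inn (Nf : Set W) (z : W) : Prop := z ∈ Nf ∧ ∀ y : W, ∃ C : ℝ, 0 < C ∧ C • z - y ∈ Nf

/-- **The Siegel property** of a Dirichlet domain. -/
theorem siegel (D : CData L Nf ξ₀ y₀ Y) (𝒢 : Subgroup (W ≃ₗ[ℝ] W))
    (hL : ∀ g ∈ 𝒢, ∀ x ∈ L, g x ∈ L) (hN : ∀ g ∈ 𝒢, ∀ x ∈ Nf, g x ∈ Nf)
    {ξ : W →ₗ[ℝ] ℝ} {c : ℝ} (hc : 0 < c) (hξc : ∀ x ∈ Nf, c * ξ₀ x ≤ ξ x)
    (S : Finset W) (hS : ∀ a ∈ S, a ∈ L ∧ a ∈ Nf)
    (hdir : ∀ x ∈ cone S, ∀ g ∈ 𝒢, ξ x ≤ ξ (g x)) :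
    {g : W ≃ₗ[ℝ] W | g ∈ 𝒢 ∧ ∃ z, z ∈ cone S ∧ Inn Nf z ∧ g z ∈ cone S}.Finite := by
  classical
  -- for the subsets `I` of `S` whose sum is an interior point
  have key : ∀ I ∈ S.powerset, Inn Nf (∑ s ∈ I, s) →
      {g : W ≃ₗ[ℝ] W | g ∈ 𝒢 ∧ ξ (g (∑ s ∈ I, s)) ≤ ξ (∑ s ∈ I, s)}.Finite := by
    intro I _ hI
    set z := ∑ s ∈ I, s with hz
    choose K hK using hI.2
    refine (D.finite_small 𝒢 hL hN (∑ y ∈ Y, |K y * ξ z / c|)).subset ?_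
    rintro g ⟨hg, hgz⟩
    refine ⟨hg, fun y hy => ?_⟩
    have h1 : g (K y • z - y) ∈ Nf := hN g hg _ (hK y).2
    have h2 : 0 ≤ ξ (g (K y • z - y)) := le_trans (mul_nonneg hc.le (D.xi_nonneg h1)) (hξc _ h1)
    rw [map_sub, map_sub, map_smul, map_smul, smul_eq_mul, sub_nonneg] at h2
    have h3 := hξc _ (hN g hg _ (D.Y_mem y hy).2)
    have h4 : c * ξ₀ (g y) ≤ K y * ξ z :=
      h3.trans (h2.trans (mul_le_mul_of_nonneg_left hgz (hK y).1.le))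
    have h5 : ξ₀ (g y) ≤ K y * ξ z / c := by rw [le_div_iff₀ hc]; linarith
    exact (h5.trans (le_abs_self _)).trans (Finset.single_le_sum
      (f := fun y => |K y * ξ z / c|) (fun _ _ => abs_nonneg _) hy)
  have hfin : (⋃ I ∈ (S.powerset.filter fun I => Inn Nf (∑ s ∈ I, s)),
      {g : W ≃ₗ[ℝ] W | g ∈ 𝒢 ∧ ξ (g (∑ s ∈ I, s)) ≤ ξ (∑ s ∈ I, s)}).Finite := by
    refine Set.Finite.biUnion (Finset.finite_toSet _) fun I hI => ?_
    have hI' := Finset.mem_filter.1 (Finset.mem_coe.1 hI)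
    exact key I hI'.1 hI'.2
  refine hfin.subset ?_
  rintro g ⟨hg, z, hz, hzi, hgz⟩
  obtain ⟨cf, hcf, hzs⟩ := hz
  set I := S.filter fun s => 0 < cf s with hI
  have hSd : ∀ s ∈ S, ξ s ≤ ξ (g s) := fun s hs => hdir s (mem_cone_self hs) g hg
  have hle : ξ (g z) ≤ ξ z := by
    have h1 := hdir (g z) hgz g⁻¹ (𝒢.inv_mem hg)
    have h2 : (g⁻¹ : W ≃ₗ[ℝ] W) (g z) = z := by
      have : (g⁻¹ : W ≃ₗ[ℝ] W) (g z) = (g⁻¹ * g) z := rfl
      rw [this, inv_mul_cancel]; rfl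
    rwa [h2] at h1
  have hsum : ∑ s ∈ S, cf s * (ξ (g s) - ξ s) ≤ 0 := by
    have h1 : ξ (g z) - ξ z = ∑ s ∈ S, cf s * (ξ (g s) - ξ s) := by
      rw [hzs, map_sum, map_sum, map_sum, ← Finset.sum_sub_distrib]
      refine Finset.sum_congr rfl fun s _ => ?_
      rw [map_smul, map_smul, map_smul, smul_eq_mul, smul_eq_mul]
      ring
    rw [← h1]; linarith
  have hnn : ∀ s ∈ S, 0 ≤ cf s * (ξ (g s) - ξ s) := fun s hs =>
    mul_nonneg (hcf s) (by linarith [hSd s hs])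
  have hzero : ∀ s ∈ S, cf s * (ξ (g s) - ξ s) = 0 :=
    (Finset.sum_eq_zero_iff_of_nonneg hnn).1 (le_antisymm hsum (Finset.sum_nonneg hnn))
  have hIeq : ξ (g (∑ s ∈ I, s)) = ξ (∑ s ∈ I, s) := by
    rw [map_sum, map_sum, map_sum]
    refine Finset.sum_congr rfl fun s hs => ?_
    have hs' := Finset.mem_filter.1 hs
    rcases mul_eq_zero.1 (hzero s hs'.1) with h | h
    · exact absurd h hs'.2.ne'
    · linarith
  -- the sum over `I` is an interior point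
  have hIS : ∀ s ∈ I, s ∈ L ∧ s ∈ Nf := fun s hs => hS s (Finset.mem_filter.1 hs).1
  have hM : ∃ M : ℝ, 0 < M ∧ ∀ s ∈ I, cf s ≤ M := by
    refine ⟨1 + ∑ s ∈ I, cf s, by
      have := Finset.sum_nonneg (s := I) fun s _ => hcf s
      linarith, fun s hs => ?_⟩
    have := Finset.single_le_sum (f := cf) (fun s _ => hcf s) hs
    linarith
  obtain ⟨M, hM0, hM1⟩ := hM
  have hzI : z = ∑ s ∈ I, cf s • s := by
    rw [hzs, hI, Finset.sum_filter]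
    refine Finset.sum_congr rfl fun s _ => ?_
    by_cases h : 0 < cf s
    · rw [if_pos h]
    · rw [if_neg h, le_antisymm (not_lt.1 h) (hcf s), zero_smul]
  have hdiff : M • (∑ s ∈ I, s) - z ∈ Nf := by
    have h1 : M • (∑ s ∈ I, s) - z = ∑ s ∈ I, (M - cf s) • s := by
      rw [hzI, Finset.smul_sum, ← Finset.sum_sub_distrib]
      exact Finset.sum_congr rfl fun s _ => by rw [sub_smul]
    rw [h1]
    refine D.cone_Nf (S := I) hIS ?_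
    exact mem_cone_of_sum I (fun s => s) (fun s => M - cf s) (fun s hs => hs)
      (fun s hs => by linarith [hM1 s hs])
  have hInn : Inn Nf (∑ s ∈ I, s) := by
    refine ⟨D.cone_Nf (S := I) hIS ?_, fun y => ?_⟩
    · have := mem_cone_of_sum I (fun s => s) (fun _ => (1 : ℝ)) (fun s hs => hs)
        (fun s _ => zero_le_one)
      simpa using this
    · obtain ⟨C, hC, h1⟩ := hzi.2 y
      refine ⟨C * M, mul_pos hC hM0, ?_⟩
      have h2 := D.add _ h1 _ (D.smul C hC.le _ hdiff)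
      convert h2 using 1
      rw [smul_sub, mul_smul]
      abel
  simp only [Set.mem_iUnion]
  exact ⟨I, Finset.mem_filter.2 ⟨Finset.mem_powerset.2 (Finset.filter_subset _ _), hInn⟩,
    hg, hIeq.le⟩

end Pool.Agent.Y95.KM
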