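import Pool.Agent.Y95.KM.Defs
import Pool.Agent.Y95.KM.Dir

/-!
# From the standard properties to `CData`
-/

set_option autoImplicit false

namespace Pool.Agent.Y95.KM

open Finset Filter Topology
open Pool.Agent.Y167

variable {W A : Type*} [NormedAddCommGroup W] [NormedSpace ℝ W] [Group A] {X : Num W A}

namespace Num.Good

theorem add_closure (h : X.Good) {x y : W} (hx : x ∈ X.amp) (hy : y ∈ X.nef) : x + y ∈ X.amp := by
  have h1 : Tendsto (fun z : W => x + (y - z)) (𝓝 y) (𝓝 x) := by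
    have : Continuous fun z : W => x + (y - z) := by fun_prop
    simpa using this.tendsto y
  have h2 : ∀ᶠ z in 𝓝 y, x + (y - z) ∈ X.amp := h1.eventually (h.isOpen.mem_nhds hx)
  obtain ⟨z, hz1, hz2⟩ := mem_closure_iff_nhds.1 hy _ h2
  have h3 := h.add _ hz1 _ hz2
  convert h3 using 1
  abel

theorem nef_add (h : X.Good) {x y : W} (hx : x ∈ X.nef) (hy : y ∈ X.nef) : x + y ∈ X.nef :=
  map_mem_closure₂ continuous_add hx hy fun a ha b hb => h.add a ha b hb

theorem nef_smul (h : X.Good) {t : ℝ} (ht : 0 ≤ t) {x : W} (hx : x ∈ X.nef) : t • x ∈ X.nef := by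
  rcases ht.eq_or_lt with rfl | ht
  · rw [zero_smul]
    obtain ⟨y, hy⟩ := h.nonempty
    have h1 : Tendsto (fun n : ℕ => (1 / ((n : ℝ) + 1)) • y) atTop (𝓝 ((0 : ℝ) • y)) :=
      tendsto_one_div_add_atTop_nhds_zero_nat.smul_const y
    rw [zero_smul] at h1
    exact mem_closure_of_tendsto h1 (Eventually.of_forall fun n => h.smul _ (by positivity) y hy)
  · exact map_mem_closure (continuous_const_smul t) hx fun a ha => h.smul t ht a ha

theorem act_nef (h : X.Good) [FiniteDimensional ℝ W] (a : A) {x : W} (hx : x ∈ X.nef) :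
    X.act a x ∈ X.nef := by
  have hc : Continuous (X.act a) := (X.act a).toLinearMap.continuous_of_finiteDimensional
  exact map_mem_closure hc hx fun y hy => h.act_amp a y hy

/-- rational approximation of coordinates -/
theorem exists_lat (h : X.Good) : ∃ y, y ∈ X.lat ∧ y ∈ X.amp := by
  obtain ⟨n, b, hb⟩ := h.lattice
  have : FiniteDimensional ℝ W := Module.Finite.of_basis b
  obtain ⟨x, hx⟩ := h.nonempty
  let F : (Fin n → ℝ) → W := fun c => ∑ i, c i • b i
  have hF : Continuous F := by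
    refine continuous_finsetSum _ fun i _ => ?_
    exact (continuous_apply i).smul continuous_const
  have hFx : F (fun i => b.repr x i) = x := b.sum_repr x
  have hopen : IsOpen (F ⁻¹' X.amp) := h.isOpen.preimage hF
  have hd : DenseRange (fun q : Fin n → ℚ => fun i => (q i : ℝ)) :=
    DenseRange.piMap fun _ => Rat.denseRange_cast
  obtain ⟨q, hq⟩ := hd.exists_mem_open hopen ⟨_, by rw [Set.mem_preimage, hFx]; exact hx⟩
  set N : ℕ := ∏ i, (q i).den with hN
  have hN0 : 0 < N := Finset.prod_pos fun i _ => (q i).den_pos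
  refine ⟨(N : ℝ) • F (fun i => (q i : ℝ)), (hb _).2 fun i => ?_,
    h.smul _ (by exact_mod_cast hN0) _ hq⟩
  have h1 : b.repr ((N : ℝ) • F (fun i => (q i : ℝ))) i = (N : ℝ) * q i := by
    simp only [F]
    rw [map_smul, Finsupp.smul_apply, b.repr_sum_self]
    rfl
  rw [h1]
  obtain ⟨k, hk⟩ : (q i).den ∣ N := Finset.dvd_prod_of_mem _ (Finset.mem_univ i)
  refine ⟨k * (q i).num, ?_⟩
  rw [hk]
  have h2 : ((q i : ℚ) : ℝ) * ((q i).den : ℝ) = ((q i).num : ℝ) := by
    exact_mod_cast Rat.mul_den_eq_num (q i)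
  push_cast
  rw [← h2]
  ring

/-- an integral linear form which is positive on the nef cone -/
theorem exists_form (h : X.Good) : ∃ (ξ : W →ₗ[ℝ] ℝ) (m : ℝ), 0 < m ∧
    (∀ x ∈ X.lat, ∃ k : ℤ, ξ x = k) ∧ ∀ x ∈ X.nef, m * ‖x‖ ≤ ξ x := by
  obtain ⟨n, b, hb⟩ := h.lattice
  have : FiniteDimensional ℝ W := Module.Finite.of_basis b
  have : ProperSpace W := FiniteDimensional.proper ℝ W
  set K : Set W := X.nef ∩ Metric.sphere 0 1 with hK
  have hKc : IsCompact K := (isCompact_sphere (0 : W) 1).inter_left isClosed_closure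
  have hconv : Convex ℝ X.nef := fun x hx y hy s t hs ht _ =>
    h.nef_add (h.nef_smul hs hx) (h.nef_smul ht hy)
  have hzero : (0 : W) ∈ X.nef := by
    obtain ⟨y, hy⟩ := h.nonempty
    have := h.nef_smul (le_refl (0 : ℝ)) (subset_closure hy : y ∈ X.nef)
    rwa [zero_smul] at this
  have hsep : ∀ x : W, ∃ g : W →L[ℝ] ℝ, x ∈ K → (∀ y ∈ X.nef, 0 ≤ g y) ∧ 0 < g x := by
    intro x
    by_cases hx : x ∈ K
    · have hx0 : x ≠ 0 := fun h0 => by
        have := hx.2
        rw [h0, mem_sphere_zero_iff_norm, norm_zero] at this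
        exact zero_ne_one this
      have hnx : -x ∉ X.nef := fun hn => hx0 (h.pointed x hx.1 hn)
      obtain ⟨f, u, hf1, hf2⟩ := geometric_hahn_banach_closed_point hconv isClosed_closure hnx
      have hu : 0 < u := by simpa using hf1 0 hzero
      refine ⟨-f, fun _ => ⟨fun y hy => ?_, ?_⟩⟩
      · by_contra hcon
        have hfy : 0 < f y := by simpa using hcon
        have h2 := hf1 _ (h.nef_smul (show (0 : ℝ) ≤ u / f y by positivity) hy)
        rw [map_smul, smul_eq_mul, div_mul_cancel₀ _ hfy.ne'] at h2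
        exact lt_irrefl _ h2
      · rw [map_neg] at hf2
        simpa using hu.trans hf2
    · exact ⟨0, fun h' => absurd h' hx⟩
  choose g hg using hsep
  obtain ⟨tt, htK, htc⟩ := hKc.elim_nhds_subcover (fun x => {y | 0 < g x y}) (fun x hx =>
    (isOpen_lt continuous_const (g x).continuous).mem_nhds (hg x hx).2)
  let f0 : W →L[ℝ] ℝ := ∑ x ∈ tt, g x
  have hf0 : ∀ y ∈ K, 0 < f0 y := by
    intro y hy
    obtain ⟨x, hx1, hx2⟩ := Set.mem_iUnion₂.1 (htc hy)
    simp only [f0, ContinuousLinearMap.sum_apply]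
    exact Finset.sum_pos' (fun x' hx' => (hg x' (htK x' hx')).1 y hy.1) ⟨x, hx1, hx2⟩
  let f : W →L[ℝ] ℝ := -f0
  obtain ⟨m₀, hm₀, hfK⟩ : ∃ m₀ : ℝ, 0 < m₀ ∧ ∀ x ∈ K, m₀ ≤ -f x := by
    rcases K.eq_empty_or_nonempty with h0 | hne
    · exact ⟨1, one_pos, fun x hx => by rw [h0] at hx; exact absurd hx (Set.notMem_empty x)⟩
    · obtain ⟨x, hx, hmin⟩ := hKc.exists_isMinOn hne f0.continuous.continuousOn
      exact ⟨f0 x, hf0 x hx, fun y hy => by simpa [f] using hmin hy⟩
  -- bound for the coordinates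
  obtain ⟨M, hM0, hM⟩ : ∃ M : ℝ, 0 < M ∧ ∀ x : W, ∑ i, |b.repr x i| ≤ M * ‖x‖ := by
    have h1 : ∀ i, ∃ M : ℝ, 0 ≤ M ∧ ∀ x : W, |b.repr x i| ≤ M * ‖x‖ := by
      intro i
      let φ : W →L[ℝ] ℝ := LinearMap.toContinuousLinearMap (b.coord i)
      refine ⟨‖φ‖, norm_nonneg _, fun x => ?_⟩
      have := φ.le_opNorm x
      simpa [φ] using this
    choose M hM0 hM using h1
    refine ⟨∑ i, M i + 1, by have := Finset.sum_nonneg (s := univ) fun i _ => hM0 i; linarith,
      fun x => ?_⟩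
    calc ∑ i, |b.repr x i| ≤ ∑ i, M i * ‖x‖ := Finset.sum_le_sum fun i _ => hM i x
      _ = (∑ i, M i) * ‖x‖ := by rw [Finset.sum_mul]
      _ ≤ (∑ i, M i + 1) * ‖x‖ := by nlinarith [norm_nonneg x]
  set ε : ℝ := m₀ / (2 * M) with hε
  have hε0 : 0 < ε := by positivity
  have hq : ∀ i, ∃ q : ℚ, |(q : ℝ) - -f (b i)| < ε := by
    intro i
    obtain ⟨q, h1, h2⟩ := exists_rat_btwn (show -f (b i) - ε < -f (b i) + ε by linarith)
    exact ⟨q, abs_lt.2 ⟨by linarith, by linarith⟩⟩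
  choose q hq using hq
  set N : ℕ := ∏ i, (q i).den with hN
  have hN0 : 0 < N := Finset.prod_pos fun i _ => (q i).den_pos
  have hNr : (1 : ℝ) ≤ N := by exact_mod_cast hN0
  let ξ : W →ₗ[ℝ] ℝ := (N : ℝ) • ∑ i, (q i : ℝ) • b.coord i
  have hξ : ∀ x, ξ x = N * ∑ i, (q i : ℝ) * b.repr x i := by
    intro x
    simp only [ξ, LinearMap.smul_apply, LinearMap.sum_apply, smul_eq_mul, Module.Basis.coord_apply]
  refine ⟨ξ, m₀ / 2, by positivity, ?_, ?_⟩
  · intro x hx
    have h1 : ∀ i, ∃ k : ℤ, (N : ℝ) * ((q i : ℝ) * b.repr x i) = k := by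
      intro i
      obtain ⟨j, hj⟩ := (hb x).1 hx i
      obtain ⟨k, hk⟩ : (q i).den ∣ N := Finset.dvd_prod_of_mem _ (Finset.mem_univ i)
      refine ⟨k * (q i).num * j, ?_⟩
      have h2 : ((q i : ℚ) : ℝ) * ((q i).den : ℝ) = ((q i).num : ℝ) := by
        exact_mod_cast Rat.mul_den_eq_num (q i)
      rw [hj, hk]
      push_cast
      rw [← h2]
      ring
    choose k hk using h1
    refine ⟨∑ i, k i, ?_⟩
    rw [hξ, Finset.mul_sum, Finset.sum_congr rfl fun i _ => hk i]
    push_cast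
    rfl
  · intro x hx
    have h1 : ∀ y ∈ K, m₀ / 2 ≤ ∑ i, (q i : ℝ) * b.repr y i := by
      intro y hy
      have h2 : ∑ i, (q i : ℝ) * b.repr y i - -f y = ∑ i, ((q i : ℝ) - -f (b i)) * b.repr y i := by
        have h3 : f y = ∑ i, f (b i) * b.repr y i := by
          conv_lhs => rw [← b.sum_repr y, map_sum]
          exact Finset.sum_congr rfl fun i _ => by rw [map_smul, smul_eq_mul, mul_comm]
        rw [h3, sub_neg_eq_add, ← Finset.sum_add_distrib]
        exact Finset.sum_congr rfl fun i _ => by ring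
      have h4 : |∑ i, ((q i : ℝ) - -f (b i)) * b.repr y i| ≤ m₀ / 2 := by
        calc |∑ i, ((q i : ℝ) - -f (b i)) * b.repr y i|
            ≤ ∑ i, |((q i : ℝ) - -f (b i)) * b.repr y i| := Finset.abs_sum_le_sum_abs _ _
          _ ≤ ∑ i, ε * |b.repr y i| := Finset.sum_le_sum fun i _ => by
              rw [abs_mul]
              exact mul_le_mul_of_nonneg_right (hq i).le (abs_nonneg _)
          _ = ε * ∑ i, |b.repr y i| := by rw [Finset.mul_sum]
          _ ≤ ε * (M * ‖y‖) := mul_le_mul_of_nonneg_left (hM y) hε0.le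
          _ = m₀ / 2 := by
              have h5 : ‖y‖ = 1 := mem_sphere_zero_iff_norm.1 hy.2
              rw [h5, hε]
              field_simp
      have h6 := hfK y hy
      have h7 := (abs_le.1 h4).1
      rw [← h2] at h7
      linarith
    by_cases hx0 : x = 0
    · rw [hx0]; simp
    · have hnx : 0 < ‖x‖ := norm_pos_iff.2 hx0
      have hxK : ‖x‖⁻¹ • x ∈ K := by
        refine ⟨h.nef_smul (inv_nonneg.2 hnx.le) hx, ?_⟩
        rw [mem_sphere_zero_iff_norm, norm_smul, norm_inv, norm_norm, inv_mul_cancel₀ hnx.ne']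
      have h2 := h1 _ hxK
      have h3 : ∑ i, (q i : ℝ) * b.repr (‖x‖⁻¹ • x) i = ‖x‖⁻¹ * ∑ i, (q i : ℝ) * b.repr x i := by
        rw [Finset.mul_sum]
        refine Finset.sum_congr rfl fun i _ => ?_
        rw [map_smul, Finsupp.smul_apply, smul_eq_mul]
        ring
      rw [h3] at h2
      have h4 : m₀ / 2 * ‖x‖ ≤ ∑ i, (q i : ℝ) * b.repr x i := by
        have h5 := mul_le_mul_of_nonneg_right h2 hnx.le
        have h6 : ‖x‖⁻¹ * (∑ i, (q i : ℝ) * b.repr x i) * ‖x‖ = ∑ i, (q i : ℝ) * b.repr x i := by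
          field_simp
        rwa [h6] at h5
      rw [hξ]
      have h7 : 0 ≤ ∑ i, (q i : ℝ) * b.repr x i := le_trans (by positivity) h4
      nlinarith

theorem exists_cdata (h : X.Good) : ∃ (ξ₀ : W →ₗ[ℝ] ℝ) (y₀ : W) (Y : Finset W),
    CData X.lat X.nef ξ₀ y₀ Y ∧ y₀ ∈ X.amp := by
  classical
  obtain ⟨n, b, hb⟩ := h.lattice
  have : FiniteDimensional ℝ W := Module.Finite.of_basis b
  obtain ⟨y₀, hy₀L, hy₀⟩ := h.exists_lat
  obtain ⟨ξ, m, hm, hξL, hξ⟩ := h.exists_form
  have hbL : ∀ i, b i ∈ X.lat := fun i => (hb _).2 fun j => by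
    rw [b.repr_self, Finsupp.single_apply]
    by_cases hij : i = j
    · exact ⟨1, by simp [hij]⟩
    · exact ⟨0, by simp [hij]⟩
  have hint : ∀ x : W, ∃ k : ℕ, ∀ l : ℕ, k ≤ l → (l : ℝ) • y₀ - x ∈ X.amp := by
    intro x
    have h1 : Tendsto (fun k : ℕ => y₀ - (1 / ((k : ℝ) + 1)) • x) atTop (𝓝 y₀) := by
      have := (tendsto_one_div_add_atTop_nhds_zero_nat (𝕜 := ℝ)).smul_const x
      have := this.const_sub y₀
      simpa using this
    have h2 := h1.eventually (h.isOpen.mem_nhds hy₀)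
    obtain ⟨k, hk⟩ := eventually_atTop.1 h2
    refine ⟨k + 1, fun l hl => ?_⟩
    obtain ⟨l, rfl⟩ : ∃ l', l = l' + 1 := ⟨l - 1, by omega⟩
    have h3 := hk l (by omega)
    have h4 := h.smul ((l : ℝ) + 1) (by positivity) _ h3
    convert h4 using 1
    rw [smul_sub, smul_smul]
    have : ((l : ℝ) + 1) * (1 / ((l : ℝ) + 1)) = 1 := by field_simp
    rw [this, one_smul]
    push_cast
    rfl
  have hk : ∃ k : ℕ, ∀ i, (k : ℝ) • y₀ + b i ∈ X.amp := by
    choose k hk using fun i => hint (-(b i))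
    refine ⟨∑ i, k i, fun i => ?_⟩
    have := hk i _ (Finset.single_le_sum (f := k) (fun _ _ => Nat.zero_le _) (Finset.mem_univ i))
    rwa [sub_neg_eq_add] at this
  obtain ⟨k, hk⟩ := hk
  refine ⟨ξ, y₀, insert y₀ (Finset.univ.image fun i => (k : ℝ) • y₀ + b i), ?_, hy₀⟩
  constructor
  · exact fun x hx y hy => h.nef_add hx hy
  · exact fun t ht x hx => h.nef_smul ht hx
  · exact hξL
  · intro x hx h0
    exact lt_of_lt_of_le (mul_pos hm (norm_pos_iff.2 h0)) (hξ x hx)
  · intro C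
    -- bounded coordinates
    have h1 : ∀ i, ∃ M : ℝ, 0 ≤ M ∧ ∀ x : W, |b.repr x i| ≤ M * ‖x‖ := by
      intro i
      let φ : W →L[ℝ] ℝ := LinearMap.toContinuousLinearMap (b.coord i)
      refine ⟨‖φ‖, norm_nonneg _, fun x => ?_⟩
      have := φ.le_opNorm x
      simpa [φ] using this
    choose M hM0 hM using h1
    let e : W → (Fin n → ℤ) := fun x i => ⌊b.repr x i⌋
    refine Set.Finite.of_finite_image (f := e) ?_ ?_
    · refine (Set.Finite.pi' (fun i : Fin n =>
        Set.finite_Icc (-⌈M i * (|C| / m)⌉ - 1) (⌈M i * (|C| / m)⌉))).subset ?_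
      rintro _ ⟨x, ⟨hxL, hxN, hxC⟩, rfl⟩ i
      have h2 : ‖x‖ ≤ |C| / m := by
        rw [le_div_iff₀ hm]
        have := hξ x hxN
        have := le_abs_self C
        linarith
      have h3 : |b.repr x i| ≤ M i * (|C| / m) :=
        (hM i x).trans (mul_le_mul_of_nonneg_left h2 (hM0 i))
      have h4 := abs_le.1 h3
      have h5 := Int.le_ceil (M i * (|C| / m))
      simp only [e, Set.mem_Icc]
      constructor
      · have h6 : -((⌈M i * (|C| / m)⌉ : ℤ) : ℝ) ≤ b.repr x i := by linarith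
        have h7 : -⌈M i * (|C| / m)⌉ ≤ ⌊b.repr x i⌋ := Int.le_floor.2 (by push_cast; exact h6)
        omega
      · have h6 : (⌊b.repr x i⌋ : ℝ) ≤ ⌈M i * (|C| / m)⌉ := (Int.floor_le _).trans (by linarith)
        exact_mod_cast h6
    · rintro x ⟨hxL, -⟩ y ⟨hyL, -⟩ hxy
      apply b.ext_elem
      intro i
      obtain ⟨p, hp⟩ := (hb x).1 hxL i
      obtain ⟨r, hr⟩ := (hb y).1 hyL i
      have h2 := congrFun hxy i
      simp only [e, hp, hr, Int.floor_intCast] at h2
      rw [hp, hr, h2]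
  · exact hy₀L
  · exact subset_closure hy₀
  · intro x
    obtain ⟨l, hl⟩ := hint x
    refine ⟨((l + 1 : ℕ) : ℝ), by positivity, subset_closure (hl (l + 1) (by omega))⟩
  · intro η
    let φ : W →L[ℝ] ℝ := LinearMap.toContinuousLinearMap η
    refine ⟨‖φ‖ / m, fun x hx => ?_⟩
    have h1 : |η x| ≤ ‖φ‖ * ‖x‖ := by
      have := φ.le_opNorm x
      simpa [φ] using this
    have h2 : ‖x‖ ≤ ξ x / m := by
      rw [le_div_iff₀ hm]
      linarith [hξ x hx]
    calc |η x| ≤ ‖φ‖ * ‖x‖ := h1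
      _ ≤ ‖φ‖ * (ξ x / m) := mul_le_mul_of_nonneg_left h2 (norm_nonneg _)
      _ = ‖φ‖ / m * ξ x := by ring
  · intro x hx
    obtain ⟨i, hi⟩ : ∃ i, b.repr x i ≠ 0 := by
      by_contra hcon
      push Not at hcon
      exact hx (b.ext_elem fun i => by rw [hcon i]; simp)
    refine ⟨b.coord i, fun y hy => ?_, hi⟩
    obtain ⟨k, hk⟩ := (hb y).1 hy i
    exact ⟨k, hk⟩
  · intro y hy
    rcases Finset.mem_insert.1 hy with rfl | hy
    · exact ⟨hy₀L, subset_closure hy₀⟩
    · obtain ⟨i, -, rfl⟩ := Finset.mem_image.1 hy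
      refine ⟨X.lat.add_mem ?_ (hbL i), subset_closure (hk i)⟩
      rw [Nat.cast_smul_eq_nsmul]
      exact X.lat.nsmul_mem hy₀L k
  · intro φ hφ
    refine b.ext fun i => ?_
    have h1 := hφ y₀ (Finset.mem_insert_self _ _)
    have h2 := hφ ((k : ℝ) • y₀ + b i) (Finset.mem_insert_of_mem
      (Finset.mem_image_of_mem _ (Finset.mem_univ i)))
    rw [map_add, map_smul, h1, smul_zero, zero_add] at h2
    rw [h2]
    rfl

end Num.Good

end Pool.Agent.Y95.KM
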