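import Pool.Agent.Y95.KM.Tower
import Pool.Agent.Y95.KM.CuspDefs

/-!
# The cone conjecture from finitely many cusps
-/

set_option autoImplicit false

namespace Pool.Agent.Y95.KM

open Finset Filter Topology
open Pool.Agent.Y167

variable {W A : Type*} [NormedAddCommGroup W] [NormedSpace ℝ W] [Group A] {X : Num W A}

/-- a linear form is bounded by a homogeneous function which is positive on a polytope -/
theorem exists_bound [FiniteDimensional ℝ W] (F : Finset W) (ξ : W →ₗ[ℝ] ℝ) (η : W → ℝ)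
    (hc : Continuous η) (hs : ∀ t : ℝ, 0 ≤ t → ∀ x, η (t • x) = t * η x)
    (hpos : ∀ u ∈ convexHull ℝ (F : Set W), 0 < η u) :
    ∃ M : ℝ, 0 < M ∧ ∀ p ∈ cone F, ξ p ≤ M * η p := by
  classical
  have hη0 : η 0 = 0 := by
    have := hs 0 le_rfl 0
    rwa [smul_zero, zero_mul] at this
  rcases F.eq_empty_or_nonempty with rfl | hF
  · refine ⟨1, one_pos, ?_⟩
    rintro p ⟨c, -, rfl⟩
    rw [Finset.sum_empty, map_zero, hη0, mul_zero]
  have hK : IsCompact (convexHull ℝ (F : Set W)) := F.finite_toSet.isCompact_convexHull ℝ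
  have hKn : (convexHull ℝ (F : Set W)).Nonempty := (Finset.coe_nonempty.2 hF).convexHull
  obtain ⟨u₀, hu₀, hmin⟩ := hK.exists_isMinOn hKn hc.continuousOn
  obtain ⟨u₁, hu₁, hmax⟩ := hK.exists_isMaxOn hKn ξ.continuous_of_finiteDimensional.continuousOn
  have hδ : 0 < η u₀ := hpos u₀ hu₀
  refine ⟨|ξ u₁| / η u₀ + 1, by positivity, ?_⟩
  rintro p ⟨c, hc0, rfl⟩
  set s := ∑ v ∈ F, c v with hsdef
  have hs0 : 0 ≤ s := Finset.sum_nonneg fun v _ => hc0 v
  rcases hs0.eq_or_lt with h0 | h0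
  · have h1 : ∀ v ∈ F, c v = 0 :=
      (Finset.sum_eq_zero_iff_of_nonneg (fun v _ => hc0 v)).1 (hsdef ▸ h0.symm)
    have h2 : ∑ v ∈ F, c v • v = 0 := Finset.sum_eq_zero fun v hv => by rw [h1 v hv, zero_smul]
    rw [h2, map_zero, hη0, mul_zero]
  · set u := ∑ v ∈ F, (c v / s) • v with hu
    have huK : u ∈ convexHull ℝ (F : Set W) := by
      refine (convex_convexHull ℝ _).sum_mem (fun v _ => div_nonneg (hc0 v) hs0) ?_
        (fun v hv => subset_convexHull ℝ _ hv)
      rw [← Finset.sum_div, ← hsdef, div_self h0.ne']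
    have hpu : ∑ v ∈ F, c v • v = s • u := by
      rw [hu, Finset.smul_sum]
      refine Finset.sum_congr rfl fun v _ => ?_
      rw [smul_smul, mul_div_cancel₀ _ h0.ne']
    rw [hpu, map_smul, smul_eq_mul, hs s hs0]
    have h1 : ξ u ≤ ξ u₁ := hmax huK
    have h2 : η u₀ ≤ η u := hmin huK
    have h3 : |ξ u₁| ≤ |ξ u₁| / η u₀ * η u := by
      rw [div_mul_eq_mul_div, le_div_iff₀ hδ]
      exact mul_le_mul_of_nonneg_left h2 (abs_nonneg _)
    have h4 : ξ u ≤ (|ξ u₁| / η u₀ + 1) * η u := by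
      have := le_abs_self (ξ u₁)
      nlinarith
    calc s * ξ u ≤ s * ((|ξ u₁| / η u₀ + 1) * η u) := mul_le_mul_of_nonneg_left h4 hs0
      _ = (|ξ u₁| / η u₀ + 1) * (s * η u) := by ring

/-- in the orbit of an ample class there is a class of almost minimal degree -/
theorem exists_near_min (h : X.Good) (ξ : W →ₗ[ℝ] ℝ) {m : ℝ} (hm : 0 < m)
    (hξL : ∀ x ∈ X.lat, ∃ k : ℤ, ξ x = k) (hξ : ∀ x ∈ X.nef, m * ‖x‖ ≤ ξ x) {x : W}
    (hx : x ∈ X.amp) : ∃ a₀, ∀ a, ξ (X.act a₀ x) ≤ 2 * ξ (X.act a x) := by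
  have := h.finDim
  obtain ⟨y, hyL, hy⟩ := h.exists_lat
  by_cases hy0 : y = 0
  · -- the space is trivial
    subst hy0
    have h1 : x = 0 := by
      have h2 : Tendsto (fun t : ℝ => t • (-x)) (𝓝 0) (𝓝 0) := by
        have hc : Continuous fun t : ℝ => t • (-x) := by fun_prop
        have := hc.tendsto 0
        simpa using this
      have h3 : ∀ᶠ t : ℝ in 𝓝 0, t • (-x) ∈ X.amp := h2.eventually (h.isOpen.mem_nhds hy)
      have h4 : ∃ᶠ t : ℝ in 𝓝 0, 0 < t := by
        have : ∀ᶠ t : ℝ in 𝓝[>] 0, 0 < t := eventually_mem_nhdsWithin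
        exact (this.frequently).filter_mono nhdsWithin_le_nhds
      obtain ⟨t, ht0, ht⟩ := (h4.and_eventually h3).exists
      have h5 := h.smul t⁻¹ (inv_pos.2 ht0) _ ht
      rw [smul_smul, inv_mul_cancel₀ ht0.ne', one_smul] at h5
      exact h.pointed x (subset_closure hx) (subset_closure h5)
    exact ⟨1, fun a => by rw [h1, map_zero, map_zero, map_zero]; simp⟩
  · obtain ⟨ε, hε, hxe⟩ : ∃ ε : ℝ, 0 < ε ∧ x - ε • y ∈ X.amp := by
      have h2 : Tendsto (fun t : ℝ => x - t • y) (𝓝 0) (𝓝 x) := by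
        have hc : Continuous fun t : ℝ => x - t • y := by fun_prop
        have := hc.tendsto 0
        simpa using this
      have h3 : ∀ᶠ t : ℝ in 𝓝 0, x - t • y ∈ X.amp := h2.eventually (h.isOpen.mem_nhds hx)
      have h4 : ∃ᶠ t : ℝ in 𝓝 0, 0 < t := by
        have : ∀ᶠ t : ℝ in 𝓝[>] 0, 0 < t := eventually_mem_nhdsWithin
        exact (this.frequently).filter_mono nhdsWithin_le_nhds
      obtain ⟨t, ht0, ht⟩ := (h4.and_eventually h3).exists
      exact ⟨t, ht0, ht⟩
    have hlow : ∀ a, ε ≤ ξ (X.act a x) := by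
      intro a
      have h1 : X.act a x = X.act a (x - ε • y) + ε • X.act a y := by
        rw [map_sub, map_smul]; abel
      have h2 : 0 ≤ ξ (X.act a (x - ε • y)) :=
        le_trans (mul_nonneg hm.le (norm_nonneg _)) (hξ _ (subset_closure (h.act_amp a _ hxe)))
      have h3 : 1 ≤ ξ (X.act a y) := by
        obtain ⟨k, hk⟩ := hξL _ (h.act_lat a y hyL)
        have h4 : 0 < ‖X.act a y‖ := norm_pos_iff.2 fun h0 => hy0 (by
          have := congrArg (X.act a).symm h0
          rwa [LinearEquiv.symm_apply_apply, map_zero] at this)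
        have h5 := hξ _ (subset_closure (h.act_amp a y hy))
        have h6 : 0 < ξ (X.act a y) := lt_of_lt_of_le (mul_pos hm h4) h5
        rw [hk] at h6 ⊢
        have h7 : 0 < k := by exact_mod_cast h6
        exact_mod_cast h7
      rw [h1, map_add, map_smul, smul_eq_mul]
      nlinarith
    have hbdd : BddBelow (Set.range fun a => ξ (X.act a x)) :=
      ⟨ε, by rintro _ ⟨a, rfl⟩; exact hlow a⟩
    have hI : ε ≤ ⨅ a, ξ (X.act a x) := le_ciInf hlow
    obtain ⟨a₀, ha₀⟩ := exists_lt_of_ciInf_lt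
      (show (⨅ a, ξ (X.act a x)) < 2 * ⨅ a, ξ (X.act a x) by linarith)
    exact ⟨a₀, fun a => ha₀.le.trans (by
      have h8 : (⨅ a, ξ (X.act a x)) ≤ ξ (X.act a x) := ciInf_le hbdd a
      linarith)⟩

/-- **The cone conjecture from finitely many cusps.** -/
theorem cusps (h : X.Good) (h00 : (0 : W) ∈ X.eff) {ι : Type*} [Finite ι] (f : ι → W)
    (hf : ∀ i, f i ∈ X.lat ∧ f i ∈ X.nefEff)
    (hface : ∀ i, ∀ u ∈ X.nef, ∀ v ∈ X.nef, (∃ t : ℝ, u + v = t • f i) → ∃ t : ℝ, u = t • f i)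
    (hloc : ∀ x ∈ X.nef, x ≠ 0 → (∀ i a, ∀ t : ℝ, x ≠ t • X.act a (f i)) →
      X.PolyhedralAt x ∨ X.Contracted x)
    (η : ι → W → ℝ) (hηc : ∀ i, Continuous (η i))
    (hηs : ∀ i, ∀ t : ℝ, 0 ≤ t → ∀ x, η i (t • x) = t * η i x)
    (hηf : ∀ i, ∀ (t : ℝ) x, η i (x + t • f i) = η i x)
    (hηa : ∀ i a, X.act a (f i) = f i → ∀ x, η i (X.act a x) = η i x)
    (hη0 : ∀ i, ∀ x ∈ X.nefEff, (∀ t : ℝ, x ≠ t • f i) → 0 < η i x)
    (F : ι → Finset W) (hF : ∀ i, ∀ s ∈ F i, s ∈ X.lat ∧ s ∈ X.nefEff)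
    (hrel : ∀ i, ∀ x ∈ X.amp, ∃ a, X.act a (f i) = f i ∧
      ∃ t : ℝ, X.act a x - t • f i ∈ cone (F i)) : X.ConeConj := by
  classical
  have := h.finDim
  have : ProperSpace W := FiniteDimensional.proper ℝ W
  have : Fintype ι := Fintype.ofFinite ι
  obtain ⟨ξ, m, hm, hξL, hξ⟩ := h.exists_form
  have hξn : ∀ x ∈ X.nef, 0 ≤ ξ x := fun x hx =>
    le_trans (mul_nonneg hm.le (norm_nonneg x)) (hξ x hx)
  have hη00 : ∀ i, η i 0 = 0 := fun i => by
    have := hηs i 0 le_rfl 0
    rwa [smul_zero, zero_mul] at this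
  -- remove the multiples of `f i`
  let F' : ι → Finset W := fun i => (F i).filter fun v => ∀ t : ℝ, v ≠ t • f i
  have hF' : ∀ i, ∀ v ∈ F' i, v ∈ F i ∧ ∀ t : ℝ, v ≠ t • f i := fun i v hv =>
    Finset.mem_filter.1 hv
  have hrel' : ∀ i, ∀ x ∈ X.amp, ∃ a, X.act a (f i) = f i ∧
      ∃ t : ℝ, X.act a x - t • f i ∈ cone (F' i) := by
    intro i x hx
    obtain ⟨a, haf, t, c, hc, he⟩ := hrel i x hx
    have h1 : ∀ v : W, ∃ r : ℝ, v ∈ F i → v ∉ F' i → v = r • f i := by
      intro v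
      by_cases hv : ∃ r : ℝ, v = r • f i
      · exact ⟨hv.choose, fun _ _ => hv.choose_spec⟩
      · exact ⟨0, fun h2 h3 => absurd (Finset.mem_filter.2 ⟨h2, fun t ht => hv ⟨t, ht⟩⟩) h3⟩
    choose r hr using h1
    refine ⟨a, haf, t + ∑ v ∈ (F i).filter (fun v => v ∉ F' i), c v * r v, c, hc, ?_⟩
    have h2 : X.act a x = t • f i + ∑ v ∈ F i, c v • v := by rw [← he]; abel
    rw [h2, ← Finset.sum_filter_add_sum_filter_not (F i) (fun v => v ∉ F' i), add_smul,
      Finset.sum_smul]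
    have h3 : ∑ v ∈ (F i).filter (fun v => v ∉ F' i), c v • v =
        ∑ v ∈ (F i).filter (fun v => v ∉ F' i), (c v * r v) • f i := by
      refine Finset.sum_congr rfl fun v hv => ?_
      have hv' := Finset.mem_filter.1 hv
      rw [mul_smul, ← hr v hv'.1 hv'.2]
    have h4 : (F i).filter (fun v => ¬ v ∉ F' i) = F' i := by
      ext v
      rw [Finset.mem_filter, not_not]
      exact ⟨fun h => h.2, fun h => ⟨(hF' i v h).1, h⟩⟩
    rw [h3, h4]
    abel
  -- the estimate
  have hMi : ∀ i, ∃ M : ℝ, 0 < M ∧ ∀ p ∈ cone (F' i), ξ p ≤ M * η i p := by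
    intro i
    refine exists_bound (F' i) ξ (η i) (hηc i) (hηs i) fun u hu => ?_
    rw [Finset.convexHull_eq] at hu
    obtain ⟨w, hw0, hw1, hwx⟩ := hu
    rw [Finset.centerMass_eq_of_sum_1 _ _ hw1] at hwx
    simp only [id] at hwx
    have hnef : ∀ s ∈ F' i, s ∈ X.nef := fun s hs => (hF i s (hF' i s hs).1).2.1
    have hsum : ∀ T ⊆ F' i, T.Nonempty → ∑ s ∈ T, w s • s ∈ X.nef := by
      intro T hT hTn
      refine Finset.sum_induction_nonempty _ (fun x => x ∈ X.nef) (fun x y hx hy => h.nef_add hx hy)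
        hTn ?_
      exact fun s hs => h.nef_smul (hw0 s (hT hs)) (hnef s (hT hs))
    obtain ⟨v, hv, hwv⟩ : ∃ v ∈ F' i, 0 < w v := by
      by_contra hcon
      push Not at hcon
      have : ∑ y ∈ F' i, w y ≤ 0 := Finset.sum_nonpos hcon
      linarith
    have hun : u ∈ X.nef := by
      rw [← hwx]
      exact hsum _ (Finset.Subset.refl _) ⟨v, hv⟩
    have hue : u ∈ X.eff := by
      rw [← hwx]
      refine Finset.sum_induction_nonempty _ (fun x => x ∈ X.eff)
        (fun x y hx hy => h.eff_add x hx y hy) ⟨v, hv⟩ fun s hs => ?_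
      rcases (hw0 s hs).eq_or_lt with h0 | h0
      · rw [← h0, zero_smul]; exact h00
      · exact h.eff_smul _ h0 _ (hF i s (hF' i s hs).1).2.2
    refine hη0 i u ⟨hun, hue⟩ fun t ht => ?_
    have h1 : w v • v ∈ X.nef := h.nef_smul hwv.le (hnef v hv)
    have h2 : ∑ s ∈ (F' i).erase v, w s • s ∈ X.nef := by
      rcases ((F' i).erase v).eq_empty_or_nonempty with he | he
      · rw [he, Finset.sum_empty]
        have := h.nef_smul (le_refl (0 : ℝ)) h1
        rwa [zero_smul] at this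
      · exact hsum _ (Finset.erase_subset _ _) he
    obtain ⟨r, hr⟩ := hface i _ h1 _ h2 ⟨t, by
      rw [← ht, ← hwx]; exact Finset.add_sum_erase (F' i) (fun s => w s • s) hv⟩
    apply (hF' i v hv).2 ((w v)⁻¹ * r)
    rw [mul_smul, ← hr, smul_smul, inv_mul_cancel₀ hwv.ne', one_smul]
  choose Mi hMi0 hMi using hMi
  obtain ⟨M, hM0, hM⟩ : ∃ M : ℝ, 0 < M ∧ ∀ i, ∀ p ∈ cone (F' i), ξ p ≤ M * η i p := by
    refine ⟨1 + ∑ i, Mi i, ?_, fun i p hp => ?_⟩
    · have : 0 ≤ ∑ i, Mi i := Finset.sum_nonneg fun i _ => (hMi0 i).le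
      linarith
    · have h1 : Mi i ≤ ∑ i, Mi i :=
        Finset.single_le_sum (f := Mi) (fun i _ => (hMi0 i).le) (Finset.mem_univ i)
      have h2 : 0 ≤ η i p := by
        by_contra hneg
        push Not at hneg
        have h3 := hMi i p hp
        have h4 : 0 ≤ ξ p := by
          obtain ⟨c, hc, rfl⟩ := hp
          rw [map_sum]
          refine Finset.sum_nonneg fun v hv => ?_
          rw [map_smul, smul_eq_mul]
          exact mul_nonneg (hc v) (hξn v (hF i v (hF' i v hv).1).2.1)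
        have h5 : Mi i * η i p < 0 := mul_neg_of_pos_of_neg (hMi0 i) hneg
        linarith
      exact (hMi i p hp).trans (mul_le_mul_of_nonneg_right (by linarith) h2)
  -- the classes which are far from all cusps
  set K : Set W := (X.nef ∩ Metric.sphere 0 1) ∩
    ({x | ∀ i γ, ξ x ≤ 2 * M * η i (X.act γ x)} ∩ {x | ∀ γ, ξ x ≤ 2 * ξ (X.act γ x)}) with hK
  have hKc : IsCompact K := by
    refine ((isCompact_sphere (0 : W) 1).inter_left isClosed_closure).inter_right
      (IsClosed.inter ?_ ?_)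
    swap
    · have h1 : {x : W | ∀ γ, ξ x ≤ 2 * ξ (X.act γ x)} =
          ⋂ γ, {x : W | ξ x ≤ 2 * ξ (X.act γ x)} := by
        ext x; simp only [Set.mem_ofPred_eq, Set.mem_iInter]
      rw [h1]
      refine isClosed_iInter fun γ => ?_
      have hcγ : Continuous (X.act γ) := (X.act γ).toLinearMap.continuous_of_finiteDimensional
      exact isClosed_le ξ.continuous_of_finiteDimensional
        (continuous_const.mul (ξ.continuous_of_finiteDimensional.comp hcγ))
    have h1 : {x : W | ∀ i γ, ξ x ≤ 2 * M * η i (X.act γ x)} =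
        ⋂ i, ⋂ γ, {x : W | ξ x ≤ 2 * M * η i (X.act γ x)} := by
      ext x; simp only [Set.mem_ofPred_eq, Set.mem_iInter]
    rw [h1]
    refine isClosed_iInter fun i => isClosed_iInter fun γ => ?_
    have hcγ : Continuous (X.act γ) := (X.act γ).toLinearMap.continuous_of_finiteDimensional
    exact isClosed_le ξ.continuous_of_finiteDimensional
      (continuous_const.mul ((hηc i).comp hcγ))
  obtain ⟨FK, hFK, hKF⟩ := cover_compact (X := X) K hKc (fun x hx => hx.1.1) (fun x hx => by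
    have h3 := hξ x hx.1.1
    have h4 : ‖x‖ = 1 := mem_sphere_zero_iff_norm.1 hx.1.2
    rw [h4, mul_one] at h3
    have hx0 : x ≠ 0 := fun h0 => by rw [h0, norm_zero] at h4; exact one_ne_zero h4.symm
    rcases hloc x hx.1.1 hx0 (fun i a t ht => by
      have h1 : ξ x ≤ 2 * M * η i (X.act a⁻¹ x) := hx.2.1 i a⁻¹
      have h2 : X.act a⁻¹ x = 0 + t • f i := by
        rw [ht, map_smul, act_inv_act, zero_add]
      rw [h2, hηf, hη00, mul_zero] at h1
      linarith) with hP | ⟨-, hC⟩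
    · exact hP
    · exfalso
      have h5 : {y : W | ξ y < ξ x / 2} ∈ 𝓝 (0 : W) := by
        refine (isOpen_lt ξ.continuous_of_finiteDimensional continuous_const).mem_nhds ?_
        change ξ 0 < ξ x / 2
        rw [map_zero]
        linarith
      obtain ⟨y, hy, a, rfl⟩ := mem_closure_iff_nhds.1 hC _ h5
      have h6 : ξ x ≤ 2 * ξ (X.act a x) := hx.2.2 a
      have h7 : ξ (X.act a x) < ξ x / 2 := hy
      linarith)
  let S : Finset W := FK ∪ Finset.univ.biUnion fun i => insert (f i) (F' i)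
  refine h.conj_of_cover2 S ?_ h00 ?_ ?_
  · intro s hs
    rcases Finset.mem_union.1 hs with hs | hs
    · exact hFK s hs
    · obtain ⟨i, -, hs⟩ := Finset.mem_biUnion.1 hs
      rcases Finset.mem_insert.1 hs with rfl | hs
      · exact hf i
      · exact hF i s (hF' i s hs).1
  · intro x₀ hx₀
    obtain ⟨a₀, ha₀⟩ := exists_near_min h ξ hm hξL hξ hx₀
    set x := X.act a₀ x₀ with hx
    have hxa : x ∈ X.amp := h.act_amp a₀ x₀ hx₀
    have hmin : ∀ γ, ξ x ≤ 2 * ξ (X.act γ x) := by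
      intro γ
      have := ha₀ (γ * a₀)
      rwa [act_mul] at this
    by_cases hA : ∃ γ i, ∃ t : ℝ, 0 ≤ t ∧ X.act γ x - t • f i ∈ cone (F' i)
    · obtain ⟨γ, i, t, ht, hp⟩ := hA
      refine ⟨γ * a₀, ?_⟩
      have h1 : X.act (γ * a₀) x₀ = (X.act γ x - t • f i) + t • f i := by
        rw [act_mul]; abel
      have h2 : insert (f i) (F' i) ⊆ S :=
        (Finset.subset_biUnion_of_mem (fun i => insert (f i) (F' i)) (Finset.mem_univ i)).trans
          Finset.subset_union_right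
      rw [h1]
      refine cone_add (cone_mono ((Finset.subset_insert _ _).trans h2) hp)
        (cone_smul (mem_cone_self (h2 (Finset.mem_insert_self _ _))) ht)
    · push Not at hA
      have hfar : ∀ i γ, ξ x ≤ 2 * M * η i (X.act γ x) := by
        intro i γ
        obtain ⟨a, haf, t, hp⟩ := hrel' i (X.act γ x) (h.act_amp γ x hxa)
        have ht : t < 0 := by
          by_contra hcon
          push Not at hcon
          apply hA (a * γ) i t hcon
          rw [act_mul]
          exact hp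
        set p := X.act a (X.act γ x) - t • f i with hpdef
        have h1 : X.act a (X.act γ x) = p + t • f i := by rw [hpdef]; abel
        have h2 : ξ x ≤ 2 * ξ (X.act a (X.act γ x)) := by
          have := hmin (a * γ)
          rwa [act_mul] at this
        have h3 : ξ (X.act a (X.act γ x)) ≤ ξ p := by
          rw [h1, map_add, map_smul, smul_eq_mul]
          have := mul_nonpos_of_nonpos_of_nonneg ht.le (hξn (f i) (hf i).2.1)
          linarith
        have h4 : η i p = η i (X.act γ x) := by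
          rw [← hηa i a haf (X.act γ x), h1, hηf]
        have h5 := hM i p hp
        rw [h4] at h5
        calc ξ x ≤ 2 * ξ (X.act a (X.act γ x)) := h2
          _ ≤ 2 * (M * η i (X.act γ x)) := by linarith
          _ = 2 * M * η i (X.act γ x) := by ring
      have hxn : x ∈ X.nef := subset_closure hxa
      refine ⟨a₀, cone_mono Finset.subset_union_left ?_⟩
      change x ∈ cone FK
      by_cases h0 : x = 0
      · rw [h0]; exact zero_mem_cone FK
      · have hnx : 0 < ‖x‖ := norm_pos_iff.2 h0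
        have hxK : ‖x‖⁻¹ • x ∈ K := by
          refine ⟨⟨h.nef_smul (inv_nonneg.2 hnx.le) hxn, ?_⟩, ?_⟩
          · rw [mem_sphere_zero_iff_norm, norm_smul, norm_inv, norm_norm,
              inv_mul_cancel₀ hnx.ne']
          · refine ⟨fun i γ => ?_, fun γ => ?_⟩
            · rw [map_smul, map_smul, smul_eq_mul, hηs i _ (inv_nonneg.2 hnx.le)]
              calc ‖x‖⁻¹ * ξ x ≤ ‖x‖⁻¹ * (2 * M * η i (X.act γ x)) :=
                    mul_le_mul_of_nonneg_left (hfar i γ) (inv_nonneg.2 hnx.le)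
                _ = 2 * M * (‖x‖⁻¹ * η i (X.act γ x)) := by ring
            · rw [map_smul, map_smul, map_smul, smul_eq_mul, smul_eq_mul]
              calc ‖x‖⁻¹ * ξ x ≤ ‖x‖⁻¹ * (2 * ξ (X.act γ x)) :=
                    mul_le_mul_of_nonneg_left (hmin γ) (inv_nonneg.2 hnx.le)
                _ = 2 * (‖x‖⁻¹ * ξ (X.act γ x)) := by ring
        have h6 := cone_smul (hKF hxK) hnx.le
        rwa [smul_smul, mul_inv_cancel₀ hnx.ne', one_smul] at h6
  · intro x hx
    by_cases hxf : ∃ i a, ∃ t : ℝ, x = t • X.act a (f i)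
    · obtain ⟨i, a, t, rfl⟩ := hxf
      have hfa : X.act a (f i) ∈ X.nef := h.act_nef a (hf i).2.1
      rcases le_or_gt 0 t with ht | ht
      · exact ⟨{X.act a (f i)}, fun s hs => by
          rw [Finset.mem_singleton] at hs; subst hs; exact ⟨h.act_lat a _ (hf i).1, hfa⟩,
          cone_smul (mem_cone_self (Finset.mem_singleton_self _)) ht⟩
      · have h1 : -(X.act a (f i)) ∈ X.nef := by
          have h2 := h.nef_smul (show (0 : ℝ) ≤ -t⁻¹ by
            rw [neg_nonneg]; exact (inv_lt_zero.2 ht).le) hx.1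
          rwa [smul_smul, neg_mul, inv_mul_cancel₀ ht.ne, neg_smul, one_smul] at h2
        have h3 : X.act a (f i) = 0 := h.pointed _ hfa h1
        rw [h3, smul_zero]
        exact ⟨∅, fun s hs => absurd hs (Finset.notMem_empty s), zero_mem_cone ∅⟩
    · push Not at hxf
      by_cases hx0 : x = 0
      · rw [hx0]
        exact ⟨∅, fun s hs => absurd hs (Finset.notMem_empty s), zero_mem_cone ∅⟩
      rcases hloc x hx.1 hx0 hxf with ⟨U, hU, F1, hF1, h1⟩ | hC
      · exact ⟨F1, fun s hs => ⟨(hF1 s hs).1, (hF1 s hs).2.1⟩, h1 ⟨hx.1, mem_of_mem_nhds hU⟩⟩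
      · exact absurd hx.2 hC.1

/-- If the cone conjecture holds, then the extremal rays generated by nef and effective classes
form finitely many orbits. -/
theorem finite_extremal (h : X.Good) (hc : X.ConeConj) : ∃ S : Finset W, (∀ s ∈ S, s ∈ X.lat ∧
    s ∈ X.nefEff) ∧ ∀ f, f ∈ X.nefEff →
      (∀ u ∈ X.nef, ∀ v ∈ X.nef, (∃ t : ℝ, u + v = t • f) → ∃ t : ℝ, u = t • f) → f ≠ 0 →
      ∃ s ∈ S, ∃ a, ∃ t : ℝ, 0 < t ∧ X.act a s = t • f := by
  classical
  have := h.finDim
  obtain ⟨S, hS, h1, -⟩ := hc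
  have hSn : ∀ s ∈ S, s ∈ X.nefEff := fun s hs => by
    rw [h1]
    exact Set.mem_iUnion.2 ⟨1, s, mem_cone_self hs, by rw [map_one]; rfl⟩
  refine ⟨S, fun s hs => ⟨hS hs, hSn s hs⟩, fun f hf hext hf0 => ?_⟩
  have hf' := hf
  rw [h1] at hf'
  obtain ⟨a, p, ⟨c, hc0, hp⟩, hap⟩ := Set.mem_iUnion.1 hf'
  obtain ⟨s, hs, hcs⟩ : ∃ s ∈ S, 0 < c s ∧ s ≠ 0 := by
    by_contra hcon
    push Not at hcon
    apply hf0
    rw [← hap, hp]
    have : ∑ v ∈ S, c v • v = 0 := Finset.sum_eq_zero fun v hv => by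
      rcases (hc0 v).eq_or_lt with h0 | h0
      · rw [← h0, zero_smul]
      · rw [hcon v hv h0, smul_zero]
    rw [this, map_zero]
  have hn : ∀ v ∈ S, X.act a (c v • v) ∈ X.nef := fun v hv =>
    h.act_nef a (h.nef_smul (hc0 v) (hSn v hv).1)
  have h2 : X.act a (c s • s) + ∑ v ∈ S.erase s, X.act a (c v • v) = f := by
    rw [Finset.add_sum_erase S (fun v => X.act a (c v • v)) hs, ← map_sum, ← hp, hap]
  have h3 : ∑ v ∈ S.erase s, X.act a (c v • v) ∈ X.nef := by
    rcases (S.erase s).eq_empty_or_nonempty with he | he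
    · rw [he, Finset.sum_empty]
      have := h.nef_smul (le_refl (0 : ℝ)) (hn s hs)
      rwa [zero_smul] at this
    · exact Finset.sum_induction_nonempty _ (fun x => x ∈ X.nef)
        (fun x y hx hy => h.nef_add hx hy) he
        fun v hv => hn v (Finset.mem_of_mem_erase hv)
  obtain ⟨t, ht⟩ := hext _ (hn s hs) _ h3 ⟨1, by rw [h2, one_smul]⟩
  have h4 : X.act a s = ((c s)⁻¹ * t) • f := by
    rw [mul_smul, ← ht, map_smul, smul_smul, inv_mul_cancel₀ hcs.1.ne', one_smul]
  have hs0 : X.act a s ≠ 0 := fun h0 => hcs.2 (by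
    have := congrArg (X.act a).symm h0
    rwa [LinearEquiv.symm_apply_apply, map_zero] at this)
  rcases lt_trichotomy ((c s)⁻¹ * t) 0 with hlt | heq | hgt
  · exfalso
    apply hs0
    refine h.pointed _ (h.act_nef a (hSn s hs).1) ?_
    rw [h4, ← neg_smul]
    exact h.nef_smul (neg_nonneg.2 hlt.le) hf.1
  · exfalso
    apply hs0
    rw [h4, heq, zero_smul]
  · exact ⟨s, hs, a, _, hgt, h4⟩

namespace Num

/-- a translate of a cusp is a cusp, and so is an integral positive multiple -/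
theorem Cusp.of_eq (h : X.Good) {f g : W} (hf : X.Cusp f) (hg : g ∈ X.lat) {a : A} {t : ℝ}
    (ht : 0 < t) (hgf : X.act a g = t • f) : X.Cusp g := by
  have := h.finDim
  have hg' : g = t • X.act a⁻¹ f := by
    rw [← map_smul, ← hgf, act_inv_act]
  have hnef : ∀ x, x ∈ X.nef ↔ X.act a x ∈ X.nef := fun x => ⟨h.act_nef a, fun hx => by
    have := h.act_nef a⁻¹ hx
    rwa [act_inv_act] at this⟩
  have hmul : ∀ x, (∃ r : ℝ, x = r • g) ↔ ∃ r : ℝ, X.act a x = r • f := by
    intro x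
    constructor
    · rintro ⟨r, rfl⟩
      exact ⟨r * t, by rw [map_smul, hgf, smul_smul]⟩
    · rintro ⟨r, hr⟩
      refine ⟨r * t⁻¹, (X.act a).injective ?_⟩
      rw [hr, map_smul, hgf, smul_smul, mul_assoc, inv_mul_cancel₀ ht.ne', mul_one]
  have hfix : ∀ b, X.act b g = g ↔ X.act (a * b * a⁻¹) f = f := by
    intro b
    rw [act_mul, act_mul]
    constructor
    · intro hb
      have h1 : X.act a⁻¹ f = t⁻¹ • g := by
        rw [hg', smul_smul, inv_mul_cancel₀ ht.ne', one_smul]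
      rw [h1, map_smul, hb, map_smul, hgf, smul_smul, inv_mul_cancel₀ ht.ne', one_smul]
    · intro hb
      apply (X.act a).injective
      rw [hg', map_smul, map_smul, hb, map_smul, act_act_inv]
  obtain ⟨η, h1, h2, h3, h4, h5⟩ := hf.size
  obtain ⟨F, hF1, hF2⟩ := hf.rel
  classical
  refine ⟨hg, ⟨?_, ?_⟩, ?_, ⟨fun x => η (X.act a x), ?_, ?_, ?_, ?_, ?_⟩,
    ⟨F.image (X.act a⁻¹), ?_, ?_⟩⟩
  · rw [hnef, hgf]
    exact h.nef_smul ht.le hf.nefEff.1
  · rw [hg']
    exact h.eff_smul t ht _ (h.act_eff _ _ hf.nefEff.2)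
  · rintro u hu v hv ⟨r, hr⟩
    rw [hmul]
    refine hf.extremal _ ((hnef u).1 hu) _ ((hnef v).1 hv) ?_
    rw [← map_add, ← hmul]
    exact ⟨r, hr⟩
  · exact h1.comp (X.act a).toLinearMap.continuous_of_finiteDimensional
  · intro s hs x
    change η (X.act a (s • x)) = s * η (X.act a x)
    rw [map_smul, h2 s hs]
  · intro s x
    change η (X.act a (x + s • g)) = η (X.act a x)
    rw [map_add, map_smul, hgf, smul_smul, h3]
  · intro b hb x
    change η (X.act a (X.act b x)) = η (X.act a x)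
    have h6 := h4 (a * b * a⁻¹) ((hfix b).1 hb) (X.act a x)
    rwa [act_mul, act_mul, act_inv_act] at h6
  · intro x hx hxg
    refine h5 _ ⟨(hnef x).1 hx.1, h.act_eff _ _ hx.2⟩ fun r hr => ?_
    obtain ⟨s, hs⟩ := (hmul x).2 ⟨r, hr⟩
    exact hxg s hs
  · intro s hs
    obtain ⟨s', hs', rfl⟩ := Finset.mem_image.1 hs
    exact ⟨h.act_lat _ _ (hF1 s' hs').1, h.act_nef _ (hF1 s' hs').2.1,
      h.act_eff _ _ (hF1 s' hs').2.2⟩
  · intro x hx
    obtain ⟨b, hb, r, c, hc, hcr⟩ := hF2 (X.act a x) (h.act_amp a x hx)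
    refine ⟨a⁻¹ * b * a, ?_, r * t⁻¹, ?_⟩
    · rw [hfix]
      have : a * (a⁻¹ * b * a) * a⁻¹ = b := by group
      rwa [this]
    · have h6 : X.act (a⁻¹ * b * a) x - (r * t⁻¹) • g =
          X.act a⁻¹ (X.act b (X.act a x) - r • f) := by
        rw [act_mul, act_mul, map_sub, map_smul, hg', smul_smul, mul_assoc,
          inv_mul_cancel₀ ht.ne', mul_one]
      rw [h6, hcr, map_sum]
      refine cone_sum F _ fun v hv => ?_
      rw [map_smul]
      exact cone_smul (mem_cone_self (Finset.mem_image_of_mem _ hv)) (hc v)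

end Num

end Pool.Agent.Y95.KM
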