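import Pool.Agent.Y95.KM.Cusp

/-!
# The cone conjecture is equivalent to the finiteness of the cusps
-/

set_option autoImplicit false

namespace Pool.Agent.Y95.KM

open Finset Filter Topology
open Pool.Agent.Y167

variable {W A : Type*} [NormedAddCommGroup W] [NormedSpace ℝ W] [Group A] {X : Num W A}

theorem conj_iff_cusps (h : X.Good) (h00 : (0 : W) ∈ X.eff)
    (hbd : ∀ x ∈ X.nef, x ≠ 0 → X.PolyhedralAt x ∨ X.Contracted x ∨
      ∃ f, X.Cusp f ∧ ∃ t : ℝ, x = t • f) :
    X.ConeConj ↔ ∃ S : Finset W, (∀ f ∈ S, X.Cusp f) ∧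
      ∀ g, X.Cusp g → ∃ f ∈ S, ∃ a, ∃ t : ℝ, g = t • X.act a f := by
  classical
  constructor
  · intro hc
    obtain ⟨S, hS, hf⟩ := finite_extremal h hc
    refine ⟨(S.filter fun s => X.Cusp s) ∪ (if h0 : X.Cusp 0 then {0} else ∅), ?_, ?_⟩
    · intro f hf
      rcases Finset.mem_union.1 hf with hf | hf
      · exact (Finset.mem_filter.1 hf).2
      · by_cases h0 : X.Cusp (0 : W)
        · rw [dif_pos h0, Finset.mem_singleton] at hf
          rwa [hf]
        · rw [dif_neg h0] at hf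
          exact absurd hf (Finset.notMem_empty f)
    · intro g hg
      by_cases hg0 : g = 0
      · subst hg0
        exact ⟨0, Finset.mem_union_right _ (by rw [dif_pos hg]; exact Finset.mem_singleton_self _),
          1, 1, by rw [map_zero, smul_zero]⟩
      · obtain ⟨s, hs, a, t, ht, hst⟩ := hf g hg.nefEff hg.extremal hg0
        refine ⟨s, Finset.mem_union_left _ (Finset.mem_filter.2
          ⟨hs, Num.Cusp.of_eq h hg (hS s hs).1 ht hst⟩), a, t⁻¹, ?_⟩
        rw [hst, smul_smul, inv_mul_cancel₀ ht.ne', one_smul]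
  · rintro ⟨S, hS, hcov⟩
    choose η hη1 hη2 hη3 hη4 hη5 using fun i : S => (hS i.1 i.2).size
    choose F hF1 hF2 using fun i : S => (hS i.1 i.2).rel
    refine cusps h h00 (ι := S) (fun i => i.1) (fun i => ⟨(hS i.1 i.2).lat, (hS i.1 i.2).nefEff⟩)
      (fun i => (hS i.1 i.2).extremal) ?_ η hη1 hη2 hη3 hη4 hη5 F hF1 hF2
    intro x hx hx0 hxf
    rcases hbd x hx hx0 with h1 | h1 | ⟨g, hg, t, ht⟩
    · exact Or.inl h1
    · exact Or.inr h1
    · exfalso
      obtain ⟨f, hf, a, s, hs⟩ := hcov g hg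
      exact hxf ⟨f, hf⟩ a (t * s) (by rw [ht, hs, smul_smul])

end Pool.Agent.Y95.KM
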