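import Pool.Agent.Y167.ConeDef

/-!
# Numerical data of projective varieties: definitions used in the statements

`cone S` (in `Pool.Agent.Y167.ConeDef`) is the convex cone generated by a finite set `S`.
-/

set_option autoImplicit false

namespace Pool.Agent.Y95.KM

open Pool.Agent.Y167 (cone)

/-- A real vector space `W` with a group `lat` of integral classes, two sets of classes and an action
of a group `A` on `W` (for a projective variety: `N^1(X)`, the classes of line bundles, the open cone
of ample classes, the cone of effective classes, and the group of automorphisms, where `a` acts by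
the pullback along `a⁻¹`). -/
structure Num (W A : Type*) [NormedAddCommGroup W] [NormedSpace ℝ W] [Group A] where
  /-- the integral classes -/
  lat : AddSubgroup W
  /-- the ample classes -/
  amp : Set W
  /-- the effective classes -/
  eff : Set W
  /-- the action -/
  act : A →* (W ≃ₗ[ℝ] W)

namespace Num

variable {W A : Type*} [NormedAddCommGroup W] [NormedSpace ℝ W] [Group A]

/-- The nef cone: the closure of the ample cone. -/
def nef (X : Num W A) : Set W := closure X.amp

/-- The cone of nef and effective classes. -/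
def nefEff (X : Num W A) : Set W := X.nef ∩ X.eff

/-- The standard properties of the numerical data of a projective variety. -/
structure Good (X : Num W A) : Prop where
  /-- the integral classes form a lattice -/
  lattice : ∃ (n : ℕ) (b : Module.Basis (Fin n) ℝ W),
    ∀ x, x ∈ X.lat ↔ ∀ i, ∃ m : ℤ, b.repr x i = m
  isOpen : IsOpen X.amp
  add : ∀ x ∈ X.amp, ∀ y ∈ X.amp, x + y ∈ X.amp
  smul : ∀ t : ℝ, 0 < t → ∀ x ∈ X.amp, t • x ∈ X.amp
  nonempty : X.amp.Nonempty
  /-- the nef cone contains no line -/
  pointed : ∀ x, x ∈ X.nef → -x ∈ X.nef → x = 0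
  amp_eff : X.amp ⊆ X.eff
  eff_add : ∀ x ∈ X.eff, ∀ y ∈ X.eff, x + y ∈ X.eff
  eff_smul : ∀ t : ℝ, 0 < t → ∀ x ∈ X.eff, t • x ∈ X.eff
  act_lat : ∀ a, ∀ x ∈ X.lat, X.act a x ∈ X.lat
  act_amp : ∀ a, ∀ x ∈ X.amp, X.act a x ∈ X.amp
  act_eff : ∀ a, ∀ x ∈ X.eff, X.act a x ∈ X.eff

/-- The cone conjecture: there is a rational polyhedral cone, generated by a finite set `S` of
integral classes, which is a fundamental domain for the action on the cone of nef and effective
classes. -/
def ConeConj (X : Num W A) : Prop :=
  ∃ S : Finset W, ↑S ⊆ (X.lat : Set W) ∧ X.nefEff = ⋃ a : A, X.act a '' cone S ∧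
    ∀ a : A, X.act a ≠ 1 → interior (cone S) ∩ interior (X.act a '' cone S) = ∅

/-- The kernel of the action is, up to finite index, a divisible abelian group `T`, normal in `A`, with
finitely many elements of each order. (If `K_X` is numerically trivial: `T` is the group of points of
the abelian variety `Aut⁰(X)`, the identity component of the automorphism group scheme, and the
automorphisms which act trivially on `N^1(X)` form a group scheme with finitely many components.) -/
def AbelianKernel (X : Num W A) : Prop :=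
  ∃ T : Subgroup A, T.Normal ∧ T ≤ X.act.ker ∧ T.relIndex X.act.ker ≠ 0 ∧
    (∀ s ∈ T, ∀ t ∈ T, s * t = t * s) ∧ (∀ n : ℕ, 0 < n → ∀ t ∈ T, ∃ s ∈ T, s ^ n = t) ∧
    ∀ n : ℕ, 0 < n → {t | t ∈ T ∧ t ^ n = 1}.Finite

/-- The same classes with the action of the subgroup `H`. -/
def restrict (X : Num W A) (H : Subgroup A) : Num W H where
  lat := X.lat
  amp := X.amp
  eff := X.eff
  act := X.act.comp H.subtype

variable {W' B : Type*} [NormedAddCommGroup W'] [NormedSpace ℝ W'] [Group B]

/-- `Y` is the quotient of `X` by the finite group `G`, `q : N^1(Y) → N^1(X)` is the pullback, and the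
elements of `H` which commute with `G` act on `Y`. -/
structure IsQuotientRel (X : Num W A) (H G : Subgroup A) (Y : Num W' B) (q : W' →ₗ[ℝ] W) :
    Prop where
  inj : Function.Injective q
  /-- the pullbacks are the classes fixed by `G` -/
  range : ∀ x, (∃ y, q y = x) ↔ ∀ g ∈ G, X.act g x = x
  /-- pullbacks of integral classes are integral -/
  lat : ∀ y ∈ Y.lat, q y ∈ X.lat
  /-- up to a multiple, a class is integral if its pullback is -/
  lat' : ∃ k : ℕ, 0 < k ∧ ∀ y, q y ∈ X.lat → k • y ∈ Y.lat
  /-- a class is ample if and only if its pullback is -/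
  amp : ∀ y, y ∈ Y.amp ↔ q y ∈ X.amp
  /-- a class is effective if and only if its pullback is -/
  eff : ∀ y, y ∈ Y.eff ↔ q y ∈ X.eff
  /-- an element of `H` which commutes with `G` induces an automorphism of `Y` -/
  desc : ∀ a ∈ H, (∀ g ∈ G, a * g = g * a) → ∃ b : B, ∀ y, q (Y.act b y) = X.act a (q y)

/-- `Y` is the quotient of `X` by the finite group `G`, and `q : N^1(Y) → N^1(X)` is the pullback. -/
structure IsQuotient (X : Num W A) (G : Subgroup A) (Y : Num W' B) (q : W' →ₗ[ℝ] W) : Prop where
  inj : Function.Injective q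
  /-- the pullbacks are the classes fixed by `G` -/
  range : ∀ x, (∃ y, q y = x) ↔ ∀ g ∈ G, X.act g x = x
  /-- pullbacks of integral classes are integral -/
  lat : ∀ y ∈ Y.lat, q y ∈ X.lat
  /-- up to a multiple, a class is integral if its pullback is -/
  lat' : ∃ k : ℕ, 0 < k ∧ ∀ y, q y ∈ X.lat → k • y ∈ Y.lat
  /-- a class is ample if and only if its pullback is -/
  amp : ∀ y, y ∈ Y.amp ↔ q y ∈ X.amp
  /-- a class is effective if and only if its pullback is -/
  eff : ∀ y, y ∈ Y.eff ↔ q y ∈ X.eff
  /-- an automorphism of `X` which commutes with `G` induces an automorphism of `Y` -/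
  desc : ∀ a : A, (∀ g ∈ G, a * g = g * a) → ∃ b : B, ∀ y, q (Y.act b y) = X.act a (q y)

/-- `Z → Y` is a contraction with `K_Z` relatively numerically trivial, and `q : N^1(Y) → N^1(Z)` is
the pullback. -/
structure IsContraction (Z : Num W A) (Y : Num W' B) (q : W' →ₗ[ℝ] W) : Prop where
  inj : Function.Injective q
  /-- pullbacks of integral classes are integral -/
  lat : ∀ y ∈ Y.lat, q y ∈ Z.lat
  /-- up to a multiple, a class is integral if its pullback is -/
  lat' : ∃ k : ℕ, 0 < k ∧ ∀ y, q y ∈ Z.lat → k • y ∈ Y.lat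
  /-- a class is nef if and only if its pullback is -/
  nef : ∀ y, y ∈ Y.nef ↔ q y ∈ Z.nef
  /-- a class is effective if and only if its pullback is -/
  eff : ∀ y, y ∈ Y.eff ↔ q y ∈ Z.eff
  /-- the nef classes pulled back from `Y` form a face of the nef cone of `Z` -/
  face : ∀ u ∈ Z.nef, ∀ v ∈ Z.nef, (∃ y, q y = u + v) → ∃ y, q y = u
  /-- an automorphism of `Z` which preserves the classes pulled back from `Y` acts on `Y` -/
  desc : ∀ a : A, (∀ x, (∃ y, q y = x) ↔ ∃ y, q y = Z.act a x) →
    ∃ b : B, ∀ y, q (Y.act b y) = Z.act a (q y)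

/-- `P` is the product of the `X i`; the group of `P` contains the products of elements of the
groups of the `X i`. (At most one `X i` may have nonzero first Betti number.) -/
structure IsProduct {ι : Type*} [Fintype ι] {W A : ι → Type*} [∀ i, NormedAddCommGroup (W i)]
    [∀ i, NormedSpace ℝ (W i)] [∀ i, Group (A i)] (X : ∀ i, Num (W i) (A i))
    (P : Num (∀ i, W i) B) : Prop where
  lat : ∀ x, x ∈ P.lat ↔ ∀ i, x i ∈ (X i).lat
  amp : ∀ x, x ∈ P.amp ↔ ∀ i, x i ∈ (X i).amp
  eff : ∀ x, x ∈ P.eff ↔ ∀ i, x i ∈ (X i).eff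
  prod : ∀ a : ∀ i, A i, ∃ b : B, ∀ x i, P.act b x i = (X i).act (a i) (x i)

end Num

end Pool.Agent.Y95.KM
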