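import Pool.Agent.Y95.KM.CD
import Pool.Agent.Y95.KM.Grp

/-!
# The cone conjecture for quotients by finite groups
-/

set_option autoImplicit false

namespace Pool.Agent.Y95.KM

open Finset Filter Topology
open Pool.Agent.Y167

variable {W A : Type*} [NormedAddCommGroup W] [NormedSpace ℝ W] [Group A] {X : Num W A}

theorem act_inv_act (X : Num W A) (a : A) (x : W) : X.act a⁻¹ (X.act a x) = x := by
  have : X.act a⁻¹ (X.act a x) = (X.act a⁻¹ * X.act a) x := rfl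
  rw [this, ← map_mul, inv_mul_cancel, map_one]
  rfl

theorem act_act_inv (X : Num W A) (a : A) (x : W) : X.act a (X.act a⁻¹ x) = x := by
  have : X.act a (X.act a⁻¹ x) = (X.act a * X.act a⁻¹) x := rfl
  rw [this, ← map_mul, mul_inv_cancel, map_one]
  rfl

theorem act_mul (X : Num W A) (a b : A) (x : W) : X.act (a * b) x = X.act a (X.act b x) := by
  rw [map_mul]; rfl

namespace Num.Good

theorem finDim (h : X.Good) : FiniteDimensional ℝ W := by
  obtain ⟨n, b, -⟩ := h.lattice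
  exact Module.Finite.of_basis b

theorem amp_of_sub (h : X.Good) {x y₀ : W} (hy : y₀ ∈ X.amp)
    (hx : ∃ t : ℝ, 0 < t ∧ x - t • y₀ ∈ X.nef) : x ∈ X.amp := by
  obtain ⟨t, ht, h1⟩ := hx
  have := h.add_closure (h.smul t ht _ hy) h1
  rwa [add_sub_cancel] at this

theorem nefEff_add (h : X.Good) {x y : W} (hx : x ∈ X.nefEff) (hy : y ∈ X.nefEff) :
    x + y ∈ X.nefEff := ⟨h.nef_add hx.1 hy.1, h.eff_add _ hx.2 _ hy.2⟩

/-- The cone conjecture from a covering of the ample cone. -/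
theorem conj_of_cover (h : X.Good) (F : Finset W) (hF : ∀ a ∈ F, a ∈ X.lat ∧ a ∈ X.nef)
    (hcov : ∀ x ∈ X.amp, ∃ a, X.act a x ∈ cone F) (hCp : X.nefEff = Cp X.lat X.nef) :
    X.ConeConj := by
  have := h.finDim
  obtain ⟨ξ₀, y₀, Y, D, hy₀⟩ := h.exists_cdata
  obtain ⟨S, hS, hcS, hsep⟩ := D.domain X.act.range
    (by rintro _ ⟨a, rfl⟩ x hx; exact h.act_lat a x hx)
    (by rintro _ ⟨a, rfl⟩ x hx; exact h.act_nef a hx) F hF (by
      intro x hx
      obtain ⟨a, ha⟩ := hcov x (h.amp_of_sub hy₀ hx)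
      exact ⟨X.act a, ⟨a, rfl⟩, ha⟩)
  refine ⟨S, fun a ha => (hS a ha).1, ?_, ?_⟩
  · rw [hCp]
    ext x
    rw [hcS]
    simp only [Set.mem_iUnion]
    constructor
    · rintro ⟨_, ⟨a, rfl⟩, hx⟩
      exact ⟨a⁻¹, X.act a x, hx, act_inv_act X a x⟩
    · rintro ⟨a, y, hy, rfl⟩
      exact ⟨X.act a⁻¹, ⟨a⁻¹, rfl⟩, by rwa [act_inv_act]⟩
  · intro a ha
    obtain ⟨φ, hφ0, hφ1, hφ2⟩ := hsep (X.act a) ⟨a, rfl⟩ ha
    rw [Set.eq_empty_iff_forall_notMem]
    rintro z ⟨hz1, hz2⟩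
    apply hφ0
    refine LinearMap.ext fun w => ?_
    have hc : Continuous fun t : ℝ => z + t • w := by fun_prop
    have hc' : Continuous fun t : ℝ => z - t • w := by fun_prop
    have e1 : ∀ᶠ t : ℝ in 𝓝 0, z + t • w ∈ interior (cone S) :=
      (hc.tendsto 0).eventually (isOpen_interior.mem_nhds (by simpa using hz1))
    have e2 : ∀ᶠ t : ℝ in 𝓝 0, z + t • w ∈ interior (X.act a '' cone S) :=
      (hc.tendsto 0).eventually (isOpen_interior.mem_nhds (by simpa using hz2))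
    have e3 : ∀ᶠ t : ℝ in 𝓝 0, z - t • w ∈ interior (cone S) :=
      (hc'.tendsto 0).eventually (isOpen_interior.mem_nhds (by simpa using hz1))
    have e4 : ∀ᶠ t : ℝ in 𝓝 0, z - t • w ∈ interior (X.act a '' cone S) :=
      (hc'.tendsto 0).eventually (isOpen_interior.mem_nhds (by simpa using hz2))
    have e5 : ∃ᶠ t : ℝ in 𝓝 0, 0 < t := by
      have : ∀ᶠ t : ℝ in 𝓝[>] 0, 0 < t := eventually_mem_nhdsWithin
      exact (this.frequently).filter_mono nhdsWithin_le_nhds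
    obtain ⟨t, ht0, h1, h2, h3, h4⟩ := (e5.and_eventually (e1.and (e2.and (e3.and e4)))).exists
    have f1 : ∀ v, v ∈ interior (cone S) → v ∈ interior (X.act a '' cone S) → φ v = 0 := by
      intro v hv1 hv2
      obtain ⟨u, hu, rfl⟩ := interior_subset hv2
      exact le_antisymm (hφ2 u hu) (hφ1 _ (interior_subset hv1))
    have g1 := f1 _ h1 h2
    have g2 := f1 _ h3 h4
    rw [map_add, map_smul, smul_eq_mul] at g1
    rw [map_sub, map_smul, smul_eq_mul] at g2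
    have g3 : t * φ w = 0 := by linarith
    rcases mul_eq_zero.1 g3 with g | g
    · exact absurd g ht0.ne'
    · simpa using g

/-- The cone conjecture from a covering by nef and effective classes. -/
theorem conj_of_cover2 (h : X.Good) (F : Finset W) (hF : ∀ a ∈ F, a ∈ X.lat ∧ a ∈ X.nefEff)
    (h00 : (0 : W) ∈ X.eff) (hcov : ∀ x ∈ X.amp, ∃ a, X.act a x ∈ cone F)
    (hsub : X.nefEff ⊆ Cp X.lat X.nef) : X.ConeConj := by
  classical
  have := h.finDim
  obtain ⟨ξ₀, y₀, Y, D, hy₀⟩ := h.exists_cdata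
  have h0 : (0 : W) ∈ X.nefEff := by
    refine ⟨?_, h00⟩
    have := h.nef_smul (le_refl (0 : ℝ)) (subset_closure hy₀ : y₀ ∈ X.nef)
    rwa [zero_smul] at this
  have hcone : ∀ S : Finset W, (∀ a ∈ S, a ∈ X.nefEff) → ∀ x ∈ cone S, x ∈ X.nefEff := by
    intro S hS x hx
    refine cone_ind (p := fun x => x ∈ X.nefEff) h0 (fun x y hx hy => h.nefEff_add hx hy) ?_ hS hx
    intro t x ht hx
    rcases ht.eq_or_lt with rfl | ht
    · rwa [zero_smul]
    · exact ⟨h.nef_smul ht.le hx.1, h.eff_smul t ht _ hx.2⟩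
  have hact : ∀ a, ∀ x ∈ X.nefEff, X.act a x ∈ X.nefEff := fun a x hx =>
    ⟨h.act_nef a hx.1, h.act_eff a _ hx.2⟩
  refine h.conj_of_cover F (fun a ha => ⟨(hF a ha).1, (hF a ha).2.1⟩) hcov
    (Set.Subset.antisymm hsub ?_)
  obtain ⟨ξ, S, -, hS, hcS, -, hgen, -⟩ := dirichlet D X.act.range
    (by rintro _ ⟨a, rfl⟩ x hx; exact h.act_lat a x hx)
    (by rintro _ ⟨a, rfl⟩ x hx; exact h.act_nef a hx) F
    (fun a ha => ⟨(hF a ha).1, (hF a ha).2.1⟩) (by
      intro x hx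
      obtain ⟨a, ha⟩ := hcov x (h.amp_of_sub hy₀ hx)
      exact ⟨X.act a, ⟨a, rfl⟩, ha⟩)
  have hSe : ∀ a ∈ S, a ∈ X.nefEff := by
    intro a ha
    obtain ⟨_, ⟨c, rfl⟩, b, hb, rfl⟩ := hgen a ha
    exact hact c _ (hcone F (fun a ha => (hF a ha).2) b hb)
  intro x hx
  obtain ⟨_, ⟨a, rfl⟩, hgx⟩ := (hcS x).1 hx
  have h1 := hact a⁻¹ _ (hcone S hSe _ hgx)
  rwa [act_inv_act] at h1

theorem restrict (h : X.Good) (H : Subgroup A) : (X.restrict H).Good where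
  lattice := h.lattice
  isOpen := h.isOpen
  add := h.add
  smul := h.smul
  nonempty := h.nonempty
  pointed := h.pointed
  amp_eff := h.amp_eff
  eff_add := h.eff_add
  eff_smul := h.eff_smul
  act_lat := fun a => h.act_lat a
  act_amp := fun a => h.act_amp a
  act_eff := fun a => h.act_eff a

/-- Consequences of the cone conjecture. -/
theorem of_conj (h : X.Good) (hc : X.ConeConj) {ξ₀ : W →ₗ[ℝ] ℝ} {y₀ : W} {Y : Finset W}
    (D : CData X.lat X.nef ξ₀ y₀ Y) (hy₀ : y₀ ∈ X.amp) :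
    ∃ (ξ : W →ₗ[ℝ] ℝ) (S : Finset W), (∃ c : ℝ, 0 < c ∧ ∀ x ∈ X.nef, c * ξ₀ x ≤ ξ x) ∧
      (∀ a ∈ S, a ∈ X.lat ∧ a ∈ X.nef) ∧
      (∀ x, x ∈ Cp X.lat X.nef ↔ ∃ g ∈ X.act.range, g x ∈ cone S) ∧
      (∀ x ∈ cone S, ∀ g ∈ X.act.range, ξ x ≤ ξ (g x)) ∧ X.nefEff = Cp X.lat X.nef := by
  classical
  have := h.finDim
  obtain ⟨S0, hS0, hcov, -⟩ := hc
  have hsub : ∀ x ∈ cone S0, x ∈ X.nefEff := fun x hx => by
    rw [hcov]
    exact Set.mem_iUnion.2 ⟨1, x, hx, by rw [map_one]; rfl⟩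
  have hact : ∀ a, ∀ x ∈ X.nefEff, X.act a x ∈ X.nefEff := fun a x hx =>
    ⟨h.act_nef a hx.1, h.act_eff a _ hx.2⟩
  obtain ⟨ξ, S, hξ, hS, hcS, hdir, hgen, -⟩ := dirichlet D X.act.range
    (by rintro _ ⟨a, rfl⟩ x hx; exact h.act_lat a x hx)
    (by rintro _ ⟨a, rfl⟩ x hx; exact h.act_nef a hx) S0
    (fun a ha => ⟨hS0 ha, (hsub a (mem_cone_self ha)).1⟩) (by
      intro x hx
      have h1 : x ∈ X.nefEff := by
        have := h.amp_of_sub hy₀ hx
        exact ⟨subset_closure this, h.amp_eff this⟩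
      rw [hcov] at h1
      obtain ⟨a, y, hy, rfl⟩ := Set.mem_iUnion.1 h1
      exact ⟨X.act a⁻¹, ⟨a⁻¹, rfl⟩, by rwa [act_inv_act]⟩)
  refine ⟨ξ, S, hξ, hS, hcS, hdir, ?_⟩
  have h0 : (0 : W) ∈ X.nefEff := hsub 0 (zero_mem_cone S0)
  have hSe : ∀ x ∈ cone S, x ∈ X.nefEff := by
    intro x hx
    refine cone_ind (p := fun x => x ∈ X.nefEff) h0 (fun x y hx hy => h.nefEff_add hx hy) ?_ ?_ hx
    · intro t x ht hx
      rcases ht.eq_or_lt with rfl | ht
      · rwa [zero_smul]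
      · exact ⟨h.nef_smul ht.le hx.1, h.eff_smul t ht _ hx.2⟩
    · intro a ha
      obtain ⟨_, ⟨c, rfl⟩, b, hb, rfl⟩ := hgen a ha
      exact hact c _ (hsub b hb)
  apply Set.Subset.antisymm
  · intro x hx
    rw [hcov] at hx
    obtain ⟨a, y, hy, rfl⟩ := Set.mem_iUnion.1 hx
    refine ⟨S0.image (X.act a), fun s hs => ?_, ?_⟩
    · obtain ⟨b, hb, rfl⟩ := Finset.mem_image.1 hs
      exact ⟨h.act_lat a _ (hS0 hb), h.act_nef a (hsub b (mem_cone_self hb)).1⟩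
    · exact cone_image (X.act a : W →ₗ[ℝ] W) hy
  · intro x hx
    obtain ⟨_, ⟨a, rfl⟩, hgx⟩ := (hcS x).1 hx
    have h1 := hact a⁻¹ _ (hSe _ hgx)
    rwa [act_inv_act] at h1

theorem nefEff_eq (h : X.Good) (hc : X.ConeConj) : X.nefEff = Cp X.lat X.nef := by
  obtain ⟨ξ₀, y₀, Y0, D, hy₀⟩ := h.exists_cdata
  obtain ⟨-, -, -, -, -, -, h1⟩ := h.of_conj hc D hy₀
  exact h1

/-- The cone conjecture for a subgroup implies the cone conjecture. -/
theorem of_restrict (h : X.Good) (H : Subgroup A) (hc : (X.restrict H).ConeConj) :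
    X.ConeConj := by
  have h1 := (h.restrict H).nefEff_eq hc
  obtain ⟨S, hS, hcov, -⟩ := hc
  have hsub : ∀ x ∈ cone S, x ∈ X.nefEff := fun x hx => by
    have : x ∈ (X.restrict H).nefEff := by
      rw [hcov]
      exact Set.mem_iUnion.2 ⟨1, x, hx, by rw [map_one]; rfl⟩
    exact this
  refine h.conj_of_cover S (fun a ha => ⟨hS ha, (hsub a (mem_cone_self ha)).1⟩) ?_ h1
  intro x hx
  have h2 : x ∈ (X.restrict H).nefEff := ⟨subset_closure hx, h.amp_eff hx⟩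
  rw [hcov] at h2
  obtain ⟨a, y, hy, rfl⟩ := Set.mem_iUnion.1 h2
  refine ⟨(a : A)⁻¹, ?_⟩
  have h3 : X.act (a : A)⁻¹ (X.act (a : A) y) = y := act_inv_act X a y
  have h4 : (X.restrict H).act a y = X.act (a : A) y := rfl
  rw [h4, h3]
  exact hy

end Num.Good

variable {W' B : Type*} [NormedAddCommGroup W'] [NormedSpace ℝ W'] [Group B] {Y : Num W' B}
  {G H : Subgroup A} {q : W' →ₗ[ℝ] W}

theorem quot_nef (h : X.Good) (h' : Y.Good) (hq : X.IsQuotientRel H G Y q) (y : W') :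
    y ∈ Y.nef ↔ q y ∈ X.nef := by
  have := h'.finDim
  have hqc : Continuous q := q.continuous_of_finiteDimensional
  constructor
  · intro hy
    exact map_mem_closure hqc hy fun z hz => (hq.amp z).1 hz
  · intro hy
    obtain ⟨y₀, hy₀⟩ := h'.nonempty
    have h1 : Tendsto (fun n : ℕ => y + (1 / ((n : ℝ) + 1)) • y₀) atTop (𝓝 (y + (0 : ℝ) • y₀)) :=
      (tendsto_one_div_add_atTop_nhds_zero_nat.smul_const y₀).const_add y
    rw [zero_smul, add_zero] at h1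
    refine mem_closure_of_tendsto h1 (Eventually.of_forall fun n => ?_)
    rw [hq.amp, map_add, map_smul, add_comm]
    exact h.add_closure (h.smul _ (by positivity) _ ((hq.amp _).1 hy₀)) hy

/-- The average over `G` of a nef integral class. -/
theorem quot_average (h : X.Good) (h' : Y.Good) (hq : X.IsQuotientRel H G Y q) [Finite G] {k : ℕ}
    (hkl : ∀ y, q y ∈ X.lat → k • y ∈ Y.lat) (s : W) (hs : s ∈ X.lat ∧ s ∈ X.nef) :
    ∃ y : W', (y ∈ Y.lat ∧ y ∈ Y.nef) ∧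
      q y = (k : ℝ) • ∑ᶠ g : G, X.act (g : A) s := by
  classical
  have := h.finDim
  have : Fintype G := Fintype.ofFinite G
  rw [finsum_eq_sum_of_fintype]
  set z := ∑ g : G, X.act (g : A) s with hz
  have hzL : z ∈ X.lat := X.lat.sum_mem fun g _ => h.act_lat _ _ hs.1
  have hzN : z ∈ X.nef := by
    rw [hz]
    refine Finset.sum_induction _ (fun x => x ∈ X.nef) (fun x y hx hy => h.nef_add hx hy) ?_
      fun g _ => h.act_nef _ hs.2
    have := h.nef_smul (le_refl (0 : ℝ)) hs.2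
    rwa [zero_smul] at this
  obtain ⟨y, hy⟩ := (hq.range z).2 fun g hg => by
    rw [hz, map_sum]
    refine Fintype.sum_equiv (Equiv.mulLeft (⟨g, hg⟩ : G)) _ _ fun g' => ?_
    rw [← act_mul]
    rfl
  refine ⟨k • y, ⟨hkl y (hy ▸ hzL), ?_⟩, ?_⟩
  · rw [quot_nef h h' hq, map_nsmul, hy, ← Nat.cast_smul_eq_nsmul ℝ]
    exact h.nef_smul (Nat.cast_nonneg k) hzN
  · rw [map_nsmul, hy, ← Nat.cast_smul_eq_nsmul ℝ]

theorem quot_cone (h : X.Good) (h' : Y.Good) (hq : X.IsQuotientRel H G Y q) [Finite G] (S : Finset W)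
    (hS : ∀ s ∈ S, s ∈ X.lat ∧ s ∈ X.nef) :
    ∃ F : Finset W', (∀ s ∈ F, s ∈ Y.lat ∧ s ∈ Y.nef) ∧ ∀ y, q y ∈ cone S → y ∈ cone F := by
  classical
  have : Fintype G := Fintype.ofFinite G
  obtain ⟨k, hk, hkl⟩ := hq.lat'
  have h1 : ∀ s : W, ∃ y : W', s ∈ S → (y ∈ Y.lat ∧ y ∈ Y.nef) ∧
      q y = (k : ℝ) • ∑ g : G, X.act (g : A) s := by
    intro s
    by_cases hs : s ∈ S
    · obtain ⟨y, h2, h3⟩ := quot_average h h' hq hkl s (hS s hs)
      rw [finsum_eq_sum_of_fintype] at h3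
      exact ⟨y, fun _ => ⟨h2, h3⟩⟩
    · exact ⟨0, fun h => absurd h hs⟩
  choose av hav using h1
  refine ⟨S.image av, fun z hz => ?_, ?_⟩
  · obtain ⟨s, hs, rfl⟩ := Finset.mem_image.1 hz
    exact (hav s hs).1
  rintro y ⟨c, hc, hy⟩
  have hkr : (0 : ℝ) < k := by exact_mod_cast hk
  have hnr : (0 : ℝ) < Fintype.card G := by exact_mod_cast Fintype.card_pos
  have h2 : (Fintype.card G : ℝ) • q y = ∑ s ∈ S, c s • ∑ g : G, X.act (g : A) s := by
    have h3 : ∀ g : G, X.act (g : A) (q y) = q y := fun g => (hq.range (q y)).1 ⟨y, rfl⟩ g g.2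
    have h4 : ∑ g : G, X.act (g : A) (q y) = (Fintype.card G : ℝ) • q y := by
      rw [Finset.sum_congr rfl fun g _ => h3 g, Finset.sum_const, Finset.card_univ,
        ← Nat.cast_smul_eq_nsmul ℝ]
    rw [← h4, hy]
    simp only [map_sum, map_smul, Finset.smul_sum]
    rw [Finset.sum_comm]
  have h5 : y = ∑ s ∈ S, (c s / (k * Fintype.card G)) • av s := by
    apply hq.inj
    rw [map_sum]
    have h6 : ∀ s ∈ S, q ((c s / (k * Fintype.card G)) • av s) =
        (Fintype.card G : ℝ)⁻¹ • (c s • ∑ g : G, X.act (g : A) s) := by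
      intro s hs
      rw [map_smul, (hav s hs).2, smul_smul, smul_smul]
      congr 1
      field_simp
    rw [Finset.sum_congr rfl h6, ← Finset.smul_sum, ← h2, smul_smul, inv_mul_cancel₀ hnr.ne',
      one_smul]
  rw [h5]
  exact mem_cone_of_sum S av _ (fun s hs => Finset.mem_image_of_mem _ hs)
    fun s _ => div_nonneg (hc s) (by positivity)

theorem quot_Cp (h : X.Good) (h' : Y.Good) (hq : X.IsQuotientRel H G Y q) [Finite G] (y : W') :
    y ∈ Cp Y.lat Y.nef ↔ q y ∈ Cp X.lat X.nef := by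
  classical
  constructor
  · rintro ⟨S, hS, hy⟩
    refine ⟨S.image q, fun s hs => ?_, cone_image q hy⟩
    obtain ⟨b, hb, rfl⟩ := Finset.mem_image.1 hs
    exact ⟨hq.lat b (hS b hb).1, (quot_nef h h' hq b).1 (hS b hb).2⟩
  · rintro ⟨S, hS, hy⟩
    obtain ⟨F, hF, hF2⟩ := quot_cone h h' hq S hS
    exact ⟨F, hF, hF2 y hy⟩

end Pool.Agent.Y95.KM
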