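import Pool.Agent.Y95.KM.CuspDefs

/-!
# Fibration faces of the nef cone: definitions used in the statements
-/

set_option autoImplicit false

namespace Pool.Agent.Y95.KM

open Topology
open Pool.Agent.Y167 (cone)

namespace Num

variable {W A : Type*} [NormedAddCommGroup W] [NormedSpace ℝ W] [Group A]

/-- The standard properties of a fibration `X → B` over the base, where `Φ` is a finite set which
generates the pullback `cone Φ` of the nef cone of `B` (assumed rational polyhedral), together with
the covering part of the cone conjecture for `X → B`, for the classes modulo the pullbacks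
from `B`. -/
structure FibrationFace (X : Num W A) (Φ : Finset W) : Prop where
  gens : ∀ s ∈ Φ, s ∈ X.lat ∧ s ∈ X.nefEff
  /-- the pullback of the nef cone of `B` is an exposed face of the nef cone: it consists of the nef
  classes which have degree zero on a suitable class `ℓ` of contracted curves -/
  exposed : ∃ ℓ : W →ₗ[ℝ] ℝ, (∀ x ∈ X.nef, 0 ≤ ℓ x) ∧ ∀ x ∈ X.nef, ℓ x = 0 ↔ x ∈ cone Φ
  /-- there is a function such as: `η x` is the `d`-th root of the volume of the restriction of `x` to
  the general fibre of `X → B`, where `d` is the dimension of the fibre -/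
  size : ∃ η : W → ℝ, Continuous η ∧ (∀ t : ℝ, 0 ≤ t → ∀ x, η (t • x) = t * η x) ∧
    (∀ v ∈ Submodule.span ℝ (Φ : Set W), ∀ x, η (x + v) = η x) ∧
    (∀ a, (∀ s ∈ Φ, X.act a s = s) → ∀ x, η (X.act a x) = η x) ∧
    ∀ x ∈ X.nefEff, x ∉ cone Φ → 0 < η x
  /-- modulo the pullbacks from `B`, the ample cone is covered by the translates of a cone, generated
  by finitely many integral classes which are nef and effective, under automorphisms which fix
  the pullbacks from `B` -/
  rel : ∃ F : Finset W, (∀ s ∈ F, s ∈ X.lat ∧ s ∈ X.nefEff) ∧ ∀ x ∈ X.amp, ∃ a,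
    (∀ s ∈ Φ, X.act a s = s) ∧ ∃ v ∈ Submodule.span ℝ (Φ : Set W), X.act a x - v ∈ cone F

/-- The set `𝓕` of faces is closed under passing to smaller faces: every nonzero class of `cone Φ`
lies in the relative interior of `cone Φ` or in a smaller face in `𝓕`. -/
def ClosedUnderFaces (𝓕 : Set (Finset W)) : Prop :=
  ∀ Φ ∈ 𝓕, ∀ u ∈ cone Φ, u ≠ 0 → (∃ δ : ℝ, 0 < δ ∧ u - δ • ∑ s ∈ Φ, s ∈ cone Φ) ∨
    ∃ Φ' ∈ 𝓕, u ∈ cone Φ' ∧ cone Φ' ⊆ cone Φ ∧ ∑ s ∈ Φ, s ∉ cone Φ'

end Num

end Pool.Agent.Y95.KM
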