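import Pool.Agent.Y95.KM.Geo

/-!
# The cone conjecture implies that non-effective nef classes are reducible
-/

set_option autoImplicit false

namespace Pool.Agent.Y95.KM

open Finset Filter Topology
open Pool.Agent.Y167

variable {W A : Type*} [NormedAddCommGroup W] [NormedSpace ℝ W] [Group A] {X : Num W A}

theorem exists_freq {β : Type*} {s : Set β} (hs : s.Finite) (f : ℕ → β)
    (hf : ∀ᶠ n in atTop, f n ∈ s) : ∃ b, ∃ᶠ n in atTop, f n = b := by
  by_contra hcon
  have h1 : ∀ b ∈ s, ∀ᶠ n in atTop, f n ≠ b := fun b _ => by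
    by_contra h2
    exact hcon ⟨b, fun h3 => h2 h3⟩
  have h2 := (Filter.eventually_all_finite hs).2 h1
  obtain ⟨n, h3, h4⟩ := (hf.and h2).exists
  exact h4 _ h3 rfl

theorem finite_lat (h : X.Good) (ξ : W →ₗ[ℝ] ℝ) {m : ℝ} (hm : 0 < m)
    (hξ : ∀ x ∈ X.nef, m * ‖x‖ ≤ ξ x) (C : ℝ) : {x | x ∈ X.lat ∧ x ∈ X.nef ∧ ξ x ≤ C}.Finite := by
  have := h.finDim
  obtain ⟨ξ₀, y₀, Y0, D, hy₀⟩ := h.exists_cdata
  set L : ℝ := ‖LinearMap.toContinuousLinearMap ξ₀‖ with hL
  have hL0 : 0 ≤ L := norm_nonneg _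
  refine (D.fin (L * (C / m))).subset ?_
  rintro x ⟨h1, h2, h3⟩
  refine ⟨h1, h2, ?_⟩
  have h4 : ξ₀ x ≤ L * ‖x‖ :=
    (le_abs_self _).trans ((LinearMap.toContinuousLinearMap ξ₀).le_opNorm x)
  have h5 : ‖x‖ ≤ C / m := by
    rw [le_div_iff₀ hm, mul_comm]
    exact (hξ x h2).trans h3
  exact h4.trans (mul_le_mul_of_nonneg_left h5 hL0)

/-- minimal translates of ample classes in a finite union of cones -/
theorem exists_min_cone (h : X.Good) {S : Finset W} (hSL : ↑S ⊆ (X.lat : Set W))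
    (hcov : X.nefEff = ⋃ a : A, X.act a '' cone S) (ξ : W →ₗ[ℝ] ℝ)
    (hξL : ∀ x ∈ X.lat, ∃ k : ℤ, ξ x = k) (hξn : ∀ x ∈ X.nef, 0 ≤ ξ x) :
    ∃ T : Set A, T.Finite ∧ ∀ x ∈ X.amp, ∃ b : A, ∃ t ∈ T, ∃ c : W → ℝ, (∀ s, 0 ≤ c s) ∧ c 0 = 0 ∧
      X.act b x = ∑ s ∈ S, c s • X.act t s ∧ ∀ γ, ξ (X.act b x) ≤ ξ (X.act γ x) := by
  classical
  have := h.finDim
  have hSn : ∀ s ∈ S, s ∈ X.nefEff := fun s hs => by
    rw [hcov]
    refine Set.mem_iUnion.2 ⟨1, s, mem_cone_self hs, ?_⟩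
    rw [map_one]; rfl
  have hv : ∀ (a : A) (s : S), ∃ k : ℕ, ξ (X.act a s) = k := by
    intro a s
    obtain ⟨k, hk⟩ := hξL _ (h.act_lat a _ (hSL s.2))
    have h1 := hξn _ (h.act_nef a (hSn s s.2).1)
    rw [hk] at h1
    have h2 : 0 ≤ k := by exact_mod_cast h1
    refine ⟨k.toNat, ?_⟩
    rw [hk]
    have h3 := Int.toNat_of_nonneg h2
    exact_mod_cast h3.symm
  choose v hv using hv
  obtain ⟨T, hT, hTv⟩ := dickson (fun (a : A) (i : Fin S.card) => v a (S.equivFin.symm i))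
  refine ⟨T, hT, fun x hx => ?_⟩
  have hxe : x ∈ X.nefEff := ⟨subset_closure hx, h.amp_eff hx⟩
  rw [hcov] at hxe
  obtain ⟨a, w, ⟨c, hc, hw⟩, rfl⟩ := Set.mem_iUnion.1 hxe
  have hsum : ∀ g : A, ξ (X.act g w) = ∑ s : S, c s * v g s := by
    intro g
    rw [hw, map_sum, map_sum, ← Finset.sum_coe_sort S]
    refine Finset.sum_congr rfl fun s _ => ?_
    rw [map_smul, map_smul, smul_eq_mul, hv]
  have hTne : T.Nonempty := by
    obtain ⟨t, ht, -⟩ := hTv 1
    exact ⟨t, ht⟩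
  obtain ⟨t, ht, hmin⟩ := Set.exists_min_image T (fun g => ξ (X.act g w)) hT hTne
  have hmin' : ∀ g, ξ (X.act t w) ≤ ξ (X.act g w) := by
    intro g
    obtain ⟨t', ht', hle⟩ := hTv g
    refine (hmin t' ht').trans ?_
    change ξ (X.act t' w) ≤ ξ (X.act g w)
    rw [hsum, hsum]
    refine Finset.sum_le_sum fun s _ => mul_le_mul_of_nonneg_left ?_ (hc s)
    have h1 := hle (S.equivFin s)
    simp only [Equiv.symm_apply_apply] at h1
    exact_mod_cast h1
  refine ⟨t * a⁻¹, t, ht, fun s => if s = 0 then 0 else c s, fun s => ?_, if_pos rfl, ?_, fun γ => ?_⟩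
  · dsimp only
    split_ifs
    · exact le_rfl
    · exact hc s
  · rw [← act_mul, inv_mul_cancel_right, hw, map_sum]
    refine Finset.sum_congr rfl fun s _ => ?_
    rw [map_smul]
    by_cases hs : s = 0
    · rw [hs, map_zero, smul_zero, smul_zero]
    · dsimp only
      rw [if_neg hs]
  · rw [← act_mul, inv_mul_cancel_right, ← act_mul]
    exact hmin' _

/-- **The cone conjecture implies that nef classes which are not effective are reducible.** -/
theorem reducible_of_conj (h : X.Good) (hc : X.ConeConj) {x : W} (hx : x ∈ X.nef)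
    (hxe : x ∉ X.eff) : X.Reducible x := by
  classical
  have := h.finDim
  refine ⟨hxe, ?_⟩
  obtain ⟨S, hSL, hcov, -⟩ := hc
  obtain ⟨ξ, m, hm, hξL, hξ⟩ := h.exists_form
  have hξn : ∀ x ∈ X.nef, 0 ≤ ξ x := fun x hx =>
    le_trans (mul_nonneg hm.le (norm_nonneg x)) (hξ x hx)
  have hξc : Continuous ξ := ξ.continuous_of_finiteDimensional
  have hSn : ∀ s ∈ S, s ∈ X.nefEff := fun s hs => by
    rw [hcov]
    refine Set.mem_iUnion.2 ⟨1, s, mem_cone_self hs, ?_⟩
    rw [map_one]; rfl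
  obtain ⟨T, hT, hmin⟩ := exists_min_cone h hSL hcov ξ hξL hξn
  obtain ⟨y₀, hy₀⟩ := h.nonempty
  have hy₀n : y₀ ∈ X.nef := subset_closure hy₀
  -- the ample classes `x_n`
  set r : ℕ → ℝ := fun n => 1 / ((n : ℝ) + 1) with hr
  have hr0 : ∀ n, 0 < r n := fun n => by positivity
  have hr1 : ∀ n, r n ≤ 1 := fun n => by
    rw [hr]; dsimp only
    rw [div_le_one (by positivity)]
    have : (0 : ℝ) ≤ n := Nat.cast_nonneg n
    linarith
  have hrt : Tendsto r atTop (𝓝 0) := tendsto_one_div_add_atTop_nhds_zero_nat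
  have hxn : ∀ n, x + r n • y₀ ∈ X.amp := fun n => by
    have := h.add_closure (h.smul _ (hr0 n) _ hy₀) hx
    rwa [add_comm] at this
  choose b t htT c hc0 hc00 hbx hbmin using fun n => hmin _ (hxn n)
  obtain ⟨t₀, ht₀⟩ := exists_freq hT t (Eventually.of_forall htT)
  obtain ⟨φ₁, hφ₁, hφt⟩ := Filter.extraction_of_frequently_atTop ht₀
  set C : ℝ := ξ x + ξ y₀ with hC
  have hxC : ∀ n, ξ (x + r n • y₀) ≤ C := fun n => by
    rw [map_add, map_smul, smul_eq_mul]
    have h1 := mul_le_mul_of_nonneg_right (hr1 n) (hξn y₀ hy₀n)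
    linarith
  have hC0 : 0 ≤ C := add_nonneg (hξn x hx) (hξn y₀ hy₀n)
  have huC : ∀ n, ξ (X.act (b n) (x + r n • y₀)) ≤ C := fun n => by
    have := hbmin n 1
    rw [map_one] at this
    exact le_trans this (hxC n)
  have htn : ∀ g : A, ∀ s ∈ S, X.act g s ∈ X.nef := fun g s hs => h.act_nef g (hSn s hs).1
  -- the coefficients are bounded
  have hcC : ∀ n, ∀ s ∈ S, c n s ≤ C := by
    intro n s hs
    by_cases hs0 : s = 0
    · rw [hs0, hc00]; exact hC0
    · have h1 : 1 ≤ ξ (X.act (t n) s) := by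
        obtain ⟨k, hk⟩ := hξL _ (h.act_lat (t n) _ (hSL hs))
        have h2 : X.act (t n) s ≠ 0 := fun h0 => hs0 ((X.act (t n)).map_eq_zero_iff.1 h0)
        have h3 := lt_of_lt_of_le (mul_pos hm (norm_pos_iff.2 h2)) (hξ _ (htn _ s hs))
        rw [hk] at h3 ⊢
        have h4 : 0 < k := by exact_mod_cast h3
        exact_mod_cast h4
      have h2 : c n s * ξ (X.act (t n) s) ≤ ξ (X.act (b n) (x + r n • y₀)) := by
        rw [hbx n, map_sum]
        simp only [map_smul, smul_eq_mul]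
        exact Finset.single_le_sum (f := fun s => c n s * ξ (X.act (t n) s))
          (fun s' hs' => mul_nonneg (hc0 n s') (hξn _ (htn _ s' hs'))) hs
      have h3 := huC n
      have h4 := hc0 n s
      nlinarith
  -- a convergent subsequence of the coefficients
  obtain ⟨d, hd, φ₂, hφ₂, hdt⟩ := (isCompact_Icc (a := (0 : S → ℝ)) (b := fun _ => C)).tendsto_subseq
    (x := fun n (s : S) => c (φ₁ n) s)
    (fun n => ⟨fun s => hc0 _ _, fun s => hcC _ _ s.2⟩)
  set ψ : ℕ → ℕ := fun n => φ₁ (φ₂ n) with hψ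
  have hψt : Tendsto ψ atTop atTop := hφ₁.tendsto_atTop.comp hφ₂.tendsto_atTop
  have hdt' : ∀ s : S, Tendsto (fun n => c (ψ n) s) atTop (𝓝 (d s)) := fun s =>
    (tendsto_pi_nhds.1 hdt) s
  have hd0 : ∀ s, 0 ≤ d s := fun s => hd.1 s
  have htψ : ∀ n, t (ψ n) = t₀ := fun n => hφt _
  -- the limit `u` of the minimal classes
  set u : W := ∑ s : S, d s • X.act t₀ s with hu
  have hun : ∀ n, X.act (b (ψ n)) (x + r (ψ n) • y₀) = ∑ s : S, c (ψ n) s • X.act t₀ s := by
    intro n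
    rw [hbx, htψ, ← Finset.sum_coe_sort S]
  have hut : Tendsto (fun n => X.act (b (ψ n)) (x + r (ψ n) • y₀)) atTop (𝓝 u) := by
    simp only [hun]
    exact tendsto_finsetSum _ fun s _ => (hdt' s).smul_const _
  have hrψ : Tendsto (fun n => r (ψ n)) atTop (𝓝 0) := hrt.comp hψt
  have hle : ∀ g : A, ξ u ≤ ξ (X.act g x) := by
    intro g
    have h1 : Tendsto (fun n => ξ (X.act (b (ψ n)) (x + r (ψ n) • y₀))) atTop (𝓝 (ξ u)) :=
      (hξc.tendsto u).comp hut
    have h2 : Tendsto (fun n => ξ (X.act g x) + r (ψ n) * ξ (X.act g y₀)) atTop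
        (𝓝 (ξ (X.act g x) + 0 * ξ (X.act g y₀))) :=
      (hrψ.mul_const _).const_add _
    rw [zero_mul, add_zero] at h2
    refine le_of_tendsto_of_tendsto' h1 h2 fun n => ?_
    have h3 := hbmin (ψ n) g
    rw [map_add (X.act g), map_smul (X.act g), map_add ξ, map_smul ξ, smul_eq_mul] at h3
    exact h3
  have hsmall : Tendsto (fun n => r (ψ n) • X.act (b (ψ n)) y₀) atTop (𝓝 0) := by
    rw [tendsto_zero_iff_norm_tendsto_zero]
    have h1 : Tendsto (fun n => (ξ (X.act (b (ψ n)) (x + r (ψ n) • y₀)) - ξ u) / m) atTop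
        (𝓝 ((ξ u - ξ u) / m)) :=
      (((hξc.tendsto u).comp hut).sub_const _).div_const _
    rw [sub_self, zero_div] at h1
    refine squeeze_zero (fun n => norm_nonneg _) (fun n => ?_) h1
    rw [le_div_iff₀ hm, mul_comm]
    refine (hξ _ (h.nef_smul (hr0 _).le (h.act_nef _ hy₀n))).trans ?_
    have h2 := hle (b (ψ n))
    rw [map_add (X.act _), map_smul (X.act _), map_add ξ, map_smul ξ]
    linarith
  have hxu : Tendsto (fun n => X.act (b (ψ n)) x) atTop (𝓝 u) := by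
    have h1 := hut.sub hsmall
    rw [sub_zero] at h1
    refine h1.congr fun n => ?_
    rw [map_add, map_smul, add_sub_cancel_right]
  have hucl : u ∈ closure (Set.range fun a => X.act a x) :=
    mem_closure_of_tendsto hxu (Eventually.of_forall fun n => ⟨b (ψ n), rfl⟩)
  -- the classes `b⁻¹ t₀ s` with `d s > 0` take finitely many values
  have hfin : ∀ s : S, 0 < d s → ∀ᶠ n in atTop,
      ξ (X.act (b (ψ n))⁻¹ (X.act t₀ s)) ≤ C / (d s / 2) := by
    intro s hs
    have h1 : ∀ᶠ n in atTop, d s / 2 < c (ψ n) s := (hdt' s).eventually_const_lt (by linarith)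
    filter_upwards [h1] with n hn
    rw [le_div_iff₀ (by linarith)]
    have h2 : x + r (ψ n) • y₀ = ∑ s : S, c (ψ n) s • X.act (b (ψ n))⁻¹ (X.act t₀ s) := by
      have h3 := congrArg (X.act (b (ψ n))⁻¹) (hun n)
      rw [← act_mul, inv_mul_cancel, map_one, map_sum] at h3
      simp only [map_smul] at h3
      exact h3
    have h3 : c (ψ n) s * ξ (X.act (b (ψ n))⁻¹ (X.act t₀ s)) ≤ ξ (x + r (ψ n) • y₀) := by
      rw [h2, map_sum]
      simp only [map_smul, smul_eq_mul]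
      exact Finset.single_le_sum
        (f := fun s : S => c (ψ n) s * ξ (X.act (b (ψ n))⁻¹ (X.act t₀ s)))
        (fun s' _ => mul_nonneg (hc0 _ s') (hξn _ (h.act_nef _ (htn _ s' s'.2)))) (Finset.mem_univ s)
    have h4 := hxC (ψ n)
    have h5 := hξn _ (h.act_nef (b (ψ n))⁻¹ (htn t₀ s s.2))
    nlinarith
  set G : ℕ → S → W := fun n s => if 0 < d s then X.act (b (ψ n))⁻¹ (X.act t₀ s) else 0 with hG
  have hGf : ∀ᶠ n in atTop, G n ∈ Set.pi Set.univ (fun s : S =>
      {x | x ∈ X.lat ∧ x ∈ X.nef ∧ ξ x ≤ C / (d s / 2)}) := by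
    have h1 : ∀ᶠ n in atTop, ∀ s : S, 0 < d s →
        ξ (X.act (b (ψ n))⁻¹ (X.act t₀ s)) ≤ C / (d s / 2) := by
      rw [Filter.eventually_all]
      intro s
      by_cases hs : 0 < d s
      · filter_upwards [hfin s hs] with n hn _ using hn
      · exact Eventually.of_forall fun n h0 => absurd h0 hs
    filter_upwards [h1] with n hn s _
    by_cases hs : 0 < d s
    · simp only [hG, if_pos hs]
      exact ⟨h.act_lat _ _ (h.act_lat _ _ (hSL s.2)), h.act_nef _ (htn _ s s.2), hn s hs⟩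
    · simp only [hG, if_neg hs]
      refine ⟨X.lat.zero_mem, ?_, ?_⟩
      · have := h.nef_smul (le_refl (0 : ℝ)) hx
        rwa [zero_smul] at this
      · rw [map_zero]
        exact div_nonneg hC0 (by have := hd0 s; linarith)
  obtain ⟨e, he⟩ := exists_freq (Set.Finite.pi fun s => finite_lat h ξ hm hξ _) G hGf
  -- the class `y`
  have hyn : x - ∑ s : S, d s • e s ∈ X.nef := by
    have h1 : Tendsto (fun n => (x + r (ψ n) • y₀) - ∑ s : S, (if 0 < d s then c (ψ n) s else 0) • e s)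
        atTop (𝓝 ((x + (0 : ℝ) • y₀) - ∑ s : S, (if 0 < d s then d s else 0) • e s)) := by
      refine ((hrψ.smul_const y₀).const_add x).sub (tendsto_finsetSum _ fun s _ => ?_)
      by_cases hs : 0 < d s
      · simp only [if_pos hs]
        exact (hdt' s).smul_const _
      · simp only [if_neg hs]
        exact tendsto_const_nhds
    have h2 : ∑ s : S, (if 0 < d s then d s else 0) • e s = ∑ s : S, d s • e s := by
      refine Finset.sum_congr rfl fun s _ => ?_
      by_cases hs : 0 < d s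
      · rw [if_pos hs]
      · rw [if_neg hs, le_antisymm (not_lt.1 hs) (hd0 s)]
    rw [h2, zero_smul, add_zero] at h1
    refine isClosed_closure.mem_of_frequently_of_tendsto (he.mono fun n hn => ?_) h1
    have h3 : x + r (ψ n) • y₀ = ∑ s : S, c (ψ n) s • X.act (b (ψ n))⁻¹ (X.act t₀ s) := by
      have h3 := congrArg (X.act (b (ψ n))⁻¹) (hun n)
      rw [← act_mul, inv_mul_cancel, map_one, map_sum] at h3
      simp only [map_smul] at h3
      exact h3
    rw [h3, ← Finset.sum_sub_distrib]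
    have h4 : ∀ F : Finset S, ∑ s ∈ F, (c (ψ n) s • X.act (b (ψ n))⁻¹ (X.act t₀ s) -
        (if 0 < d s then c (ψ n) s else 0) • e s) ∈ X.nef := by
      have h0 : (0 : W) ∈ X.nef := by
        have := h.nef_smul (le_refl (0 : ℝ)) hx
        rwa [zero_smul] at this
      intro F
      induction F using Finset.induction_on with
      | empty => rw [Finset.sum_empty]; exact h0
      | insert s F hs ih =>
        rw [Finset.sum_insert hs]
        refine h.nef_add ?_ ih
        by_cases hs : 0 < d s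
        · rw [if_pos hs]
          have h5 := congrFun hn s
          simp only [hG, if_pos hs] at h5
          rw [h5, sub_self]
          exact h0
        · rw [if_neg hs, zero_smul, sub_zero]
          exact h.nef_smul (hc0 _ _) (h.act_nef _ (htn _ s s.2))
    exact h4 Finset.univ
  obtain ⟨n, hn⟩ := he.exists
  have hyu : ∑ s : S, d s • e s = X.act (b (ψ n))⁻¹ u := by
    rw [hu, map_sum]
    refine Finset.sum_congr rfl fun s _ => ?_
    rw [map_smul]
    by_cases hs : 0 < d s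
    · have h5 := congrFun hn s
      simp only [hG, if_pos hs] at h5
      rw [h5]
    · rw [le_antisymm (not_lt.1 hs) (hd0 s), zero_smul, zero_smul]
  refine ⟨_, ?_, ?_, hyn⟩
  · rw [hyu]
    have hcb : Continuous (X.act (b (ψ n))⁻¹) :=
      (X.act (b (ψ n))⁻¹).toLinearMap.continuous_of_finiteDimensional
    refine map_mem_closure hcb hucl ?_
    rintro _ ⟨a, rfl⟩
    exact ⟨(b (ψ n))⁻¹ * a, act_mul _ _ _ _⟩
  · intro hyx
    refine hxe ?_
    rw [← hyx, hyu]
    refine h.act_eff _ _ ?_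
    have h1 : u = X.act t₀ (∑ s : S, d s • (s : W)) := by
      rw [hu, map_sum]
      exact Finset.sum_congr rfl fun s _ => by rw [map_smul]
    rw [h1]
    refine h.act_eff _ _ ?_
    have h2 : ∑ s : S, d s • (s : W) ∈ cone S := by
      refine cone_sum _ _ fun s _ => cone_smul (mem_cone_self s.2) (hd0 s)
    have h3 : ∑ s : S, d s • (s : W) ∈ X.nefEff := by
      rw [hcov]
      refine Set.mem_iUnion.2 ⟨1, _, h2, ?_⟩
      rw [map_one]; rfl
    exact h3.2

/-- Under the assumption that effective nef classes are polyhedral or pulled back from the fibrations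
in `𝓕`: the cone conjecture is equivalent to the reducibility of the other nef classes. -/
theorem conj_iff_reducible (h : X.Good) (h00 : (0 : W) ∈ X.eff) {𝓕 : Set (Finset W)}
    (h𝓕 : ∀ Φ ∈ 𝓕, X.FibrationFace Φ) (hsub : Num.ClosedUnderFaces 𝓕)
    (heff : ∀ x ∈ X.nef, x ∈ X.eff → x ≠ 0 → X.PolyhedralAt x ∨ ∃ Φ ∈ 𝓕, x ∈ cone Φ) :
    X.ConeConj ↔ ∀ x ∈ X.nef, x ∉ X.eff → X.Reducible x := by
  refine ⟨fun hc x hx hxe => reducible_of_conj h hc hx hxe, fun hr => ?_⟩
  refine conj_of_kinds h h00 h𝓕 hsub fun x hx hx0 => ?_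
  by_cases hxe : x ∈ X.eff
  · rcases heff x hx hxe hx0 with h1 | h1
    · exact Or.inl h1
    · exact Or.inr (Or.inr h1)
  · exact Or.inr (Or.inl (hr x hx hxe))

theorem zero_eff (h : X.Good) (hr : ∀ x ∈ X.nef, x ∉ X.eff → X.Reducible x) : (0 : W) ∈ X.eff := by
  by_contra h0
  have h1 : (0 : W) ∈ X.nef := by
    obtain ⟨y, hy⟩ := h.nonempty
    have := h.nef_smul (le_refl (0 : ℝ)) (subset_closure hy : y ∈ X.nef)
    rwa [zero_smul] at this
  obtain ⟨-, y, hy, hy0, -⟩ := hr 0 h1 h0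
  have h2 : (Set.range fun a => X.act a (0 : W)) ⊆ {0} := by
    rintro _ ⟨a, rfl⟩
    exact map_zero _
  exact hy0 (closure_minimal h2 isClosed_singleton hy)

namespace MvNum

theorem zero_eff {X : MvNum W A} (h : X.Good) (hr : ∀ x ∈ X.mov, x ∉ X.eff → X.Reducible x) :
    (0 : W) ∈ X.eff := by
  by_contra h0
  have h1 : (0 : W) ∈ X.mov := by
    obtain ⟨y, hy⟩ := h.nonempty
    have := h.smul 0 le_rfl y (interior_subset hy)
    rwa [zero_smul] at this
  obtain ⟨-, y, hy, hy0, -⟩ := hr 0 h1 h0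
  have h2 : (Set.range fun a => X.act a (0 : W)) ⊆ {0} := by
    rintro _ ⟨a, rfl⟩
    exact map_zero _
  exact hy0 (closure_minimal h2 isClosed_singleton hy)

theorem reducible_of_conj {X : MvNum W A} (h : X.Good) (hc : X.ConeConj) {x : W} (hx : x ∈ X.mov)
    (hxe : x ∉ X.eff) : X.Reducible x := by
  have h1 := KM.reducible_of_conj h.toNum (h.conj_iff.2 hc) (x := x) (by rw [h.nef_eq]; exact hx) hxe
  obtain ⟨-, y, hy, hyx, hxy⟩ := h1
  exact ⟨hxe, y, hy, hyx, by rw [h.nef_eq] at hxy; exact hxy⟩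

theorem conj_iff_reducible {X : MvNum W A} (h : X.Good) (h00 : (0 : W) ∈ X.eff)
    {𝓕 : Set (Finset W)}
    (h𝓕 : ∀ Φ ∈ 𝓕, X.FibrationFace Φ) (hsub : Num.ClosedUnderFaces 𝓕)
    (heff : ∀ x ∈ X.mov, x ∈ X.eff → x ≠ 0 → X.PolyhedralAt x ∨ ∃ Φ ∈ 𝓕, x ∈ cone Φ) :
    X.ConeConj ↔ ∀ x ∈ X.mov, x ∉ X.eff → X.Reducible x := by
  refine ⟨fun hc x hx hxe => reducible_of_conj h hc hx hxe, fun hr => ?_⟩
  refine conj_of_kinds h h00 h𝓕 hsub fun x hx hx0 => ?_
  by_cases hxe : x ∈ X.eff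
  · rcases heff x hx hxe hx0 with h1 | h1
    · exact Or.inl h1
    · exact Or.inr (Or.inr h1)
  · exact Or.inr (Or.inl (hr x hx hxe))

end MvNum

end Pool.Agent.Y95.KM
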