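import Pool.Agent.Y95.KM.MvCuspDefs
import Pool.Agent.Y95.KM.FaceDefs

/-!
# Fibration faces of the movable cone: definitions used in the statements
-/

set_option autoImplicit false

namespace Pool.Agent.Y95.KM

open Topology
open Pool.Agent.Y167 (cone)

namespace MvNum

variable {W A : Type*} [NormedAddCommGroup W] [NormedSpace ℝ W] [Group A]

/-- The standard properties of a fibration `X' → B` over the base, where `X'` is isomorphic to `X` in
codimension one and `Φ` is a finite set which generates the face `cone Φ` of the closed movable cone
of `X` given by `B` (assumed rational polyhedral), together with the covering part of the movable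
cone conjecture for `X' → B`, for the classes modulo the span of this face. -/
structure FibrationFace (X : MvNum W A) (Φ : Finset W) : Prop where
  gens : ∀ s ∈ Φ, s ∈ X.lat ∧ s ∈ X.movEff
  /-- the face is exposed: it consists of the classes in the closed movable cone which have degree
  zero on a suitable class `ℓ` of curves which cover the fibres -/
  exposed : ∃ ℓ : W →ₗ[ℝ] ℝ, (∀ x ∈ X.mov, 0 ≤ ℓ x) ∧ ∀ x ∈ X.mov, ℓ x = 0 ↔ x ∈ cone Φ
  /-- there is a function such as: `η x` is the `d`-th root of the volume of the restriction of `x` to
  the general fibre of `X' → B`, where `d` is the dimension of the fibre -/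
  size : ∃ η : W → ℝ, Continuous η ∧ (∀ t : ℝ, 0 ≤ t → ∀ x, η (t • x) = t * η x) ∧
    (∀ v ∈ Submodule.span ℝ (Φ : Set W), ∀ x, η (x + v) = η x) ∧
    (∀ a, (∀ s ∈ Φ, X.act a s = s) → ∀ x, η (X.act a x) = η x) ∧
    ∀ x ∈ X.movEff, x ∉ cone Φ → 0 < η x
  /-- modulo the span of the face, the interior of the movable cone is covered by the translates of a
  cone, generated by finitely many integral classes which are movable and effective, under
  pseudo-automorphisms which fix the face -/
  rel : ∃ F : Finset W, (∀ s ∈ F, s ∈ X.lat ∧ s ∈ X.movEff) ∧ ∀ x ∈ interior X.mov, ∃ a,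
    (∀ s ∈ Φ, X.act a s = s) ∧ ∃ v ∈ Submodule.span ℝ (Φ : Set W), X.act a x - v ∈ cone F

end MvNum

end Pool.Agent.Y95.KM
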