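import Pool.Agent.Y95.KM.FaceDefs
import Pool.Agent.Y95.KM.MvFaceDefs

/-!
# Reducible classes: definitions used in the statements
-/

set_option autoImplicit false

namespace Pool.Agent.Y95.KM

variable {W A : Type*} [NormedAddCommGroup W] [NormedSpace ℝ W] [Group A]

/-- The class `x` is not effective, and automorphisms make it smaller: its translates accumulate at a
class `y ≠ x` such that `x - y` is nef (for instance at `y = 0`). -/
def Num.Reducible (X : Num W A) (x : W) : Prop :=
  x ∉ X.eff ∧ ∃ y ∈ closure (Set.range fun a => X.act a x), y ≠ x ∧ x - y ∈ X.nef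

/-- The class `x` is not effective, and pseudo-automorphisms make it smaller: its translates
accumulate at a class `y ≠ x` such that `x - y` is in the closed movable cone (for instance at
`y = 0`). -/
def MvNum.Reducible (X : MvNum W A) (x : W) : Prop :=
  x ∉ X.eff ∧ ∃ y ∈ closure (Set.range fun a => X.act a x), y ≠ x ∧ x - y ∈ X.mov

end Pool.Agent.Y95.KM
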