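import Pool.Agent.Y95.KM.Desc

/-!
# The cone conjecture descends to quotients by finite groups
-/

set_option autoImplicit false

namespace Pool.Agent.Y95.KM

open Finset Filter Topology
open Pool.Agent.Y167

variable {W A : Type*} [NormedAddCommGroup W] [NormedSpace ℝ W] [Group A] {X : Num W A}

theorem inn_of_amp (h : X.Good) {ξ₀ : W →ₗ[ℝ] ℝ} {y₀ : W} {Y : Finset W}
    (D : CData X.lat X.nef ξ₀ y₀ Y) {z : W} (hz : z ∈ X.amp) : Inn X.nef z := by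
  refine ⟨subset_closure hz, fun y => ?_⟩
  obtain ⟨C, hC, h1⟩ := D.y_int y
  have h2 : Tendsto (fun t : ℝ => z - t • y₀) (𝓝 0) (𝓝 z) := by
    have hc : Continuous fun t : ℝ => z - t • y₀ := by fun_prop
    have := hc.tendsto 0
    simpa using this
  have h3 : ∀ᶠ t : ℝ in 𝓝 0, z - t • y₀ ∈ X.amp := h2.eventually (h.isOpen.mem_nhds hz)
  have h4 : ∃ᶠ t : ℝ in 𝓝 0, 0 < t := by
    have : ∀ᶠ t : ℝ in 𝓝[>] 0, 0 < t := eventually_mem_nhdsWithin
    exact (this.frequently).filter_mono nhdsWithin_le_nhds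
  obtain ⟨t, ht0, ht⟩ := (h4.and_eventually h3).exists
  refine ⟨C / t, by positivity, ?_⟩
  have h5 := h.nef_add (h.nef_smul (show (0 : ℝ) ≤ C / t by positivity) (subset_closure ht)) h1
  convert h5 using 1
  rw [smul_sub, smul_smul, div_mul_cancel₀ _ ht0.ne']
  abel

/-- finitely many cosets -/
theorem exists_reps (X : Num W A) (T : Subgroup A) (hT : T.relIndex X.act.ker ≠ 0)
    (Γf : Set (W ≃ₗ[ℝ] W)) (hΓ : Γf.Finite) (hr : ∀ γ ∈ Γf, γ ∈ X.act.range) :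
    ∃ R : Finset A, ∀ a, X.act a ∈ Γf → ∃ r ∈ R, ∃ t ∈ T, a = r * t := by
  classical
  have hfi : (T.subgroupOf X.act.ker).FiniteIndex := ⟨hT⟩
  have hfin : Finite (X.act.ker ⧸ T.subgroupOf X.act.ker) := inferInstance
  have : Fintype (X.act.ker ⧸ T.subgroupOf X.act.ker) := Fintype.ofFinite _
  have h1 : ∀ γ : W ≃ₗ[ℝ] W, ∃ a : A, γ ∈ Γf → X.act a = γ := by
    intro γ
    by_cases h : γ ∈ Γf
    · obtain ⟨a, ha⟩ := hr γ h
      exact ⟨a, fun _ => ha⟩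
    · exact ⟨1, fun h' => absurd h' h⟩
  choose s hs using h1
  let K0 : Finset A := Finset.univ.image fun κ : X.act.ker ⧸ T.subgroupOf X.act.ker => (κ.out : A)
  refine ⟨Finset.image₂ (fun γ κ => s γ * κ) hΓ.toFinset K0, fun a ha => ?_⟩
  have h2 : (s (X.act a))⁻¹ * a ∈ X.act.ker := by
    rw [MonoidHom.mem_ker, map_mul, map_inv, hs _ ha, inv_mul_cancel]
  let κ : X.act.ker ⧸ T.subgroupOf X.act.ker := QuotientGroup.mk ⟨_, h2⟩
  have h3 : (κ.out)⁻¹ * ⟨_, h2⟩ ∈ T.subgroupOf X.act.ker :=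
    QuotientGroup.eq.1 (QuotientGroup.out_eq' κ)
  refine ⟨s (X.act a) * (κ.out : A), Finset.mem_image₂_of_mem (hΓ.mem_toFinset.2 ha)
    (Finset.mem_image_of_mem _ (Finset.mem_univ κ)), (κ.out : A)⁻¹ * ((s (X.act a))⁻¹ * a),
    h3, ?_⟩
  group

variable {W' B : Type*} [NormedAddCommGroup W'] [NormedSpace ℝ W'] [Group B] {Y : Num W' B}
  {G H : Subgroup A} {q : W' →ₗ[ℝ] W}

/-- **The cone conjecture descends to quotients by finite groups**, relative version. -/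
theorem descend_rel (h : X.Good) (hHG : ∀ a, ∃ g ∈ G, ∃ b ∈ H, a = g * b) {T : Subgroup A}
    (hTH : T ≤ H) (hTn : T.Normal) (hTk : T ≤ X.act.ker) (hTi : T.relIndex X.act.ker ≠ 0)
    (hTc : ∀ s ∈ T, ∀ t ∈ T, s * t = t * s) (hTd : ∀ n : ℕ, 0 < n → ∀ t ∈ T, ∃ s ∈ T, s ^ n = t)
    (hTt : ∀ n : ℕ, 0 < n → {t | t ∈ T ∧ t ^ n = 1}.Finite) (h' : Y.Good) [Finite G]
    (hq : X.IsQuotientRel H G Y q) (hc : (X.restrict H).ConeConj) : Y.ConeConj := by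
  classical
  have := h.finDim
  obtain ⟨ξ₀, y₀, Y0, D, hy₀⟩ := h.exists_cdata
  obtain ⟨ξ, S, ⟨c, hc0, hξc⟩, hS, hcS, hdir, hCp⟩ := h.of_conj (h.of_restrict H hc) D hy₀
  have hΓ := siegel D X.act.range
    (by rintro _ ⟨a, rfl⟩ x hx; exact h.act_lat a x hx)
    (by rintro _ ⟨a, rfl⟩ x hx; exact h.act_nef a hx) hc0 hξc S hS hdir
  obtain ⟨R, hR⟩ := exists_reps X T hTi _ hΓ (fun γ hγ => hγ.1)
  obtain ⟨T0, hT0⟩ := conj_finite G T H hTH hTn hTc hTd hTt R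
  -- the pieces
  have hpiece : ∀ a : A, ∃ F : Finset W', (∀ s ∈ F, s ∈ Y.lat ∧ s ∈ Y.nef) ∧
      ∀ y, q y ∈ cone (S.image (X.act a)) → y ∈ cone F := fun a =>
    quot_cone h h' hq (S.image (X.act a)) (by
      intro s hs
      obtain ⟨b, hb, rfl⟩ := Finset.mem_image.1 hs
      exact ⟨h.act_lat a b (hS b hb).1, h.act_nef a (hS b hb).2⟩)
  choose F hF hF2 using hpiece
  refine h'.conj_of_cover (T0.biUnion F) ?_ ?_ ?_
  · intro s hs
    obtain ⟨a, -, ha⟩ := Finset.mem_biUnion.1 hs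
    exact hF a s ha
  · intro y hy
    have hx : q y ∈ X.amp := (hq.amp y).1 hy
    have hx2 : q y ∈ Cp X.lat X.nef := by
      rw [← hCp]; exact ⟨subset_closure hx, h.amp_eff hx⟩
    obtain ⟨_, ⟨a2, rfl⟩, ha2⟩ := (hcS _).1 hx2
    obtain ⟨a0, ha0H, ha0⟩ : ∃ a0 ∈ H, X.act a0 (q y) ∈ cone S := by
      obtain ⟨g, hg, b, hb, he⟩ := hHG a2⁻¹
      refine ⟨b⁻¹, H.inv_mem hb, ?_⟩
      have h1 : a2 = b⁻¹ * g⁻¹ := by rw [← inv_inv a2, he, mul_inv_rev]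
      have h2 : X.act g⁻¹ (q y) = q y := (hq.range (q y)).1 ⟨y, rfl⟩ _ (G.inv_mem hg)
      have h3 : X.act a2 (q y) = X.act b⁻¹ (q y) := by rw [h1, act_mul, h2]
      rw [← h3]
      exact ha2
    set z := X.act a0 (q y) with hz
    have hzamp : z ∈ X.amp := h.act_amp a0 _ hx
    have hcond : ∀ g ∈ G, ∃ r ∈ R, ∃ t ∈ T, (a0⁻¹)⁻¹ * g * a0⁻¹ = r * t := by
      intro g hg
      apply hR
      refine ⟨⟨_, rfl⟩, z, ha0, inn_of_amp h D hzamp, ?_⟩
      have h1 : X.act ((a0⁻¹)⁻¹ * g * a0⁻¹) z = z := by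
        rw [act_mul, act_mul, hz, act_inv_act, (hq.range (q y)).1 ⟨y, rfl⟩ g hg, inv_inv]
      rw [h1]
      exact ha0
    obtain ⟨a1, ha1, cc, hccH, hcc, t, ht, he⟩ := hT0 a0⁻¹ (H.inv_mem ha0H) hcond
    have hact : ∀ x, X.act a0⁻¹ x = X.act cc (X.act a1 x) := by
      intro x
      rw [he, act_mul, act_mul]
      have h1 : X.act t = 1 := hTk ht
      rw [h1]
      rfl
    have hinv : ∀ g ∈ G, cc⁻¹ * g = g * cc⁻¹ := by
      intro g hg
      have h1 := hcc g hg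
      calc cc⁻¹ * g = cc⁻¹ * (g * cc) * cc⁻¹ := by group
        _ = cc⁻¹ * (cc * g) * cc⁻¹ := by rw [h1]
        _ = g * cc⁻¹ := by group
    obtain ⟨b, hb⟩ := hq.desc cc⁻¹ (H.inv_mem hccH) hinv
    refine ⟨b, cone_mono (Finset.subset_biUnion_of_mem F ha1) (hF2 a1 _ ?_)⟩
    rw [hb]
    have h2 : X.act cc⁻¹ (q y) = X.act a1 z := by
      have h3 : q y = X.act cc (X.act a1 z) := by
        rw [← hact, hz, act_inv_act]
      rw [h3, act_inv_act]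
    rw [h2]
    exact cone_image (X.act a1 : W →ₗ[ℝ] W) ha0
  · ext y
    rw [quot_Cp h h' hq, ← hCp]
    constructor
    · rintro ⟨h1, h2⟩
      exact ⟨(quot_nef h h' hq y).1 h1, (hq.eff y).1 h2⟩
    · rintro ⟨h1, h2⟩
      exact ⟨(quot_nef h h' hq y).2 h1, (hq.eff y).2 h2⟩

theorem IsQuotient.rel (hq : X.IsQuotient G Y q) : X.IsQuotientRel ⊤ G Y q where
  inj := hq.inj
  range := hq.range
  lat := hq.lat
  lat' := hq.lat'
  amp := hq.amp
  eff := hq.eff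
  desc := fun a _ => hq.desc a

/-- **The cone conjecture descends to quotients by finite groups.** -/
theorem descend (h : X.Good) (hK : X.AbelianKernel) (h' : Y.Good) [Finite G]
    (hq : X.IsQuotient G Y q) (hc : X.ConeConj) : Y.ConeConj := by
  obtain ⟨T, hTn, hTk, hTi, hTc, hTd, hTt⟩ := hK
  refine descend_rel h (H := ⊤) (fun a => ⟨1, G.one_mem, a, trivial, (one_mul a).symm⟩) le_top
    hTn hTk hTi hTc hTd hTt h' (IsQuotient.rel hq) ?_
  obtain ⟨S, hS, h1, h2⟩ := hc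
  refine ⟨S, hS, ?_, fun a ha => h2 a.1 ha⟩
  have h3 : (X.restrict ⊤).nefEff = X.nefEff := rfl
  rw [h3, h1]
  ext x
  simp only [Set.mem_iUnion]
  constructor
  · rintro ⟨a, hx⟩
    exact ⟨⟨a, trivial⟩, hx⟩
  · rintro ⟨a, hx⟩
    exact ⟨a.1, hx⟩

end Pool.Agent.Y95.KM
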