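import Pool.Agent.Y95.KM.MvDefs
import Pool.Agent.Y95.KM.Main
import Pool.Agent.Y95.KM.Prod

/-!
# From movable cones to the abstract theorems
-/

set_option autoImplicit false

namespace Pool.Agent.Y95.KM

open Finset Filter Topology
open Pool.Agent.Y167

namespace MvNum

variable {W A : Type*} [NormedAddCommGroup W] [NormedSpace ℝ W] [Group A]
variable {W' B : Type*} [NormedAddCommGroup W'] [NormedSpace ℝ W'] [Group B]

/-- the data with the interior of the movable cone as ample cone -/
def toNum (X : MvNum W A) : Num W A where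
  lat := X.lat
  amp := interior X.mov
  eff := X.eff
  act := X.act

theorem Good.convex {X : MvNum W A} (h : X.Good) : Convex ℝ X.mov := by
  intro x hx y hy a b ha hb _
  exact h.add _ (h.smul a ha x hx) _ (h.smul b hb y hy)

theorem Good.nef_eq {X : MvNum W A} (h : X.Good) : X.toNum.nef = X.mov := by
  have h1 := h.convex.closure_interior_eq_closure_of_nonempty_interior h.nonempty
  exact h1.trans h.isClosed.closure_eq

/-- the sum of a class in the interior and a class of the cone is in the interior -/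
theorem Good.int_add {X : MvNum W A} (h : X.Good) {x y : W} (hx : x ∈ interior X.mov)
    (hy : y ∈ X.mov) : x + y ∈ interior X.mov := by
  rw [mem_interior] at hx ⊢
  obtain ⟨U, hU, hUo, hxU⟩ := hx
  refine ⟨(fun z => z - y) ⁻¹' U, ?_, hUo.preimage (by fun_prop), by simpa using hxU⟩
  intro z hz
  have h1 := h.add _ (hU hz) y hy
  simpa using h1

theorem Good.int_smul {X : MvNum W A} (h : X.Good) {t : ℝ} (ht : 0 < t) {x : W}
    (hx : x ∈ interior X.mov) : t • x ∈ interior X.mov := by
  rw [mem_interior] at hx ⊢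
  obtain ⟨U, hU, hUo, hxU⟩ := hx
  refine ⟨(fun z => t⁻¹ • z) ⁻¹' U, ?_, hUo.preimage (by fun_prop), ?_⟩
  · intro z hz
    have h1 := h.smul t ht.le _ (hU hz)
    rwa [smul_smul, mul_inv_cancel₀ ht.ne', one_smul] at h1
  · change t⁻¹ • t • x ∈ U
    rwa [smul_smul, inv_mul_cancel₀ ht.ne', one_smul]

/-- if `x - t • z` is in the cone and `z` in the interior, then `x` is in the interior -/
theorem Good.int_of_sub {X : MvNum W A} (h : X.Good) {x z : W} {t : ℝ} (ht : 0 < t)
    (hz : z ∈ interior X.mov) (hx : x - t • z ∈ X.mov) : x ∈ interior X.mov := by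
  have := h.int_add (h.int_smul ht hz) hx
  simpa using this

theorem int_sub {s : Set W} {x : W} (hx : x ∈ interior s) (z : W) :
    ∃ t : ℝ, 0 < t ∧ x - t • z ∈ s := by
  have h2 : Tendsto (fun t : ℝ => x - t • z) (𝓝 0) (𝓝 x) := by
    have hc : Continuous fun t : ℝ => x - t • z := by fun_prop
    have := hc.tendsto 0
    simpa using this
  have h3 : ∀ᶠ t : ℝ in 𝓝 0, x - t • z ∈ s := h2.eventually (mem_interior_iff_mem_nhds.1 hx)
  have h4 : ∃ᶠ t : ℝ in 𝓝 0, 0 < t := by
    have : ∀ᶠ t : ℝ in 𝓝[>] 0, 0 < t := eventually_mem_nhdsWithin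
    exact (this.frequently).filter_mono nhdsWithin_le_nhds
  obtain ⟨t, ht0, ht⟩ := (h4.and_eventually h3).exists
  exact ⟨t, ht0, ht⟩

theorem Good.act_int {X : MvNum W A} (h : X.Good) (a : A) {x : W} (hx : x ∈ interior X.mov) :
    X.act a x ∈ interior X.mov := by
  obtain ⟨z, hz⟩ := h.nonempty
  obtain ⟨n, b, -⟩ := h.lattice
  have : FiniteDimensional ℝ W := Module.Finite.of_basis b
  have hc : Continuous (X.act a).symm :=
    (X.act a).symm.toLinearMap.continuous_of_finiteDimensional
  rw [mem_interior] at hx ⊢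
  obtain ⟨U, hU, hUo, hxU⟩ := hx
  refine ⟨(X.act a).symm ⁻¹' U, ?_, hUo.preimage hc, ?_⟩
  · intro y hy
    have h1 := h.act_mov a _ (hU hy)
    rwa [LinearEquiv.apply_symm_apply] at h1
  · change (X.act a).symm (X.act a x) ∈ U
    rwa [LinearEquiv.symm_apply_apply]

theorem Good.toNum {X : MvNum W A} (h : X.Good) : X.toNum.Good where
  lattice := h.lattice
  isOpen := isOpen_interior
  add := fun x hx y hy => h.int_add hx (interior_subset hy)
  smul := fun t ht x hx => h.int_smul ht hx
  nonempty := h.nonempty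
  pointed := by rw [h.nef_eq]; exact h.pointed
  amp_eff := h.int_eff
  eff_add := h.eff_add
  eff_smul := h.eff_smul
  act_lat := h.act_lat
  act_amp := fun a x hx => h.act_int a hx
  act_eff := h.act_eff

theorem Good.conj_iff {X : MvNum W A} (h : X.Good) : X.toNum.ConeConj ↔ X.ConeConj := by
  have h1 : X.toNum.nefEff = X.movEff := by
    change X.toNum.nef ∩ X.eff = X.mov ∩ X.eff
    rw [h.nef_eq]
  unfold Num.ConeConj ConeConj
  rw [h1]
  rfl

theorem IsQuotient.toNum {X : MvNum W A} {G : Subgroup A} [Finite G] {Y : MvNum W' B}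
    {q : W' →ₗ[ℝ] W} (h : X.Good) (h' : Y.Good) (hq : X.IsQuotient G Y q) :
    X.toNum.IsQuotient G Y.toNum q where
  inj := hq.inj
  range := hq.range
  lat := hq.lat
  lat' := hq.lat'
  amp := by
    classical
    have : Fintype G := Fintype.ofFinite G
    obtain ⟨n, b, -⟩ := h'.lattice
    have : FiniteDimensional ℝ W' := Module.Finite.of_basis b
    have hc : Continuous q := q.continuous_of_finiteDimensional
    -- an invariant class in the interior
    obtain ⟨z₀, hz₀⟩ := h.nonempty
    have hz : ∑ g : G, X.act (g : A) z₀ ∈ interior X.mov := by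
      refine Finset.sum_induction_nonempty _ (fun x => x ∈ interior X.mov)
        (fun x y hx hy => h.int_add hx (interior_subset hy)) Finset.univ_nonempty ?_
      exact fun g _ => h.act_int _ hz₀
    obtain ⟨w, hw⟩ := (hq.range (∑ g : G, X.act (g : A) z₀)).2 fun g hg => by
      rw [map_sum]
      refine Fintype.sum_equiv (Equiv.mulLeft (⟨g, hg⟩ : G)) _ _ fun g' => ?_
      simp only [Equiv.coe_mulLeft, Subgroup.coe_mul, map_mul]
      rfl
    intro y
    change y ∈ interior Y.mov ↔ q y ∈ interior X.mov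
    constructor
    · intro hy
      obtain ⟨t, ht, h1⟩ := int_sub hy w
      refine h.int_of_sub ht (hw ▸ hz) ?_
      rw [← map_smul, ← map_sub]
      exact (hq.mov _).1 h1
    · intro hy
      rw [mem_interior] at hy ⊢
      obtain ⟨U, hU, hUo, hyU⟩ := hy
      exact ⟨q ⁻¹' U, fun z hz => (hq.mov z).2 (hU hz), hUo.preimage hc, hyU⟩
  eff := hq.eff
  desc := hq.desc

theorem IsProduct.toNum {ι : Type*} [Fintype ι] {W A : ι → Type*}
    [∀ i, NormedAddCommGroup (W i)] [∀ i, NormedSpace ℝ (W i)] [∀ i, Group (A i)]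
    {X : ∀ i, MvNum (W i) (A i)} {P : MvNum (∀ i, W i) B} (hP : IsProduct X P) :
    Num.IsProduct (fun i => (X i).toNum) P.toNum where
  lat := hP.lat
  amp := by
    intro x
    have h1 : P.mov = Set.pi Set.univ fun i => (X i).mov := by
      ext x
      rw [hP.mov, Set.mem_univ_pi]
    change x ∈ interior P.mov ↔ ∀ i, x i ∈ interior (X i).mov
    rw [h1, interior_pi_set Set.finite_univ, Set.mem_univ_pi]
  eff := hP.eff
  prod := hP.prod

/-- **The movable cone conjecture descends to quotients by finite groups.** -/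
theorem descend {X : MvNum W A} {G : Subgroup A} [Finite G] {Y : MvNum W' B}
    {q : W' →ₗ[ℝ] W} (h : X.Good) (hK : X.AbelianKernel) (h' : Y.Good)
    (hq : X.IsQuotient G Y q) (hc : X.ConeConj) : Y.ConeConj :=
  h'.conj_iff.1 (KM.descend h.toNum hK h'.toNum (hq.toNum h h') (h.conj_iff.2 hc))

/-- **The movable cone conjecture for products.** -/
theorem product {ι : Type*} [Fintype ι] {W A : ι → Type*}
    [∀ i, NormedAddCommGroup (W i)] [∀ i, NormedSpace ℝ (W i)] [∀ i, Group (A i)]
    {X : ∀ i, MvNum (W i) (A i)} {P : MvNum (∀ i, W i) B} (h : ∀ i, (X i).Good) (h' : P.Good)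
    (hP : IsProduct X P) (hc : ∀ i, (X i).ConeConj) : P.ConeConj :=
  h'.conj_iff.1 (KM.product (fun i => (h i).toNum) h'.toNum hP.toNum
    fun i => (h i).conj_iff.2 (hc i))

end MvNum

end Pool.Agent.Y95.KM
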