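import Pool.Agent.Y95.KM.MvCuspDefs
import Pool.Agent.Y95.KM.Mv
import Pool.Agent.Y95.KM.CuspMain

/-!
# The movable cone conjecture is equivalent to the finiteness of the cusps
-/

set_option autoImplicit false

namespace Pool.Agent.Y95.KM

open Finset Filter Topology
open Pool.Agent.Y167

namespace MvNum

variable {W A : Type*} [NormedAddCommGroup W] [NormedSpace ℝ W] [Group A] {X : MvNum W A}

theorem Good.nefEff_eq (h : X.Good) : X.toNum.nefEff = X.movEff := by
  change X.toNum.nef ∩ X.eff = X.mov ∩ X.eff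
  rw [h.nef_eq]

theorem Good.polyhedral_iff (h : X.Good) (x : W) :
    X.toNum.PolyhedralAt x ↔ X.PolyhedralAt x := by
  unfold Num.PolyhedralAt PolyhedralAt
  rw [h.nefEff_eq, h.nef_eq]
  rfl

theorem Good.cusp_iff (h : X.Good) (f : W) : X.toNum.Cusp f ↔ X.Cusp f := by
  constructor
  · intro hf
    refine ⟨hf.lat, h.nefEff_eq ▸ hf.nefEff, ?_, ?_, ?_⟩
    · have := hf.extremal
      rwa [h.nef_eq] at this
    · have := hf.size
      rwa [h.nefEff_eq] at this
    · have := hf.rel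
      rwa [h.nefEff_eq] at this
  · intro hf
    refine ⟨hf.lat, h.nefEff_eq ▸ hf.movEff, ?_, ?_, ?_⟩
    · have := hf.extremal
      rwa [← h.nef_eq] at this
    · have := hf.size
      rwa [← h.nefEff_eq] at this
    · have := hf.rel
      rwa [← h.nefEff_eq] at this

theorem conj_iff_cusps (h : X.Good) (h00 : (0 : W) ∈ X.eff)
    (hbd : ∀ x ∈ X.mov, x ≠ 0 → X.PolyhedralAt x ∨ X.Contracted x ∨
      ∃ f, X.Cusp f ∧ ∃ t : ℝ, x = t • f) :
    X.ConeConj ↔ ∃ S : Finset W, (∀ f ∈ S, X.Cusp f) ∧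
      ∀ g, X.Cusp g → ∃ f ∈ S, ∃ a, ∃ t : ℝ, g = t • X.act a f := by
  have h1 := KM.conj_iff_cusps h.toNum h00 (fun x hx hx0 => by
    rw [h.nef_eq] at hx
    rcases hbd x hx hx0 with h1 | h1 | ⟨f, hf, t, ht⟩
    · exact Or.inl ((h.polyhedral_iff x).2 h1)
    · exact Or.inr (Or.inl h1)
    · exact Or.inr (Or.inr ⟨f, (h.cusp_iff f).2 hf, t, ht⟩))
  rw [h.conj_iff] at h1
  simp only [h.cusp_iff] at h1
  exact h1

end MvNum

end Pool.Agent.Y95.KM
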