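import Pool.Agent.Y95.KM.Nest2

/-!
# The cone conjecture is equivalent to the finiteness of the fibration faces
-/

set_option autoImplicit false

namespace Pool.Agent.Y95.KM

open Finset Filter Topology
open Pool.Agent.Y167

variable {W A : Type*} [NormedAddCommGroup W] [NormedSpace ℝ W] [Group A] {X : Num W A}

theorem conj_of_faces (h : X.Good) (h00 : (0 : W) ∈ X.eff) {𝓕 : Set (Finset W)}
    (h𝓕 : ∀ Φ ∈ 𝓕, X.FibrationFace Φ) (hsub : Num.ClosedUnderFaces 𝓕)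
    (hbd : ∀ x ∈ X.nef, x ≠ 0 → X.PolyhedralAt x ∨ X.Contracted x ∨ ∃ Φ ∈ 𝓕, x ∈ cone Φ)
    (R : Finset (Finset W)) (hR : ∀ Φ ∈ R, Φ ∈ 𝓕)
    (hcov : ∀ Φ ∈ 𝓕, ∃ Φ' ∈ R, ∃ a, (cone Φ : Set W) = X.act a '' cone Φ') : X.ConeConj := by
  classical
  have := h.finDim
  have : ProperSpace W := FiniteDimensional.proper ℝ W
  obtain ⟨ξ, m, hm, hξL, hξ⟩ := h.exists_form
  have hξn : ∀ x ∈ X.nef, 0 ≤ ξ x := fun x hx =>
    le_trans (mul_nonneg hm.le (norm_nonneg x)) (hξ x hx)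
  have hη := fun Φ (hΦ : Φ ∈ 𝓕) => (h𝓕 Φ hΦ).size
  choose! η hη using hη
  have hη00 : ∀ Φ ∈ 𝓕, η Φ 0 = 0 := fun Φ hΦ => by
    have := (hη Φ hΦ).2.1 0 le_rfl 0
    rwa [smul_zero, zero_mul] at this
  have hcl := fun Φ (hΦ : Φ ∈ 𝓕) => small_claim h h00 h𝓕 hsub ξ hm hξ η hη _ Φ hΦ rfl
  choose! ε S hε hS hcl using hcl
  -- the classes which are far from all faces
  set K : Set W := (X.nef ∩ Metric.sphere 0 1) ∩
    ({x | ∀ Φ, Φ ∈ R → ∀ γ, ε Φ * (ξ x / 2) ≤ η Φ (X.act γ x)} ∩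
      {x | ∀ γ, ξ x ≤ 2 * ξ (X.act γ x)}) with hK
  have hKc : IsCompact K := by
    refine ((isCompact_sphere (0 : W) 1).inter_left isClosed_closure).inter_right
      (IsClosed.inter ?_ ?_)
    · have h1 : {x : W | ∀ Φ, Φ ∈ R → ∀ γ, ε Φ * (ξ x / 2) ≤ η Φ (X.act γ x)} =
          ⋂ Φ, ⋂ (_ : Φ ∈ R), ⋂ γ, {x : W | ε Φ * (ξ x / 2) ≤ η Φ (X.act γ x)} := by
        ext x; simp only [Set.mem_ofPred_eq, Set.mem_iInter]
      rw [h1]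
      refine isClosed_iInter fun Φ => isClosed_iInter fun hΦ => isClosed_iInter fun γ => ?_
      have hcγ : Continuous (X.act γ) := (X.act γ).toLinearMap.continuous_of_finiteDimensional
      exact isClosed_le (continuous_const.mul (ξ.continuous_of_finiteDimensional.div_const 2))
        ((hη Φ (hR Φ hΦ)).1.comp hcγ)
    · have h1 : {x : W | ∀ γ, ξ x ≤ 2 * ξ (X.act γ x)} =
          ⋂ γ, {x : W | ξ x ≤ 2 * ξ (X.act γ x)} := by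
        ext x; simp only [Set.mem_ofPred_eq, Set.mem_iInter]
      rw [h1]
      refine isClosed_iInter fun γ => ?_
      have hcγ : Continuous (X.act γ) := (X.act γ).toLinearMap.continuous_of_finiteDimensional
      exact isClosed_le ξ.continuous_of_finiteDimensional
        (continuous_const.mul (ξ.continuous_of_finiteDimensional.comp hcγ))
  obtain ⟨FK, hFK, hKF⟩ := cover_compact (X := X) K hKc (fun x hx => hx.1.1) (fun x hx => by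
    have h3 := hξ x hx.1.1
    have h4 : ‖x‖ = 1 := mem_sphere_zero_iff_norm.1 hx.1.2
    rw [h4, mul_one] at h3
    have hx0 : x ≠ 0 := fun h0 => by rw [h0, norm_zero] at h4; exact one_ne_zero h4.symm
    rcases hbd x hx.1.1 hx0 with hP | ⟨-, hC⟩ | ⟨Φ₀, hΦ₀, hxΦ₀⟩
    · exact hP
    · exfalso
      have h5 : {y : W | ξ y < ξ x / 2} ∈ 𝓝 (0 : W) := by
        refine (isOpen_lt ξ.continuous_of_finiteDimensional continuous_const).mem_nhds ?_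
        change ξ 0 < ξ x / 2
        rw [map_zero]
        linarith
      obtain ⟨y, hy, a, rfl⟩ := mem_closure_iff_nhds.1 hC _ h5
      have h6 : ξ x ≤ 2 * ξ (X.act a x) := hx.2.2 a
      have h7 : ξ (X.act a x) < ξ x / 2 := hy
      linarith
    · exfalso
      obtain ⟨Φ, hΦ, a, ha⟩ := hcov Φ₀ hΦ₀
      have h5 : x ∈ X.act a '' cone Φ := ha ▸ hxΦ₀
      obtain ⟨v, hv, hvx⟩ := h5
      have h6 : ε Φ * (ξ x / 2) ≤ η Φ (X.act a⁻¹ x) := hx.2.1 Φ hΦ a⁻¹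
      have h7 : X.act a⁻¹ x = 0 + v := by
        rw [← hvx, act_inv_act, zero_add]
      rw [h7, (hη Φ (hR Φ hΦ)).2.2.1 v (cone_sub_span Φ hv), hη00 Φ (hR Φ hΦ)] at h6
      have h8 := mul_pos (hε Φ (hR Φ hΦ)) (show 0 < ξ x / 2 by linarith)
      linarith)
  refine h.conj_of_cover2 (FK ∪ R.biUnion S) ?_ h00 ?_ ?_
  · intro s hs
    rcases Finset.mem_union.1 hs with hs | hs
    · exact hFK s hs
    · obtain ⟨Φ, hΦ, hs⟩ := Finset.mem_biUnion.1 hs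
      exact hS Φ (hR Φ hΦ) s hs
  · intro x₀ hx₀
    obtain ⟨a₀, ha₀⟩ := exists_near_min h ξ hm hξL hξ hx₀
    set x := X.act a₀ x₀ with hx
    have hxa : x ∈ X.amp := h.act_amp a₀ x₀ hx₀
    have hxn : x ∈ X.nef := subset_closure hxa
    have hmin : ∀ γ, ξ x ≤ 2 * ξ (X.act γ x) := by
      intro γ
      have := ha₀ (γ * a₀)
      rwa [act_mul] at this
    by_cases hA : ∃ Φ ∈ R, ∃ γ, η Φ (X.act γ x) ≤ ε Φ * (ξ x / 2)
    · obtain ⟨Φ, hΦ, γ, hγ⟩ := hA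
      obtain ⟨γ', hγ'⟩ := hcl Φ (hR Φ hΦ) x hxa (ξ x / 2) (by have := hξn x hxn; linarith)
        (fun γ => by have := hmin γ; linarith) γ hγ
      refine ⟨γ' * a₀, ?_⟩
      rw [act_mul]
      exact cone_mono ((Finset.subset_biUnion_of_mem S hΦ).trans Finset.subset_union_right) hγ'
    · push Not at hA
      refine ⟨a₀, cone_mono Finset.subset_union_left ?_⟩
      change x ∈ cone FK
      by_cases h0 : x = 0
      · rw [h0]; exact zero_mem_cone FK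
      · have hnx : 0 < ‖x‖ := norm_pos_iff.2 h0
        have hxK : ‖x‖⁻¹ • x ∈ K := by
          refine ⟨⟨h.nef_smul (inv_nonneg.2 hnx.le) hxn, ?_⟩, ?_⟩
          · rw [mem_sphere_zero_iff_norm, norm_smul, norm_inv, norm_norm,
              inv_mul_cancel₀ hnx.ne']
          · refine ⟨fun Φ hΦ γ => ?_, fun γ => ?_⟩
            · rw [map_smul, map_smul, smul_eq_mul,
                (hη Φ (hR Φ hΦ)).2.1 _ (inv_nonneg.2 hnx.le)]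
              calc ε Φ * (‖x‖⁻¹ * ξ x / 2) = ‖x‖⁻¹ * (ε Φ * (ξ x / 2)) := by ring
                _ ≤ ‖x‖⁻¹ * η Φ (X.act γ x) :=
                  mul_le_mul_of_nonneg_left (hA Φ hΦ γ).le (inv_nonneg.2 hnx.le)
            · rw [map_smul, map_smul, map_smul, smul_eq_mul, smul_eq_mul]
              calc ‖x‖⁻¹ * ξ x ≤ ‖x‖⁻¹ * (2 * ξ (X.act γ x)) :=
                    mul_le_mul_of_nonneg_left (hmin γ) (inv_nonneg.2 hnx.le)
                _ = 2 * (‖x‖⁻¹ * ξ (X.act γ x)) := by ring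
        have h6 := cone_smul (hKF hxK) hnx.le
        rwa [smul_smul, mul_inv_cancel₀ hnx.ne', one_smul] at h6
  · intro x hx
    by_cases hx0 : x = 0
    · rw [hx0]
      exact ⟨∅, fun s hs => absurd hs (Finset.notMem_empty s), zero_mem_cone ∅⟩
    rcases hbd x hx.1 hx0 with ⟨U, hU, F1, hF1, h1⟩ | hC | ⟨Φ, hΦ, hxΦ⟩
    · exact ⟨F1, fun s hs => ⟨(hF1 s hs).1, (hF1 s hs).2.1⟩, h1 ⟨hx.1, mem_of_mem_nhds hU⟩⟩
    · exact absurd hx.2 hC.1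
    · exact ⟨Φ, fun s hs => ⟨((h𝓕 Φ hΦ).gens s hs).1, ((h𝓕 Φ hΦ).gens s hs).2.1⟩, hxΦ⟩

/-- comparison of two faces which contain the same translates of generators -/
theorem face_compare (h : X.Good) {Φ₁ Φ₂ : Finset W} (h₁ : X.FibrationFace Φ₁)
    (h₂ : X.FibrationFace Φ₂) (S : Finset W) (hS : ∀ s ∈ S, s ∈ X.nef) {a₁ a₂ : A}
    (hT : ∀ s ∈ S, X.act a₁ s ∈ cone Φ₁ → X.act a₂ s ∈ cone Φ₂)
    (hw : ∑ z ∈ Φ₁, z ∈ X.act a₁ '' cone S) {y : W} (hy : y ∈ cone Φ₁) :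
    X.act (a₂ * a₁⁻¹) y ∈ cone Φ₂ := by
  classical
  have := h.finDim
  obtain ⟨ℓ₁, hℓ1, hℓ1'⟩ := h₁.exposed
  obtain ⟨ℓ₂, hℓ2, hℓ2'⟩ := h₂.exposed
  have hn₁ : ∀ s ∈ Φ₁, s ∈ X.nef := fun s hs => (h₁.gens s hs).2.1
  have hn₂ : ∀ s ∈ Φ₂, s ∈ X.nef := fun s hs => (h₂.gens s hs).2.1
  set w := ∑ z ∈ Φ₁, z with hwdef
  have hwc : w ∈ cone Φ₁ := ⟨fun _ => 1, fun _ => zero_le_one, by rw [hwdef]; simp⟩
  obtain ⟨q, ⟨c, hc, hq⟩, hqw⟩ := hw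
  have hwS : w = ∑ s ∈ S, c s • X.act a₁ s := by
    rw [← hqw, hq, map_sum]
    exact Finset.sum_congr rfl fun s _ => by rw [map_smul]
  have h1 : ∀ s ∈ S, 0 < c s → X.act a₁ s ∈ cone Φ₁ := by
    intro s hs hcs
    have h3 : ℓ₁ w = 0 := (hℓ1' _ (h.cone_nef hn₁ hwc)).2 hwc
    rw [hwS, map_sum, Finset.sum_eq_zero_iff_of_nonneg (fun z hz => by
      rw [map_smul, smul_eq_mul]
      exact mul_nonneg (hc z) (hℓ1 _ (h.act_nef a₁ (hS z hz))))] at h3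
    have h4 := h3 s hs
    rw [map_smul, smul_eq_mul] at h4
    rcases mul_eq_zero.1 h4 with h5 | h5
    · exact absurd h5 hcs.ne'
    · exact (hℓ1' _ (h.act_nef a₁ (hS s hs))).1 h5
  have h2 : X.act (a₂ * a₁⁻¹) w ∈ cone Φ₂ := by
    rw [hwS, map_sum]
    refine cone_sum S _ fun s hs => ?_
    rcases (hc s).eq_or_lt with h0 | h0
    · rw [← h0, zero_smul, map_zero]; exact zero_mem_cone _
    · rw [map_smul, act_mul, act_inv_act]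
      exact cone_smul (hT s hs (h1 s hs h0)) h0.le
  have hyn : y ∈ X.nef := h.cone_nef hn₁ hy
  obtain ⟨d, hd, hyd⟩ := hy
  set D : ℝ := 1 + ∑ z ∈ Φ₁, d z with hD
  have hD0 : 0 < D := by
    have : 0 ≤ ∑ z ∈ Φ₁, d z := Finset.sum_nonneg fun z _ => hd z
    linarith
  have h3 : w - D⁻¹ • y ∈ cone Φ₁ := by
    refine ⟨fun z => |1 - D⁻¹ * d z|, fun z => abs_nonneg _, ?_⟩
    rw [hwdef, hyd, Finset.smul_sum, ← Finset.sum_sub_distrib]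
    refine Finset.sum_congr rfl fun z hz => ?_
    have h4 : d z ≤ D := by
      have := Finset.single_le_sum (f := d) (fun z _ => hd z) hz
      linarith
    have h5 : 0 ≤ 1 - D⁻¹ * d z := by
      rw [sub_nonneg, inv_mul_le_iff₀ hD0, mul_one]
      exact h4
    change z - D⁻¹ • d z • z = |1 - D⁻¹ * d z| • z
    rw [abs_of_nonneg h5, sub_smul, one_smul, mul_smul]
  have h4 : ℓ₂ (X.act (a₂ * a₁⁻¹) w) = 0 := (hℓ2' _ (h.cone_nef hn₂ h2)).2 h2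
  have h5 : X.act (a₂ * a₁⁻¹) w =
      X.act (a₂ * a₁⁻¹) (w - D⁻¹ • y) + D⁻¹ • X.act (a₂ * a₁⁻¹) y := by
    rw [map_sub, map_smul]; abel
  rw [h5, map_add, map_smul, smul_eq_mul] at h4
  have h6 : 0 ≤ ℓ₂ (X.act (a₂ * a₁⁻¹) (w - D⁻¹ • y)) :=
    hℓ2 _ (h.act_nef _ (h.cone_nef hn₁ h3))
  have h7 : 0 ≤ ℓ₂ (X.act (a₂ * a₁⁻¹) y) := hℓ2 _ (h.act_nef _ hyn)
  have h8 : ℓ₂ (X.act (a₂ * a₁⁻¹) y) = 0 := by
    have h9 : D⁻¹ * ℓ₂ (X.act (a₂ * a₁⁻¹) y) ≤ 0 := by linarith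
    have h10 : 0 < D⁻¹ := inv_pos.2 hD0
    by_contra hcon
    have h11 : 0 < ℓ₂ (X.act (a₂ * a₁⁻¹) y) := lt_of_le_of_ne h7 (Ne.symm hcon)
    have := mul_pos h10 h11
    linarith
  exact (hℓ2' _ (h.act_nef _ hyn)).1 h8

theorem finite_faces (h : X.Good) (h00 : (0 : W) ∈ X.eff) {𝓕 : Set (Finset W)}
    (h𝓕 : ∀ Φ ∈ 𝓕, X.FibrationFace Φ) (hc : X.ConeConj) :
    ∃ R : Finset (Finset W), (∀ Φ ∈ R, Φ ∈ 𝓕) ∧
      ∀ Φ ∈ 𝓕, ∃ Φ' ∈ R, ∃ a, (cone Φ : Set W) = X.act a '' cone Φ' := by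
  classical
  have := h.finDim
  obtain ⟨S, hSL, h1, -⟩ := hc
  have hSn : ∀ s ∈ S, s ∈ X.nef := fun s hs => by
    have h2 : s ∈ X.nefEff := by
      rw [h1]
      exact Set.mem_iUnion.2 ⟨1, s, mem_cone_self hs, by rw [map_one]; rfl⟩
    exact h2.1
  -- a face with a translate of the domain
  have hex : ∀ T : Finset W, ∃ (Φ : Finset W) (a : A),
      (∃ Φ ∈ 𝓕, ∃ a, (∀ s ∈ S, s ∈ T ↔ X.act a s ∈ cone Φ) ∧
        ∑ z ∈ Φ, z ∈ X.act a '' cone S) →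
      Φ ∈ 𝓕 ∧ (∀ s ∈ S, s ∈ T ↔ X.act a s ∈ cone Φ) ∧ ∑ z ∈ Φ, z ∈ X.act a '' cone S := by
    intro T
    by_cases hT : ∃ Φ ∈ 𝓕, ∃ a, (∀ s ∈ S, s ∈ T ↔ X.act a s ∈ cone Φ) ∧
        ∑ z ∈ Φ, z ∈ X.act a '' cone S
    · obtain ⟨Φ, hΦ, a, h2, h3⟩ := hT
      exact ⟨Φ, a, fun _ => ⟨hΦ, h2, h3⟩⟩
    · exact ⟨∅, 1, fun h2 => absurd h2 hT⟩
  choose Ψ b hΨ using hex
  refine ⟨(S.powerset.image Ψ).filter (fun Φ => Φ ∈ 𝓕), fun Φ hΦ => (Finset.mem_filter.1 hΦ).2,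
    fun Φ hΦ => ?_⟩
  have hw : ∑ z ∈ Φ, z ∈ X.nefEff := by
    have hwc : ∑ z ∈ Φ, z ∈ cone Φ := ⟨fun _ => 1, fun _ => zero_le_one, by simp⟩
    exact ⟨h.cone_nef (fun s hs => ((h𝓕 Φ hΦ).gens s hs).2.1) hwc,
      h.cone_eff h00 (fun s hs => ((h𝓕 Φ hΦ).gens s hs).2.2) hwc⟩
  rw [h1] at hw
  obtain ⟨a, ha⟩ := Set.mem_iUnion.1 hw
  set T := S.filter fun s => X.act a s ∈ cone Φ with hT
  have hT' : ∀ s ∈ S, s ∈ T ↔ X.act a s ∈ cone Φ := fun s hs => by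
    rw [hT, Finset.mem_filter]
    exact ⟨fun h => h.2, fun h => ⟨hs, h⟩⟩
  obtain ⟨hΨ𝓕, hΨT, hΨw⟩ := hΨ T ⟨Φ, hΦ, a, hT', ha⟩
  refine ⟨Ψ T, Finset.mem_filter.2 ⟨Finset.mem_image_of_mem _
    (Finset.mem_powerset.2 (Finset.filter_subset _ _)), hΨ𝓕⟩, a * (b T)⁻¹, ?_⟩
  ext y
  constructor
  · intro hy
    refine ⟨X.act (b T * a⁻¹) y, ?_, ?_⟩
    · exact face_compare h (h𝓕 Φ hΦ) (h𝓕 _ hΨ𝓕) S hSn
        (fun s hs h2 => (hΨT s hs).1 ((hT' s hs).2 h2)) ha hy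
    · rw [← act_mul]
      have : a * (b T)⁻¹ * (b T * a⁻¹) = 1 := by group
      rw [this, map_one]
      rfl
  · rintro ⟨z, hz, rfl⟩
    exact face_compare h (h𝓕 _ hΨ𝓕) (h𝓕 Φ hΦ) S hSn
      (fun s hs h2 => (hT' s hs).1 ((hΨT s hs).2 h2)) hΨw hz

/-- **The cone conjecture is equivalent to the finiteness of the fibration faces.** -/
theorem conj_iff_faces (h : X.Good) (h00 : (0 : W) ∈ X.eff) {𝓕 : Set (Finset W)}
    (h𝓕 : ∀ Φ ∈ 𝓕, X.FibrationFace Φ) (hsub : Num.ClosedUnderFaces 𝓕)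
    (hbd : ∀ x ∈ X.nef, x ≠ 0 → X.PolyhedralAt x ∨ X.Contracted x ∨ ∃ Φ ∈ 𝓕, x ∈ cone Φ) :
    X.ConeConj ↔ ∃ R : Finset (Finset W), (∀ Φ ∈ R, Φ ∈ 𝓕) ∧
      ∀ Φ ∈ 𝓕, ∃ Φ' ∈ R, ∃ a, (cone Φ : Set W) = X.act a '' cone Φ' :=
  ⟨finite_faces h h00 h𝓕, fun ⟨R, hR, hcov⟩ => conj_of_faces h h00 h𝓕 hsub hbd R hR hcov⟩

end Pool.Agent.Y95.KM
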