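import Pool.Agent.Y95.KM.MvFaceDefs
import Pool.Agent.Y95.KM.MvCusp
import Pool.Agent.Y95.KM.Nest3

/-!
# The movable cone conjecture is equivalent to the finiteness of the fibration faces
-/

set_option autoImplicit false

namespace Pool.Agent.Y95.KM

open Finset Filter Topology
open Pool.Agent.Y167

namespace MvNum

variable {W A : Type*} [NormedAddCommGroup W] [NormedSpace ℝ W] [Group A] {X : MvNum W A}

theorem Good.face (h : X.Good) {Φ : Finset W} (hΦ : X.FibrationFace Φ) :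
    X.toNum.FibrationFace Φ := by
  refine ⟨?_, ?_, ?_, ?_⟩
  · have := hΦ.gens
    rwa [← h.nefEff_eq] at this
  · have := hΦ.exposed
    rwa [← h.nef_eq] at this
  · have := hΦ.size
    rwa [← h.nefEff_eq] at this
  · have := hΦ.rel
    rwa [← h.nefEff_eq] at this

theorem conj_iff_faces (h : X.Good) (h00 : (0 : W) ∈ X.eff) {𝓕 : Set (Finset W)}
    (h𝓕 : ∀ Φ ∈ 𝓕, X.FibrationFace Φ) (hsub : Num.ClosedUnderFaces 𝓕)
    (hbd : ∀ x ∈ X.mov, x ≠ 0 → X.PolyhedralAt x ∨ X.Contracted x ∨ ∃ Φ ∈ 𝓕, x ∈ cone Φ) :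
    X.ConeConj ↔ ∃ R : Finset (Finset W), (∀ Φ ∈ R, Φ ∈ 𝓕) ∧
      ∀ Φ ∈ 𝓕, ∃ Φ' ∈ R, ∃ a, (cone Φ : Set W) = X.act a '' cone Φ' := by
  have h1 := KM.conj_iff_faces h.toNum h00 (fun Φ hΦ => h.face (h𝓕 Φ hΦ)) hsub (fun x hx hx0 => by
    rw [h.nef_eq] at hx
    rcases hbd x hx hx0 with h1 | h1 | h1
    · exact Or.inl ((h.polyhedral_iff x).2 h1)
    · exact Or.inr (Or.inl h1)
    · exact Or.inr (Or.inr h1))
  rw [h.conj_iff] at h1
  exact h1

end MvNum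

end Pool.Agent.Y95.KM
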