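import Pool.Agent.Y95.KM.Nest3
import Pool.Agent.Y95.KM.MvFace
import Pool.Agent.Y95.KM.GeoDefs

/-!
# A criterion for the cone conjecture in the style of Beardon and Maskit
-/

set_option autoImplicit false

namespace Pool.Agent.Y95.KM

open Finset Filter Topology
open Pool.Agent.Y167

variable {W A : Type*} [NormedAddCommGroup W] [NormedSpace ℝ W] [Group A] {X : Num W A}

/-- the degree attains its minimum on the orbit of an ample class -/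
theorem exists_min (h : X.Good) (ξ : W →ₗ[ℝ] ℝ) {m : ℝ} (hm : 0 < m)
    (hξ : ∀ x ∈ X.nef, m * ‖x‖ ≤ ξ x) {x : W} (hx : x ∈ X.amp) :
    ∃ a₀, ∀ a, ξ (X.act a₀ x) ≤ ξ (X.act a x) := by
  classical
  have := h.finDim
  have hξn : ∀ x ∈ X.nef, 0 ≤ ξ x := fun x hx =>
    le_trans (mul_nonneg hm.le (norm_nonneg x)) (hξ x hx)
  obtain ⟨ξ₀, y₀, Y0, D, hy₀⟩ := h.exists_cdata
  -- `x - t y₀` is nef
  obtain ⟨t, ht, hxt⟩ : ∃ t : ℝ, 0 < t ∧ x - t • y₀ ∈ X.amp := by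
    have h2 : Tendsto (fun t : ℝ => x - t • y₀) (𝓝 0) (𝓝 x) := by
      have hc : Continuous fun t : ℝ => x - t • y₀ := by fun_prop
      have := hc.tendsto 0
      simpa using this
    have h3 : ∀ᶠ t : ℝ in 𝓝 0, x - t • y₀ ∈ X.amp := h2.eventually (h.isOpen.mem_nhds hx)
    have h4 : ∃ᶠ t : ℝ in 𝓝 0, 0 < t := by
      have : ∀ᶠ t : ℝ in 𝓝[>] 0, 0 < t := eventually_mem_nhdsWithin
      exact (this.frequently).filter_mono nhdsWithin_le_nhds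
    obtain ⟨t, ht0, ht⟩ := (h4.and_eventually h3).exists
    exact ⟨t, ht0, ht⟩
  -- comparison of `ξ₀` and `ξ`
  set L : ℝ := ‖LinearMap.toContinuousLinearMap ξ₀‖ with hL
  have hL0 : 0 ≤ L := norm_nonneg _
  have hcomp : ∀ z ∈ X.nef, ξ₀ z ≤ L / m * ξ z := by
    intro z hz
    have h1 : ξ₀ z ≤ L * ‖z‖ :=
      (le_abs_self _).trans ((LinearMap.toContinuousLinearMap ξ₀).le_opNorm z)
    have h2 : ‖z‖ ≤ ξ z / m := by
      rw [le_div_iff₀ hm, mul_comm]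
      exact hξ z hz
    calc ξ₀ z ≤ L * ‖z‖ := h1
      _ ≤ L * (ξ z / m) := mul_le_mul_of_nonneg_left h2 hL0
      _ = L / m * ξ z := by ring
  -- a bound for the elements of `Y0`
  have hY : ∃ C : ℝ, 0 ≤ C ∧ ∀ y ∈ Y0, C • y₀ - y ∈ X.nef := by
    choose C hC hC2 using D.y_int
    refine ⟨∑ y ∈ Y0, C y, Finset.sum_nonneg fun y _ => (hC y).le, fun y hy => ?_⟩
    have h1 : (∑ y ∈ Y0, C y) • y₀ - y = (C y • y₀ - y) + (∑ z ∈ Y0.erase y, C z) • y₀ := by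
      rw [← Finset.add_sum_erase Y0 C hy, add_smul]; abel
    rw [h1]
    exact h.nef_add (hC2 y) (h.nef_smul (Finset.sum_nonneg fun z _ => (hC z).le) (subset_closure hy₀))
  obtain ⟨C, hC0, hC⟩ := hY
  have hfin : {g : W ≃ₗ[ℝ] W | g ∈ X.act.range ∧ ξ (g x) ≤ ξ x}.Finite := by
    refine (D.finite_small X.act.range (by rintro _ ⟨a, rfl⟩ x hx; exact h.act_lat a x hx)
      (by rintro _ ⟨a, rfl⟩ x hx; exact h.act_nef a hx)
      (C * (L / m * (ξ x / t)))).subset ?_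
    rintro _ ⟨⟨a, rfl⟩, hgx⟩
    refine ⟨⟨a, rfl⟩, fun y hy => ?_⟩
    have h1 : ξ₀ (X.act a y) ≤ C * ξ₀ (X.act a y₀) := by
      have h2 := D.xi_nonneg (h.act_nef a (hC y hy))
      rw [map_sub, map_smul, map_sub, map_smul, smul_eq_mul] at h2
      linarith
    have h3 : ξ₀ (X.act a y₀) ≤ L / m * ξ (X.act a y₀) :=
      hcomp _ (h.act_nef a (subset_closure hy₀))
    have h4 : ξ (X.act a y₀) ≤ ξ x / t := by
      have h5 := hξn _ (h.act_nef a (subset_closure hxt))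
      rw [map_sub, map_smul, map_sub, map_smul, smul_eq_mul] at h5
      rw [le_div_iff₀ ht]
      linarith
    have h6 : L / m * ξ (X.act a y₀) ≤ L / m * (ξ x / t) :=
      mul_le_mul_of_nonneg_left h4 (by positivity)
    exact h1.trans (mul_le_mul_of_nonneg_left (h3.trans h6) hC0)
  obtain ⟨_, ⟨⟨a₀, rfl⟩, h1⟩, h2⟩ := Set.exists_min_image _ (fun g : W ≃ₗ[ℝ] W => ξ (g x)) hfin
    ⟨1, ⟨1, map_one _⟩, le_refl _⟩
  refine ⟨a₀, fun a => ?_⟩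
  by_cases ha : ξ (X.act a x) ≤ ξ x
  · exact h2 _ ⟨⟨a, rfl⟩, ha⟩
  · exact h1.trans (not_le.1 ha).le

/-- **The criterion.** -/
theorem conj_of_kinds (h : X.Good) (h00 : (0 : W) ∈ X.eff) {𝓕 : Set (Finset W)}
    (h𝓕 : ∀ Φ ∈ 𝓕, X.FibrationFace Φ) (hsub : Num.ClosedUnderFaces 𝓕)
    (hbd : ∀ x ∈ X.nef, x ≠ 0 → X.PolyhedralAt x ∨ X.Reducible x ∨ ∃ Φ ∈ 𝓕, x ∈ cone Φ) :
    X.ConeConj := by
  classical
  have := h.finDim
  have : ProperSpace W := FiniteDimensional.proper ℝ W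
  obtain ⟨ξ, m, hm, hξL, hξ⟩ := h.exists_form
  have hξn : ∀ x ∈ X.nef, 0 ≤ ξ x := fun x hx =>
    le_trans (mul_nonneg hm.le (norm_nonneg x)) (hξ x hx)
  have hξc : Continuous ξ := ξ.continuous_of_finiteDimensional
  have hη := fun Φ (hΦ : Φ ∈ 𝓕) => (h𝓕 Φ hΦ).size
  choose! η hη using hη
  have hη00 : ∀ Φ ∈ 𝓕, η Φ 0 = 0 := fun Φ hΦ => by
    have := (hη Φ hΦ).2.1 0 le_rfl 0
    rwa [smul_zero, zero_mul] at this
  have hcl := fun Φ (hΦ : Φ ∈ 𝓕) => small_claim h h00 h𝓕 hsub ξ hm hξ η hη _ Φ hΦ rfl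
  choose! ε S hε hS hcl using hcl
  set K : Set W := (X.nef ∩ Metric.sphere 0 1) ∩ {x | ∀ γ, ξ x ≤ ξ (X.act γ x)} with hK
  have hKc : IsCompact K := by
    refine ((isCompact_sphere (0 : W) 1).inter_left isClosed_closure).inter_right ?_
    have h1 : {x : W | ∀ γ, ξ x ≤ ξ (X.act γ x)} = ⋂ γ, {x : W | ξ x ≤ ξ (X.act γ x)} := by
      ext x; simp only [Set.mem_ofPred_eq, Set.mem_iInter]
    rw [h1]
    refine isClosed_iInter fun γ => ?_
    have hcγ : Continuous (X.act γ) := (X.act γ).toLinearMap.continuous_of_finiteDimensional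
    exact isClosed_le hξc (hξc.comp hcγ)
  -- each point of `K` has a good neighbourhood
  have hloc : ∀ y : W, ∃ U : Set W, ∃ F : Finset W, y ∈ K → U ∈ 𝓝 y ∧
      (∀ s ∈ F, s ∈ X.lat ∧ s ∈ X.nefEff) ∧ ∀ x ∈ X.amp, (∀ γ, ξ x ≤ ξ (X.act γ x)) →
        ∀ t : ℝ, 0 < t → t • x ∈ U → ∃ γ', X.act γ' x ∈ cone F := by
    intro y
    by_cases hy : y ∈ K
    swap
    · exact ⟨∅, ∅, fun h => absurd h hy⟩
    have h3 := hξ y hy.1.1
    have h4 : ‖y‖ = 1 := mem_sphere_zero_iff_norm.1 hy.1.2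
    rw [h4, mul_one] at h3
    have hy0 : y ≠ 0 := fun h0 => by rw [h0, norm_zero] at h4; exact one_ne_zero h4.symm
    rcases hbd y hy.1.1 hy0 with ⟨U, hU, F, hF, hUF⟩ | ⟨-, z, hz, hzy, hyz⟩ | ⟨Φ, hΦ, hyΦ⟩
    · refine ⟨U, F, fun _ => ⟨hU, hF, fun x hx _ t ht hxU => ⟨1, ?_⟩⟩⟩
      have h5 := hUF ⟨h.nef_smul ht.le (subset_closure hx), hxU⟩
      have h6 := cone_smul h5 (inv_nonneg.2 ht.le)
      rw [smul_smul, inv_mul_cancel₀ ht.ne', one_smul] at h6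
      rw [map_one]
      exact h6
    · exfalso
      have h5 : ξ z < ξ y := by
        have h6 := hξ _ hyz
        have h7 : 0 < ‖y - z‖ := norm_pos_iff.2 (sub_ne_zero.2 (Ne.symm hzy))
        have h8 := mul_pos hm h7
        rw [map_sub] at h6
        linarith
      have h6 : {w : W | ξ w < ξ y} ∈ 𝓝 z := (isOpen_lt hξc continuous_const).mem_nhds h5
      obtain ⟨w, hw, a, rfl⟩ := mem_closure_iff_nhds.1 hz _ h6
      have h7 : ξ y ≤ ξ (X.act a y) := hy.2 a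
      have h8 : ξ (X.act a y) < ξ y := hw
      linarith
    · refine ⟨{x | η Φ x < ε Φ * ξ x}, S Φ, fun _ => ⟨?_, hS Φ hΦ, fun x hx hmin t ht hxU => ?_⟩⟩
      · refine (isOpen_lt (hη Φ hΦ).1 (continuous_const.mul hξc)).mem_nhds ?_
        change η Φ y < ε Φ * ξ y
        have h5 : η Φ y = 0 := by
          have h6 := (hη Φ hΦ).2.2.1 y (cone_sub_span Φ hyΦ) 0
          rw [zero_add] at h6
          rw [h6, hη00 Φ hΦ]
        rw [h5]
        exact mul_pos (hε Φ hΦ) (by linarith)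
      · have hxU' : η Φ (t • x) < ε Φ * ξ (t • x) := hxU
        rw [(hη Φ hΦ).2.1 t ht.le, map_smul, smul_eq_mul] at hxU'
        have h5 : η Φ x ≤ ε Φ * ξ x := by
          by_contra hcon
          push Not at hcon
          have := mul_lt_mul_of_pos_left hcon ht
          nlinarith
        refine hcl Φ hΦ x hx (ξ x) (hξn x (subset_closure hx)) hmin 1 ?_
        rw [map_one]
        exact h5
  choose U F hUF using hloc
  obtain ⟨T, hTK, hTc⟩ := hKc.elim_nhds_subcover U (fun x hx => (hUF x hx).1)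
  refine h.conj_of_cover2 (T.biUnion F) ?_ h00 ?_ ?_
  · intro s hs
    obtain ⟨y, hy, hs⟩ := Finset.mem_biUnion.1 hs
    exact (hUF y (hTK y hy)).2.1 s hs
  · intro x₀ hx₀
    obtain ⟨a₀, ha₀⟩ := exists_min h ξ hm hξ hx₀
    set x := X.act a₀ x₀ with hx
    have hxa : x ∈ X.amp := h.act_amp a₀ x₀ hx₀
    have hxn : x ∈ X.nef := subset_closure hxa
    have hmin : ∀ γ, ξ x ≤ ξ (X.act γ x) := by
      intro γ
      have := ha₀ (γ * a₀)
      rwa [act_mul] at this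
    by_cases h0 : x = 0
    · refine ⟨a₀, ?_⟩
      change x ∈ cone _
      rw [h0]; exact zero_mem_cone _
    · have hnx : 0 < ‖x‖ := norm_pos_iff.2 h0
      have hxK : ‖x‖⁻¹ • x ∈ K := by
        refine ⟨⟨h.nef_smul (inv_nonneg.2 hnx.le) hxn, ?_⟩, fun γ => ?_⟩
        · rw [mem_sphere_zero_iff_norm, norm_smul, norm_inv, norm_norm, inv_mul_cancel₀ hnx.ne']
        · rw [map_smul, map_smul, map_smul, smul_eq_mul, smul_eq_mul]
          exact mul_le_mul_of_nonneg_left (hmin γ) (inv_nonneg.2 hnx.le)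
      obtain ⟨y, hy, hxU⟩ := Set.mem_iUnion₂.1 (hTc hxK)
      obtain ⟨γ', hγ'⟩ := (hUF y (hTK y hy)).2.2 x hxa hmin _ (inv_pos.2 hnx) hxU
      refine ⟨γ' * a₀, ?_⟩
      rw [act_mul]
      exact cone_mono (Finset.subset_biUnion_of_mem F hy) hγ'
  · intro x hx
    by_cases hx0 : x = 0
    · rw [hx0]
      exact ⟨∅, fun s hs => absurd hs (Finset.notMem_empty s), zero_mem_cone ∅⟩
    rcases hbd x hx.1 hx0 with ⟨U, hU, F1, hF1, h1⟩ | hC | ⟨Φ, hΦ, hxΦ⟩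
    · exact ⟨F1, fun s hs => ⟨(hF1 s hs).1, (hF1 s hs).2.1⟩, h1 ⟨hx.1, mem_of_mem_nhds hU⟩⟩
    · exact absurd hx.2 hC.1
    · exact ⟨Φ, fun s hs => ⟨((h𝓕 Φ hΦ).gens s hs).1, ((h𝓕 Φ hΦ).gens s hs).2.1⟩, hxΦ⟩

namespace MvNum

/-- **The criterion**, movable version. -/
theorem conj_of_kinds {X : MvNum W A} (h : X.Good) (h00 : (0 : W) ∈ X.eff) {𝓕 : Set (Finset W)}
    (h𝓕 : ∀ Φ ∈ 𝓕, X.FibrationFace Φ) (hsub : Num.ClosedUnderFaces 𝓕)
    (hbd : ∀ x ∈ X.mov, x ≠ 0 → X.PolyhedralAt x ∨ X.Reducible x ∨ ∃ Φ ∈ 𝓕, x ∈ cone Φ) :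
    X.ConeConj := by
  refine h.conj_iff.1 (KM.conj_of_kinds h.toNum h00 (fun Φ hΦ => h.face (h𝓕 Φ hΦ)) hsub
    (fun x hx hx0 => ?_))
  rw [h.nef_eq] at hx
  rcases hbd x hx hx0 with h1 | ⟨h1, y, hy, hyx, hxy⟩ | h1
  · exact Or.inl ((h.polyhedral_iff x).2 h1)
  · exact Or.inr (Or.inl ⟨h1, y, hy, hyx, by rw [h.nef_eq]; exact hxy⟩)
  · exact Or.inr (Or.inr h1)

theorem finite_faces {X : MvNum W A} (h : X.Good) (h00 : (0 : W) ∈ X.eff) {𝓕 : Set (Finset W)}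
    (h𝓕 : ∀ Φ ∈ 𝓕, X.FibrationFace Φ) (hc : X.ConeConj) :
    ∃ R : Finset (Finset W), (∀ Φ ∈ R, Φ ∈ 𝓕) ∧
      ∀ Φ ∈ 𝓕, ∃ Φ' ∈ R, ∃ a, (cone Φ : Set W) = X.act a '' cone Φ' :=
  KM.finite_faces h.toNum h00 (fun Φ hΦ => h.face (h𝓕 Φ hΦ)) (h.conj_iff.2 hc)

end MvNum

end Pool.Agent.Y95.KM
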