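import Mathlib

/-!
# Conjugates of a finite subgroup modulo an abelian normal subgroup `T` with `T[n]`, `T/T^n` finite
-/

set_option autoImplicit false

namespace Pool.Agent.Y95.KM

/-- Let `T` be an abelian normal subgroup of `A` such that `T[n]` and `T/T^n` are finite for all `n`, `H` a
subgroup containing `T`, `G` a finite subgroup and `R` a finite subset of `A`. The elements `a` of `H`
such that `a⁻¹ G a` is contained in `R T` lie in finitely many double cosets of the centraliser of `G`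
in `H` and of `T`. -/
theorem conj_finite2 {A : Type*} [Group A] (G : Subgroup A) [Finite G] (T H : Subgroup A)
    (hTH : T ≤ H) (hnorm : T.Normal) (hcomm : ∀ s ∈ T, ∀ t ∈ T, s * t = t * s)
    (hdiv : ∀ n : ℕ, 0 < n → ∃ Q : Finset A, ∀ t ∈ T, ∃ ρ ∈ Q, ∃ s ∈ T, t = s ^ n * ρ)
    (htor : ∀ n : ℕ, 0 < n → {t | t ∈ T ∧ t ^ n = 1}.Finite) (R : Finset A) :
    ∃ T0 : Finset A, ∀ a ∈ H, (∀ g ∈ G, ∃ r ∈ R, ∃ t ∈ T, a⁻¹ * g * a = r * t) →
      ∃ a0 ∈ T0, ∃ c ∈ H, (∀ g ∈ G, c * g = g * c) ∧ ∃ t ∈ T, a = c * a0 * t := by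
  classical
  have := hnorm
  have : Fintype G := Fintype.ofFinite G
  let _ : CommGroup T := { (inferInstance : Group T) with
    mul_comm := fun s t => Subtype.ext (hcomm s s.2 t t.2) }
  set n := Fintype.card G with hn
  have hn0 : 0 < n := Fintype.card_pos
  obtain ⟨Q, hQ⟩ := hdiv n hn0
  -- the solutions of `t ^ n = c`
  have hsol : ∀ c : A, {t | t ∈ T ∧ t ^ n = c}.Finite := by
    intro c
    by_cases hc : ∃ t₀ ∈ T, t₀ ^ n = c
    · obtain ⟨t₀, ht₀, hc⟩ := hc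
      refine ((htor n hn0).image (fun t => t₀ * t)).subset ?_
      rintro t ⟨ht, htc⟩
      refine ⟨t₀⁻¹ * t, ⟨T.mul_mem (T.inv_mem ht₀) ht, ?_⟩, by group⟩
      have hcm : Commute t₀⁻¹ t := hcomm _ (T.inv_mem ht₀) _ ht
      rw [hcm.mul_pow, inv_pow, hc, htc, inv_mul_cancel]
    · refine Set.Finite.subset Set.finite_empty ?_
      rintro t ⟨ht, htc⟩
      exact hc ⟨t, ht, htc⟩
  let D : Set A := {a | ∀ g ∈ G, ∃ r ∈ R, ∃ t ∈ T, a⁻¹ * g * a = r * t}
  have hD : ∀ a ∈ D, ∃ ρ : G → R, ∀ g : G, ∃ t ∈ T, a⁻¹ * (g : A) * a = (ρ g : A) * t := by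
    intro a ha
    have h1 : ∀ g : G, ∃ r : R, ∃ t ∈ T, a⁻¹ * (g : A) * a = (r : A) * t := fun g => by
      obtain ⟨r, hr, t, ht, h⟩ := ha g g.2
      exact ⟨⟨r, hr⟩, t, ht, h⟩
    choose ρ hρ using h1
    exact ⟨ρ, hρ⟩
  have hD' : ∀ a : A, ∃ ρ : Option (G → R), ∀ ha : a ∈ D, ∃ ρ', ρ = some ρ' ∧
      ∀ g : G, ∃ t ∈ T, a⁻¹ * (g : A) * a = (ρ' g : A) * t := by
    intro a
    by_cases ha : a ∈ D
    · obtain ⟨ρ, hρ⟩ := hD a ha
      exact ⟨some ρ, fun _ => ⟨ρ, rfl, hρ⟩⟩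
    · exact ⟨none, fun h => absurd h ha⟩
  choose cls hcls using hD'
  let base : Option (G → R) → A := fun ρ => if h : ∃ a ∈ D, cls a = ρ then h.choose else 1
  -- the possible conjugation data
  let E : Set (G → A) := ⋃ κ : Option (G → R), ⋃ ρ ∈ Q,
    (fun (β' : G → A) (g : G) => (base κ)⁻¹ * (g : A) * base κ * β' g) ''
      Set.pi Set.univ fun g : G => {t | t ∈ T ∧
        t ^ n = (((base κ)⁻¹ * (g : A) * base κ)⁻¹ * ρ * ((base κ)⁻¹ * (g : A) * base κ))⁻¹ * ρ}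
  have hE : E.Finite := by
    refine Set.finite_iUnion fun κ => Set.Finite.biUnion Q.finite_toSet fun ρ _ => ?_
    exact (Set.Finite.pi fun g => hsol _).image _
  let rep : (G → A) → A := fun e =>
    if h : ∃ a : A, a ∈ H ∧ ∀ g : G, a⁻¹ * (g : A) * a = e g then h.choose else 1
  refine ⟨hE.toFinset.image rep, ?_⟩
  intro a haH ha
  have hbase : base (cls a) ∈ D ∧ cls (base (cls a)) = cls a := by
    have h : ∃ a' ∈ D, cls a' = cls a := ⟨a, ha, rfl⟩
    have h2 : base (cls a) = h.choose := by simp only [base]; rw [dif_pos h]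
    rw [h2]
    exact h.choose_spec
  set a0 := base (cls a) with ha0
  have hb : ∀ g : G, ∃ b : T, a⁻¹ * (g : A) * a = a0⁻¹ * g * a0 * (b : A) := by
    intro g
    obtain ⟨ρ, h1, h2⟩ := hcls a ha
    obtain ⟨ρ', h3, h4⟩ := hcls a0 hbase.1
    have h5 : ρ = ρ' := by
      have := h1.symm.trans (hbase.2.symm.trans h3)
      exact Option.some.inj this
    subst h5
    obtain ⟨t, ht, e1⟩ := h2 g
    obtain ⟨t', ht', e2⟩ := h4 g
    refine ⟨⟨t'⁻¹ * t, T.mul_mem (T.inv_mem ht') ht⟩, ?_⟩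
    rw [e1, e2]
    group
  choose b hb using hb
  -- the action
  let f : G → A := fun g => a0⁻¹ * g * a0
  let θ : G → (T →* T) := fun h => (MulAut.conjNormal (f h)⁻¹ : MulAut T).toMonoidHom
  have hθ : ∀ h (t : T), ((θ h t : T) : A) = (f h)⁻¹ * t * f h := by
    intro h t
    simp only [θ]
    rw [MulEquiv.toMonoidHom_eq_coe, MonoidHom.coe_coe, MulAut.conjNormal_apply, inv_inv]
  have hcoc : ∀ g h : G, b (g * h) = θ h (b g) * b h := by
    intro g h
    apply Subtype.ext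
    have h1 := hb (g * h)
    have h2 : a⁻¹ * ((g * h : G) : A) * a = (a⁻¹ * (g : A) * a) * (a⁻¹ * (h : A) * a) := by
      push_cast
      group
    rw [h2, hb g, hb h] at h1
    have h3 : a0⁻¹ * ((g * h : G) : A) * a0 = f g * f h := by
      simp only [f]
      push_cast
      group
    rw [h3] at h1
    have h4 : ((θ h (b g) * b h : T) : A) = (f h)⁻¹ * (b g) * f h * b h := by
      rw [Subgroup.coe_mul, hθ]
    rw [h4]
    have h5 : f g * f h * ((b (g * h) : T) : A) = f g * ↑(b g) * (f h * ↑(b h)) := h1.symm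
    have h6 : ((b (g * h) : T) : A) = (f g * f h)⁻¹ * (f g * ↑(b g) * (f h * ↑(b h))) := by
      rw [← h5]; group
    rw [h6]
    group
  set β : T := ∏ g : G, b g with hβ
  have hβ2 : ∀ h : G, β = θ h β * b h ^ n := by
    intro h
    have h1 : ∏ g : G, b (g * h) = β := by
      rw [hβ]
      exact Fintype.prod_equiv (Equiv.mulRight h) _ _ (fun g => rfl)
    rw [← h1]
    conv_lhs => rw [Finset.prod_congr rfl (fun g _ => hcoc g h)]
    rw [Finset.prod_mul_distrib, Finset.prod_const, Finset.card_univ, h1, hβ, map_prod]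
  obtain ⟨ρ, hρQ, γ', hγ', hγ2⟩ := hQ β β.2
  have hρT : ρ ∈ T := by
    have h1 : ρ = (γ' ^ n)⁻¹ * β := by rw [hγ2]; group
    rw [h1]
    exact T.mul_mem (T.inv_mem (T.pow_mem hγ' n)) β.2
  set ρT : T := ⟨ρ, hρT⟩ with hρTdef
  set γ : T := ⟨γ', hγ'⟩ with hγ
  have hγn : γ ^ n * ρT = β := Subtype.ext hγ2.symm
  let b' : G → T := fun h => b h * (γ * (θ h γ)⁻¹)⁻¹
  have hb'n : ∀ h, b' h ^ n = (θ h ρT)⁻¹ * ρT := by
    intro h
    have h1 := hβ2 h
    have h2 : b h ^ n = (θ h β)⁻¹ * β := by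
      have h3 : (θ h β)⁻¹ * β = (θ h β)⁻¹ * (θ h β * b h ^ n) := congrArg _ h1
      rw [h3, inv_mul_cancel_left]
    have h4 : (γ * (θ h γ)⁻¹) ^ n = γ ^ n * (θ h (γ ^ n))⁻¹ := by
      rw [mul_pow, inv_pow, ← map_pow]
    simp only [b']
    rw [mul_pow, inv_pow, h4, h2, ← hγn, map_mul, mul_inv, mul_inv, inv_inv]
    have h5 : ∀ x y z w : T, x⁻¹ * y⁻¹ * (z * w) * (z⁻¹ * x) = y⁻¹ * w := fun x y z w => by
      rw [mul_comm z⁻¹ x, mul_assoc, mul_assoc, mul_comm (y⁻¹) _]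
      rw [show z * w * (x * z⁻¹) = x * w by
        rw [mul_comm x z⁻¹, ← mul_assoc, mul_comm z w, mul_assoc w z, mul_inv_cancel, mul_one,
          mul_comm]]
      rw [mul_assoc, ← mul_assoc x⁻¹, inv_mul_cancel, one_mul, mul_comm]
    exact h5 _ _ _ _
  set a' : A := a * (γ : A)⁻¹ with ha'
  have hconj : ∀ g : G, a'⁻¹ * (g : A) * a' = a0⁻¹ * g * a0 * ((b' g : T) : A) := by
    intro g
    have h1 : a'⁻¹ * (g : A) * a' = γ * (a⁻¹ * (g : A) * a) * (γ : A)⁻¹ := by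
      rw [ha']; group
    rw [h1, hb g]
    have h2 : (γ : A) * (a0⁻¹ * g * a0 * ((b g : T) : A)) * (γ : A)⁻¹ =
        f g * (((θ g γ : T) : A) * ((b g : T) : A) * (γ : A)⁻¹) := by
      rw [hθ]
      simp only [f]
      group
    rw [h2]
    have h3 : ((θ g γ : T) : A) * ((b g : T) : A) * (γ : A)⁻¹ = ((b' g : T) : A) := by
      have h4 : θ g γ * b g * γ⁻¹ = b' g := by
        simp only [b']
        rw [mul_inv_rev, inv_inv, mul_comm (θ g γ) (b g), mul_assoc]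
      have := congrArg Subtype.val h4
      simpa using this
    rw [h3]
  set e : G → A := fun g => a0⁻¹ * (g : A) * a0 * ((b' g : T) : A) with he
  have heE : e ∈ E := by
    refine Set.mem_iUnion.2 ⟨cls a, Set.mem_iUnion₂.2 ⟨ρ, hρQ, fun g => ((b' g : T) : A), ?_, rfl⟩⟩
    intro g _
    refine ⟨(b' g).2, ?_⟩
    have h1 : ((b' g ^ n : T) : A) = (((θ g ρT)⁻¹ * ρT : T) : A) := congrArg _ (hb'n g)
    have h2 : (((θ g ρT)⁻¹ * ρT : T) : A) = ((f g)⁻¹ * ρ * f g)⁻¹ * ρ := by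
      rw [Subgroup.coe_mul, Subgroup.coe_inv, hθ]
    exact (Subgroup.coe_pow T (b' g) n).symm.trans (h1.trans h2)
  have ha'H : a' ∈ H := H.mul_mem haH (H.inv_mem (hTH γ.2))
  have hex : ∃ x : A, x ∈ H ∧ ∀ g : G, x⁻¹ * (g : A) * x = e g := ⟨a', ha'H, hconj⟩
  have hrep2 : rep e = hex.choose := by simp only [rep]; rw [dif_pos hex]
  have hrepH : rep e ∈ H := by rw [hrep2]; exact hex.choose_spec.1
  have hrep : ∀ g : G, (rep e)⁻¹ * (g : A) * rep e = e g := by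
    intro g
    rw [hrep2]
    exact hex.choose_spec.2 g
  refine ⟨rep e, Finset.mem_image_of_mem _ ((Set.Finite.mem_toFinset _).2 heE), a' * (rep e)⁻¹,
    H.mul_mem ha'H (H.inv_mem hrepH), ?_, γ, γ.2, ?_⟩
  · intro g hg
    have h1 := (hconj ⟨g, hg⟩).trans (hrep ⟨g, hg⟩).symm
    simp only at h1
    calc a' * (rep e)⁻¹ * g = a' * ((rep e)⁻¹ * g * rep e) * (rep e)⁻¹ := by group
      _ = a' * (a'⁻¹ * g * a') * (rep e)⁻¹ := by rw [h1]
      _ = g * (a' * (rep e)⁻¹) := by group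
  · rw [ha']; group

end Pool.Agent.Y95.KM
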