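import Pool.Agent.Y167.ConeDef

/-!
# Numerical data for movable cones: definitions used in the statements

`cone S` (in `Pool.Agent.Y167.ConeDef`) is the convex cone generated by a finite set `S`.
-/

set_option autoImplicit false

namespace Pool.Agent.Y95.KM

open Pool.Agent.Y167 (cone)

/-- A real vector space `W` with a group `lat` of integral classes, two sets of classes and an action
of a group `A` on `W` (for a `ℚ`-factorial projective variety: `N^1(X)`, the classes of divisors, the
closed movable cone, the cone of effective classes, and a group of birational self-maps which are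
isomorphisms in codimension one, where `a` acts by the push-forward). -/
structure MvNum (W A : Type*) [NormedAddCommGroup W] [NormedSpace ℝ W] [Group A] where
  /-- the integral classes -/
  lat : AddSubgroup W
  /-- the closed movable cone -/
  mov : Set W
  /-- the effective classes -/
  eff : Set W
  /-- the action -/
  act : A →* (W ≃ₗ[ℝ] W)

namespace MvNum

variable {W A : Type*} [NormedAddCommGroup W] [NormedSpace ℝ W] [Group A]

/-- The effective movable cone. -/
def movEff (X : MvNum W A) : Set W := X.mov ∩ X.eff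

/-- The standard properties of the movable cone. -/
structure Good (X : MvNum W A) : Prop where
  /-- the integral classes form a lattice -/
  lattice : ∃ (n : ℕ) (b : Module.Basis (Fin n) ℝ W),
    ∀ x, x ∈ X.lat ↔ ∀ i, ∃ m : ℤ, b.repr x i = m
  isClosed : IsClosed X.mov
  add : ∀ x ∈ X.mov, ∀ y ∈ X.mov, x + y ∈ X.mov
  smul : ∀ t : ℝ, 0 ≤ t → ∀ x ∈ X.mov, t • x ∈ X.mov
  nonempty : (interior X.mov).Nonempty
  /-- the movable cone contains no line -/
  pointed : ∀ x, x ∈ X.mov → -x ∈ X.mov → x = 0
  /-- classes in the interior of the movable cone are effective -/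
  int_eff : interior X.mov ⊆ X.eff
  eff_add : ∀ x ∈ X.eff, ∀ y ∈ X.eff, x + y ∈ X.eff
  eff_smul : ∀ t : ℝ, 0 < t → ∀ x ∈ X.eff, t • x ∈ X.eff
  act_lat : ∀ a, ∀ x ∈ X.lat, X.act a x ∈ X.lat
  act_mov : ∀ a, ∀ x ∈ X.mov, X.act a x ∈ X.mov
  act_eff : ∀ a, ∀ x ∈ X.eff, X.act a x ∈ X.eff

/-- The movable cone conjecture: there is a rational polyhedral cone, generated by a finite set `S` of
integral classes, which is a fundamental domain for the action on the effective movable cone. -/
def ConeConj (X : MvNum W A) : Prop :=
  ∃ S : Finset W, ↑S ⊆ (X.lat : Set W) ∧ X.movEff = ⋃ a : A, X.act a '' cone S ∧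
    ∀ a : A, X.act a ≠ 1 → interior (cone S) ∩ interior (X.act a '' cone S) = ∅

/-- The kernel of the action is, up to finite index, a divisible abelian group `T`, normal in `A`, with
finitely many elements of each order. (If `K_X` is numerically trivial: `T` is the group of points of
the abelian variety `Aut⁰(X)`; a birational self-map which acts trivially on `N^1(X)` is an
automorphism, and these form a group scheme with finitely many components.) -/
def AbelianKernel (X : MvNum W A) : Prop :=
  ∃ T : Subgroup A, T.Normal ∧ T ≤ X.act.ker ∧ T.relIndex X.act.ker ≠ 0 ∧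
    (∀ s ∈ T, ∀ t ∈ T, s * t = t * s) ∧ (∀ n : ℕ, 0 < n → ∀ t ∈ T, ∃ s ∈ T, s ^ n = t) ∧
    ∀ n : ℕ, 0 < n → {t | t ∈ T ∧ t ^ n = 1}.Finite

variable {W' B : Type*} [NormedAddCommGroup W'] [NormedSpace ℝ W'] [Group B]

/-- `Y` is the quotient of `X` by the finite group `G`, and `q : N^1(Y) → N^1(X)` is the pullback. -/
structure IsQuotient (X : MvNum W A) (G : Subgroup A) (Y : MvNum W' B) (q : W' →ₗ[ℝ] W) :
    Prop where
  inj : Function.Injective q
  /-- the pullbacks are the classes fixed by `G` -/
  range : ∀ x, (∃ y, q y = x) ↔ ∀ g ∈ G, X.act g x = x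
  /-- pullbacks of integral classes are integral -/
  lat : ∀ y ∈ Y.lat, q y ∈ X.lat
  /-- up to a multiple, a class is integral if its pullback is -/
  lat' : ∃ k : ℕ, 0 < k ∧ ∀ y, q y ∈ X.lat → k • y ∈ Y.lat
  /-- a class is in the movable cone if and only if its pullback is -/
  mov : ∀ y, y ∈ Y.mov ↔ q y ∈ X.mov
  /-- a class is effective if and only if its pullback is -/
  eff : ∀ y, y ∈ Y.eff ↔ q y ∈ X.eff
  /-- a birational self-map of `X` which commutes with `G` induces a birational self-map of `Y` -/
  desc : ∀ a : A, (∀ g ∈ G, a * g = g * a) → ∃ b : B, ∀ y, q (Y.act b y) = X.act a (q y)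

/-- `P` is the product of the `X i`; the group of `P` contains the products of elements of the
groups of the `X i`. (At most one `X i` may have nonzero first Betti number.) -/
structure IsProduct {ι : Type*} [Fintype ι] {W A : ι → Type*} [∀ i, NormedAddCommGroup (W i)]
    [∀ i, NormedSpace ℝ (W i)] [∀ i, Group (A i)] (X : ∀ i, MvNum (W i) (A i))
    (P : MvNum (∀ i, W i) B) : Prop where
  lat : ∀ x, x ∈ P.lat ↔ ∀ i, x i ∈ (X i).lat
  mov : ∀ x, x ∈ P.mov ↔ ∀ i, x i ∈ (X i).mov
  eff : ∀ x, x ∈ P.eff ↔ ∀ i, x i ∈ (X i).eff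
  prod : ∀ a : ∀ i, A i, ∃ b : B, ∀ x i, P.act b x i = (X i).act (a i) (x i)

end MvNum

end Pool.Agent.Y95.KM
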