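import Pool.Agent.Y95.KM.Defs
import Pool.Agent.Y95.KM.MvDefs

/-!
# Finite quotients in the relative case: definitions used in the statements
-/

set_option autoImplicit false

namespace Pool.Agent.Y95.KM

variable {W A : Type*} [NormedAddCommGroup W] [NormedSpace ℝ W] [Group A]
variable {W' B : Type*} [NormedAddCommGroup W'] [NormedSpace ℝ W'] [Group B]

/-- Up to finite index, the kernel of the action is an abelian group `T`, normal in `A` and contained
in `H`, such that `T[n]` and `T/T^n` are finite for every `n > 0`. (If `(X/Z, Δ)` is a klt log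
Calabi–Yau pair over `Z`, `H` its group of automorphisms over `Z`, and `A` the group generated by `H`
and by a finite group which acts on `X` and `Z`: `T` is contained in the Mordell–Weil group of the
abelian variety `Aut⁰` of the generic fibre, and by the theorem of Lang and Néron it is an extension
of a finitely generated group by the divisible group of points of a complex abelian variety.) -/
def Num.MordellWeilKernel (X : Num W A) (H : Subgroup A) : Prop :=
  ∃ T : Subgroup A, T ≤ H ∧ T.Normal ∧ T ≤ X.act.ker ∧ T.relIndex X.act.ker ≠ 0 ∧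
    (∀ s ∈ T, ∀ t ∈ T, s * t = t * s) ∧ ∀ n : ℕ, 0 < n → {t | t ∈ T ∧ t ^ n = 1}.Finite ∧
      ∃ Q : Finset A, ∀ t ∈ T, ∃ ρ ∈ Q, ∃ s ∈ T, t = s ^ n * ρ

/-- The same for the data of the movable cone. -/
def MvNum.MordellWeilKernel (X : MvNum W A) (H : Subgroup A) : Prop :=
  ∃ T : Subgroup A, T ≤ H ∧ T.Normal ∧ T ≤ X.act.ker ∧ T.relIndex X.act.ker ≠ 0 ∧
    (∀ s ∈ T, ∀ t ∈ T, s * t = t * s) ∧ ∀ n : ℕ, 0 < n → {t | t ∈ T ∧ t ^ n = 1}.Finite ∧
      ∃ Q : Finset A, ∀ t ∈ T, ∃ ρ ∈ Q, ∃ s ∈ T, t = s ^ n * ρ

/-- The same classes with the action of the subgroup `H`. -/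
def MvNum.restrict (X : MvNum W A) (H : Subgroup A) : MvNum W H where
  lat := X.lat
  mov := X.mov
  eff := X.eff
  act := X.act.comp H.subtype

/-- `Y` is the quotient of `X` by the finite group `G`, `q : N^1(Y) → N^1(X)` is the pullback, and the
elements of `H` which commute with `G` act on `Y`. -/
structure MvNum.IsQuotientRel (X : MvNum W A) (H G : Subgroup A) (Y : MvNum W' B)
    (q : W' →ₗ[ℝ] W) : Prop where
  inj : Function.Injective q
  /-- the pullbacks are the classes fixed by `G` -/
  range : ∀ x, (∃ y, q y = x) ↔ ∀ g ∈ G, X.act g x = x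
  /-- pullbacks of integral classes are integral -/
  lat : ∀ y ∈ Y.lat, q y ∈ X.lat
  /-- up to a multiple, a class is integral if its pullback is -/
  lat' : ∃ k : ℕ, 0 < k ∧ ∀ y, q y ∈ X.lat → k • y ∈ Y.lat
  /-- a class is in the movable cone if and only if its pullback is -/
  mov : ∀ y, y ∈ Y.mov ↔ q y ∈ X.mov
  /-- a class is effective if and only if its pullback is -/
  eff : ∀ y, y ∈ Y.eff ↔ q y ∈ X.eff
  /-- an element of `H` which commutes with `G` induces a pseudo-automorphism of `Y` -/
  desc : ∀ a ∈ H, (∀ g ∈ G, a * g = g * a) → ∃ b : B, ∀ y, q (Y.act b y) = X.act a (q y)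

end Pool.Agent.Y95.KM
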