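import Pool.Agent.Y95.KM.Main
import Pool.Agent.Y95.KM.Grp2
import Pool.Agent.Y95.KM.RelDefs
import Pool.Agent.Y95.KM.Contr
import Pool.Agent.Y95.KM.Mv

/-!
# Descent of the relative cone conjecture to quotients by finite groups
-/

set_option autoImplicit false

namespace Pool.Agent.Y95.KM

open Finset Filter Topology
open Pool.Agent.Y167

variable {W A : Type*} [NormedAddCommGroup W] [NormedSpace ℝ W] [Group A] {X : Num W A}

variable {W' B : Type*} [NormedAddCommGroup W'] [NormedSpace ℝ W'] [Group B] {Y : Num W' B}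
  {G H : Subgroup A} {q : W' →ₗ[ℝ] W}

/-- **The cone conjecture descends to quotients by finite groups**, relative version. -/
theorem descend_rel2 (h : X.Good) (hHG : ∀ a, ∃ g ∈ G, ∃ b ∈ H, a = g * b) {T : Subgroup A}
    (hTH : T ≤ H) (hTn : T.Normal) (hTk : T ≤ X.act.ker) (hTi : T.relIndex X.act.ker ≠ 0)
    (hTc : ∀ s ∈ T, ∀ t ∈ T, s * t = t * s) (hTd : ∀ n : ℕ, 0 < n →
      ∃ Q : Finset A, ∀ t ∈ T, ∃ ρ ∈ Q, ∃ s ∈ T, t = s ^ n * ρ)
    (hTt : ∀ n : ℕ, 0 < n → {t | t ∈ T ∧ t ^ n = 1}.Finite) (h' : Y.Good) [Finite G]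
    (hq : X.IsQuotientRel H G Y q) (hc : (X.restrict H).ConeConj) : Y.ConeConj := by
  classical
  have := h.finDim
  obtain ⟨ξ₀, y₀, Y0, D, hy₀⟩ := h.exists_cdata
  obtain ⟨ξ, S, ⟨c, hc0, hξc⟩, hS, hcS, hdir, hCp⟩ := h.of_conj (h.of_restrict H hc) D hy₀
  have hΓ := siegel D X.act.range
    (by rintro _ ⟨a, rfl⟩ x hx; exact h.act_lat a x hx)
    (by rintro _ ⟨a, rfl⟩ x hx; exact h.act_nef a hx) hc0 hξc S hS hdir
  obtain ⟨R, hR⟩ := exists_reps X T hTi _ hΓ (fun γ hγ => hγ.1)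
  obtain ⟨T0, hT0⟩ := conj_finite2 G T H hTH hTn hTc hTd hTt R
  -- the pieces
  have hpiece : ∀ a : A, ∃ F : Finset W', (∀ s ∈ F, s ∈ Y.lat ∧ s ∈ Y.nef) ∧
      ∀ y, q y ∈ cone (S.image (X.act a)) → y ∈ cone F := fun a =>
    quot_cone h h' hq (S.image (X.act a)) (by
      intro s hs
      obtain ⟨b, hb, rfl⟩ := Finset.mem_image.1 hs
      exact ⟨h.act_lat a b (hS b hb).1, h.act_nef a (hS b hb).2⟩)
  choose F hF hF2 using hpiece
  refine h'.conj_of_cover (T0.biUnion F) ?_ ?_ ?_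
  · intro s hs
    obtain ⟨a, -, ha⟩ := Finset.mem_biUnion.1 hs
    exact hF a s ha
  · intro y hy
    have hx : q y ∈ X.amp := (hq.amp y).1 hy
    have hx2 : q y ∈ Cp X.lat X.nef := by
      rw [← hCp]; exact ⟨subset_closure hx, h.amp_eff hx⟩
    obtain ⟨_, ⟨a2, rfl⟩, ha2⟩ := (hcS _).1 hx2
    obtain ⟨a0, ha0H, ha0⟩ : ∃ a0 ∈ H, X.act a0 (q y) ∈ cone S := by
      obtain ⟨g, hg, b, hb, he⟩ := hHG a2⁻¹
      refine ⟨b⁻¹, H.inv_mem hb, ?_⟩
      have h1 : a2 = b⁻¹ * g⁻¹ := by rw [← inv_inv a2, he, mul_inv_rev]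
      have h2 : X.act g⁻¹ (q y) = q y := (hq.range (q y)).1 ⟨y, rfl⟩ _ (G.inv_mem hg)
      have h3 : X.act a2 (q y) = X.act b⁻¹ (q y) := by rw [h1, act_mul, h2]
      rw [← h3]
      exact ha2
    set z := X.act a0 (q y) with hz
    have hzamp : z ∈ X.amp := h.act_amp a0 _ hx
    have hcond : ∀ g ∈ G, ∃ r ∈ R, ∃ t ∈ T, (a0⁻¹)⁻¹ * g * a0⁻¹ = r * t := by
      intro g hg
      apply hR
      refine ⟨⟨_, rfl⟩, z, ha0, inn_of_amp h D hzamp, ?_⟩
      have h1 : X.act ((a0⁻¹)⁻¹ * g * a0⁻¹) z = z := by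
        rw [act_mul, act_mul, hz, act_inv_act, (hq.range (q y)).1 ⟨y, rfl⟩ g hg, inv_inv]
      rw [h1]
      exact ha0
    obtain ⟨a1, ha1, cc, hccH, hcc, t, ht, he⟩ := hT0 a0⁻¹ (H.inv_mem ha0H) hcond
    have hact : ∀ x, X.act a0⁻¹ x = X.act cc (X.act a1 x) := by
      intro x
      rw [he, act_mul, act_mul]
      have h1 : X.act t = 1 := hTk ht
      rw [h1]
      rfl
    have hinv : ∀ g ∈ G, cc⁻¹ * g = g * cc⁻¹ := by
      intro g hg
      have h1 := hcc g hg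
      calc cc⁻¹ * g = cc⁻¹ * (g * cc) * cc⁻¹ := by group
        _ = cc⁻¹ * (cc * g) * cc⁻¹ := by rw [h1]
        _ = g * cc⁻¹ := by group
    obtain ⟨b, hb⟩ := hq.desc cc⁻¹ (H.inv_mem hccH) hinv
    refine ⟨b, cone_mono (Finset.subset_biUnion_of_mem F ha1) (hF2 a1 _ ?_)⟩
    rw [hb]
    have h2 : X.act cc⁻¹ (q y) = X.act a1 z := by
      have h3 : q y = X.act cc (X.act a1 z) := by
        rw [← hact, hz, act_inv_act]
      rw [h3, act_inv_act]
    rw [h2]
    exact cone_image (X.act a1 : W →ₗ[ℝ] W) ha0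
  · ext y
    rw [quot_Cp h h' hq, ← hCp]
    constructor
    · rintro ⟨h1, h2⟩
      exact ⟨(quot_nef h h' hq y).1 h1, (hq.eff y).1 h2⟩
    · rintro ⟨h1, h2⟩
      exact ⟨(quot_nef h h' hq y).2 h1, (hq.eff y).2 h2⟩


/-- **Relative descent.** -/
theorem descend_mw (h : X.Good) (hHG : ∀ a, ∃ g ∈ G, ∃ b ∈ H, a = g * b)
    (hK : X.MordellWeilKernel H) (h' : Y.Good) [Finite G] (hq : X.IsQuotientRel H G Y q)
    (hc : (X.restrict H).ConeConj) : Y.ConeConj := by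
  obtain ⟨T, hTH, hTn, hTk, hTi, hTc, hTt⟩ := hK
  exact descend_rel2 h hHG hTH hTn hTk hTi hTc (fun n hn => (hTt n hn).2)
    (fun n hn => (hTt n hn).1) h' hq hc

namespace MvNum

/-- **Relative descent**, movable version. -/
theorem descend_mw {X : MvNum W A} {Y : MvNum W' B} (h : X.Good)
    (hHG : ∀ a, ∃ g ∈ G, ∃ b ∈ H, a = g * b)
    (hK : X.MordellWeilKernel H) (h' : Y.Good) [Finite G] (hq : X.IsQuotientRel H G Y q)
    (hc : (X.restrict H).ConeConj) : Y.ConeConj := by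
  have h1 : X.toNum.IsQuotientRel H G Y.toNum q := by
    refine ⟨hq.inj, hq.range, hq.lat, hq.lat', ?_, hq.eff, hq.desc⟩
    classical
    have : Fintype G := Fintype.ofFinite G
    obtain ⟨n, b, -⟩ := h'.lattice
    have : FiniteDimensional ℝ W' := Module.Finite.of_basis b
    have hc : Continuous q := q.continuous_of_finiteDimensional
    obtain ⟨z₀, hz₀⟩ := h.nonempty
    have hz : ∑ g : G, X.act (g : A) z₀ ∈ interior X.mov := by
      refine Finset.sum_induction_nonempty _ (fun x => x ∈ interior X.mov)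
        (fun x y hx hy => h.int_add hx (interior_subset hy)) Finset.univ_nonempty ?_
      exact fun g _ => h.act_int _ hz₀
    obtain ⟨w, hw⟩ := (hq.range (∑ g : G, X.act (g : A) z₀)).2 fun g hg => by
      rw [map_sum]
      refine Fintype.sum_equiv (Equiv.mulLeft (⟨g, hg⟩ : G)) _ _ fun g' => ?_
      simp only [Equiv.coe_mulLeft, Subgroup.coe_mul, map_mul]
      rfl
    intro y
    change y ∈ interior Y.mov ↔ q y ∈ interior X.mov
    constructor
    · intro hy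
      obtain ⟨t, ht, h1⟩ := int_sub hy w
      refine h.int_of_sub ht (hw ▸ hz) ?_
      rw [← map_smul, ← map_sub]
      exact (hq.mov _).1 h1
    · intro hy
      rw [mem_interior] at hy ⊢
      obtain ⟨U, hU, hUo, hyU⟩ := hy
      exact ⟨q ⁻¹' U, fun z hz => (hq.mov z).2 (hU hz), hUo.preimage hc, hyU⟩
  have h2 : (X.restrict H).Good := ⟨h.lattice, h.isClosed, h.add, h.smul, h.nonempty, h.pointed,
    h.int_eff, h.eff_add, h.eff_smul, fun a => h.act_lat a.1, fun a => h.act_mov a.1,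
    fun a => h.act_eff a.1⟩
  have h3 : (X.toNum.restrict H).ConeConj := h2.conj_iff.2 hc
  exact h'.conj_iff.1 (KM.descend_mw h.toNum hHG hK h'.toNum h1 h3)

end MvNum

end Pool.Agent.Y95.KM
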