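import Pool.Agent.Y95.KM.Red
import Pool.Agent.Y95.KM.Main2

/-!
# The cone conjecture for a subgroup
-/

set_option autoImplicit false

namespace Pool.Agent.Y95.KM

open Finset Filter Topology
open Pool.Agent.Y167

variable {W A : Type*} [NormedAddCommGroup W] [NormedSpace ℝ W] [Group A] {X : Num W A}

/-- finitely many elements of the group have bounded degree on an ample class -/
theorem finite_le (h : X.Good) (ξ : W →ₗ[ℝ] ℝ) {m : ℝ} (hm : 0 < m)
    (hξ : ∀ x ∈ X.nef, m * ‖x‖ ≤ ξ x) {x : W} (hx : x ∈ X.amp) (B : ℝ) :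
    {g : W ≃ₗ[ℝ] W | g ∈ X.act.range ∧ ξ (g x) ≤ B}.Finite := by
  classical
  have := h.finDim
  obtain ⟨ξ₀, y₀, Y0, D, hy₀⟩ := h.exists_cdata
  obtain ⟨t, ht, hxt⟩ : ∃ t : ℝ, 0 < t ∧ x - t • y₀ ∈ X.amp := by
    have h2 : Tendsto (fun t : ℝ => x - t • y₀) (𝓝 0) (𝓝 x) := by
      have hc : Continuous fun t : ℝ => x - t • y₀ := by fun_prop
      have := hc.tendsto 0
      simpa using this
    have h3 : ∀ᶠ t : ℝ in 𝓝 0, x - t • y₀ ∈ X.amp := h2.eventually (h.isOpen.mem_nhds hx)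
    have h4 : ∃ᶠ t : ℝ in 𝓝 0, 0 < t := by
      have : ∀ᶠ t : ℝ in 𝓝[>] 0, 0 < t := eventually_mem_nhdsWithin
      exact (this.frequently).filter_mono nhdsWithin_le_nhds
    obtain ⟨t, ht0, ht⟩ := (h4.and_eventually h3).exists
    exact ⟨t, ht0, ht⟩
  set L : ℝ := ‖LinearMap.toContinuousLinearMap ξ₀‖ with hL
  have hL0 : 0 ≤ L := norm_nonneg _
  have hcomp : ∀ z ∈ X.nef, ξ₀ z ≤ L / m * ξ z := by
    intro z hz
    have h1 : ξ₀ z ≤ L * ‖z‖ :=
      (le_abs_self _).trans ((LinearMap.toContinuousLinearMap ξ₀).le_opNorm z)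
    have h2 : ‖z‖ ≤ ξ z / m := by
      rw [le_div_iff₀ hm, mul_comm]
      exact hξ z hz
    calc ξ₀ z ≤ L * ‖z‖ := h1
      _ ≤ L * (ξ z / m) := mul_le_mul_of_nonneg_left h2 hL0
      _ = L / m * ξ z := by ring
  have hY : ∃ C : ℝ, 0 ≤ C ∧ ∀ y ∈ Y0, C • y₀ - y ∈ X.nef := by
    choose C hC hC2 using D.y_int
    refine ⟨∑ y ∈ Y0, C y, Finset.sum_nonneg fun y _ => (hC y).le, fun y hy => ?_⟩
    have h1 : (∑ y ∈ Y0, C y) • y₀ - y = (C y • y₀ - y) + (∑ z ∈ Y0.erase y, C z) • y₀ := by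
      rw [← Finset.add_sum_erase Y0 C hy, add_smul]; abel
    rw [h1]
    exact h.nef_add (hC2 y) (h.nef_smul (Finset.sum_nonneg fun z _ => (hC z).le) (subset_closure hy₀))
  obtain ⟨C, hC0, hC⟩ := hY
  refine (D.finite_small X.act.range (by rintro _ ⟨a, rfl⟩ x hx; exact h.act_lat a x hx)
      (by rintro _ ⟨a, rfl⟩ x hx; exact h.act_nef a hx)
      (C * (L / m * (B / t)))).subset ?_
  rintro _ ⟨⟨a, rfl⟩, hgx⟩
  refine ⟨⟨a, rfl⟩, fun y hy => ?_⟩
  have h1 : ξ₀ (X.act a y) ≤ C * ξ₀ (X.act a y₀) := by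
    have h2 := D.xi_nonneg (h.act_nef a (hC y hy))
    rw [map_sub, map_smul, map_sub, map_smul, smul_eq_mul] at h2
    linarith
  have h3 : ξ₀ (X.act a y₀) ≤ L / m * ξ (X.act a y₀) :=
    hcomp _ (h.act_nef a (subset_closure hy₀))
  have h4 : ξ (X.act a y₀) ≤ B / t := by
    have h5 := le_trans (mul_nonneg hm.le (norm_nonneg _)) (hξ _ (h.act_nef a (subset_closure hxt)))
    rw [map_sub, map_smul, map_sub, map_smul, smul_eq_mul] at h5
    rw [le_div_iff₀ ht]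
    linarith
  have h6 : L / m * ξ (X.act a y₀) ≤ L / m * (B / t) :=
    mul_le_mul_of_nonneg_left h4 (by positivity)
  exact h1.trans (mul_le_mul_of_nonneg_left (h3.trans h6) hC0)

/-- minimal degrees on a polyhedral cone are attained by finitely many elements -/
theorem dickson_min (h : X.Good) {S : Finset W} (hS : ∀ s ∈ S, s ∈ X.lat ∧ s ∈ X.nef)
    (ξ : W →ₗ[ℝ] ℝ) (hξL : ∀ x ∈ X.lat, ∃ k : ℤ, ξ x = k) (hξn : ∀ x ∈ X.nef, 0 ≤ ξ x) :
    ∃ T : Set A, T.Finite ∧ ∀ w ∈ cone S, ∃ t ∈ T, ∀ γ, ξ (X.act t w) ≤ ξ (X.act γ w) := by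
  classical
  have := h.finDim
  have hv : ∀ (a : A) (s : S), ∃ k : ℕ, ξ (X.act a s) = k := by
    intro a s
    obtain ⟨k, hk⟩ := hξL _ (h.act_lat a _ (hS s s.2).1)
    have h1 := hξn _ (h.act_nef a (hS s s.2).2)
    rw [hk] at h1
    have h2 : 0 ≤ k := by exact_mod_cast h1
    refine ⟨k.toNat, ?_⟩
    rw [hk]
    have h3 := Int.toNat_of_nonneg h2
    exact_mod_cast h3.symm
  choose v hv using hv
  obtain ⟨T, hT, hTv⟩ := dickson (fun (a : A) (i : Fin S.card) => v a (S.equivFin.symm i))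
  refine ⟨T, hT, ?_⟩
  rintro w ⟨c, hc, hw⟩
  have hsum : ∀ g : A, ξ (X.act g w) = ∑ s : S, c s * v g s := by
    intro g
    rw [hw, map_sum, map_sum, ← Finset.sum_coe_sort S]
    refine Finset.sum_congr rfl fun s _ => ?_
    rw [map_smul, map_smul, smul_eq_mul, hv]
  have hTne : T.Nonempty := by
    obtain ⟨t, ht, -⟩ := hTv 1
    exact ⟨t, ht⟩
  obtain ⟨t, ht, hmin⟩ := Set.exists_min_image T (fun g => ξ (X.act g w)) hT hTne
  refine ⟨t, ht, fun g => ?_⟩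
  obtain ⟨t', ht', hle⟩ := hTv g
  refine (hmin t' ht').trans ?_
  change ξ (X.act t' w) ≤ ξ (X.act g w)
  rw [hsum, hsum]
  refine Finset.sum_le_sum fun s _ => mul_le_mul_of_nonneg_left ?_ (hc s)
  have h1 := hle (S.equivFin s)
  simp only [Equiv.symm_apply_apply] at h1
  exact_mod_cast h1

/-- **The cone conjecture for a subgroup** is equivalent to the cone conjecture together with the
finiteness of the index of the image of the subgroup. -/
theorem restrict_iff (h : X.Good) (H : Subgroup A) :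
    (X.restrict H).ConeConj ↔ X.ConeConj ∧
      ∃ R : Finset A, ∀ a, ∃ b ∈ H, ∃ r ∈ R, X.act a = X.act (b * r) := by
  classical
  have := h.finDim
  constructor
  · intro hc
    refine ⟨h.of_restrict H hc, ?_⟩
    obtain ⟨S, hSL, hcov, -⟩ := hc
    have hcov' : X.nefEff = ⋃ a : H, X.act a '' cone S := hcov
    have hSn : ∀ s ∈ S, s ∈ X.lat ∧ s ∈ X.nef := fun s hs => by
      refine ⟨hSL hs, ?_⟩
      have h1 : s ∈ X.nefEff := by
        rw [hcov']
        refine Set.mem_iUnion.2 ⟨1, s, mem_cone_self hs, ?_⟩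
        rw [OneMemClass.coe_one, map_one]; rfl
      exact h1.1
    obtain ⟨ξ, m, hm, hξL, hξ⟩ := h.exists_form
    have hξn : ∀ x ∈ X.nef, 0 ≤ ξ x := fun x hx =>
      le_trans (mul_nonneg hm.le (norm_nonneg x)) (hξ x hx)
    obtain ⟨T, hT, hTmin⟩ := dickson_min h hSn ξ hξL hξn
    obtain ⟨y₀, hy₀⟩ := h.nonempty
    have hfin := finite_le h ξ hm hξ hy₀ (ξ y₀)
    -- the finite set of elements of the image
    have hfin2 : (Set.image2 (fun (t : A) (g : W ≃ₗ[ℝ] W) => (X.act t)⁻¹ * g) T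
        {g : W ≃ₗ[ℝ] W | g ∈ X.act.range ∧ ξ (g y₀) ≤ ξ y₀}).Finite := hT.image2 _ hfin
    have hex : ∀ g : W ≃ₗ[ℝ] W, ∃ r : A, g ∈ X.act.range → X.act r = g := by
      intro g
      by_cases hg : g ∈ X.act.range
      · obtain ⟨r, hr⟩ := hg
        exact ⟨r, fun _ => hr⟩
      · exact ⟨1, fun h1 => absurd h1 hg⟩
    choose r hr using hex
    refine ⟨hfin2.toFinset.image r, fun a => ?_⟩
    have hxa : X.act a y₀ ∈ X.nefEff :=
      ⟨subset_closure (h.act_amp a _ hy₀), h.amp_eff (h.act_amp a _ hy₀)⟩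
    rw [hcov'] at hxa
    obtain ⟨b, w, hw, hbw⟩ := Set.mem_iUnion.1 hxa
    obtain ⟨t, ht, htmin⟩ := hTmin w hw
    have h1 : w = X.act ((b : A)⁻¹ * a) y₀ := by
      rw [act_mul, ← hbw, ← act_mul, inv_mul_cancel, map_one]; rfl
    have h2 : ξ (X.act (t * ((b : A)⁻¹ * a)) y₀) ≤ ξ y₀ := by
      rw [act_mul, ← h1]
      refine (htmin ((b : A)⁻¹ * a)⁻¹).trans (le_of_eq ?_)
      rw [h1, ← act_mul, inv_mul_cancel, map_one]; rfl
    have h3 : X.act ((b : A)⁻¹ * a) ∈ Set.image2 (fun (t : A) (g : W ≃ₗ[ℝ] W) => (X.act t)⁻¹ * g) T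
        {g : W ≃ₗ[ℝ] W | g ∈ X.act.range ∧ ξ (g y₀) ≤ ξ y₀} := by
      refine ⟨t, ht, X.act (t * ((b : A)⁻¹ * a)), ⟨⟨_, rfl⟩, h2⟩, ?_⟩
      change (X.act t)⁻¹ * X.act (t * ((b : A)⁻¹ * a)) = X.act ((b : A)⁻¹ * a)
      rw [map_mul X.act t, inv_mul_cancel_left]
    refine ⟨b, b.2, r (X.act ((b : A)⁻¹ * a)), Finset.mem_image_of_mem _ (hfin2.mem_toFinset.2 h3), ?_⟩
    rw [map_mul, hr _ ⟨_, rfl⟩, ← map_mul, mul_inv_cancel_left]
  · rintro ⟨hc, R, hR⟩
    have hCp : X.nefEff = Cp X.lat X.nef := h.nefEff_eq hc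
    obtain ⟨S, hSL, hcov, -⟩ := hc
    have hcS : ∀ w ∈ cone S, w ∈ X.nefEff := fun w hw => by
      rw [hcov]
      refine Set.mem_iUnion.2 ⟨1, w, hw, ?_⟩
      rw [map_one]; rfl
    have hact : ∀ r : A, ∀ w ∈ X.nefEff, X.act r w ∈ X.nefEff := fun r w hw =>
      ⟨h.act_nef r hw.1, h.act_eff r w hw.2⟩
    refine (h.restrict H).conj_of_cover2 (R.biUnion fun r => S.image (X.act r)) ?_
      (hcS 0 (zero_mem_cone S)).2 ?_ ?_
    · intro s hs
      obtain ⟨r, hr, hs⟩ := Finset.mem_biUnion.1 hs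
      obtain ⟨s', hs', rfl⟩ := Finset.mem_image.1 hs
      exact ⟨h.act_lat r s' (hSL hs'), hact r s' (hcS s' (mem_cone_self hs'))⟩
    · intro x hx
      have hx' : x ∈ X.nefEff := ⟨subset_closure hx, h.amp_eff hx⟩
      rw [hcov] at hx'
      obtain ⟨a, w, ⟨c, hc, hw⟩, rfl⟩ := Set.mem_iUnion.1 hx'
      obtain ⟨b, hb, r, hr, hbr⟩ := hR a
      refine ⟨⟨b⁻¹, H.inv_mem hb⟩, ?_⟩
      change X.act b⁻¹ (X.act a w) ∈ cone _
      rw [hbr, ← act_mul, inv_mul_cancel_left, hw, map_sum]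
      refine cone_sum _ _ fun s hs => ?_
      rw [map_smul]
      exact cone_smul (mem_cone_self (Finset.mem_biUnion.2 ⟨r, hr, Finset.mem_image_of_mem _ hs⟩)) (hc s)
    · change X.nefEff ⊆ Cp X.lat X.nef
      exact hCp.le

namespace MvNum

theorem restrict_iff {X : MvNum W A} (h : X.Good) (H : Subgroup A) :
    (X.restrict H).ConeConj ↔ X.ConeConj ∧
      ∃ R : Finset A, ∀ a, ∃ b ∈ H, ∃ r ∈ R, X.act a = X.act (b * r) := by
  have h2 : (X.restrict H).Good := ⟨h.lattice, h.isClosed, h.add, h.smul, h.nonempty, h.pointed,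
    h.int_eff, h.eff_add, h.eff_smul, fun a => h.act_lat a, fun a => h.act_mov a,
    fun a => h.act_eff a⟩
  have h3 := KM.restrict_iff h.toNum H
  have h4 : (X.toNum.restrict H).ConeConj ↔ (X.restrict H).ConeConj := h2.conj_iff
  rw [h4, h.conj_iff] at h3
  exact h3

end MvNum

end Pool.Agent.Y95.KM
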