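import Pool.Agent.Y95.KM.MvDefs

/-!
# Cusps of the movable cone: definitions used in the statements
-/

set_option autoImplicit false

namespace Pool.Agent.Y95.KM

open Topology
open Pool.Agent.Y167 (cone)

namespace MvNum

variable {W A : Type*} [NormedAddCommGroup W] [NormedSpace ℝ W] [Group A]

/-- Near `x` the movable cone is contained in a cone generated by finitely many integral classes which
are movable and effective. (For a `ℚ`-factorial klt Calabi–Yau pair this holds at the big classes of
the closed movable cone.) -/
def PolyhedralAt (X : MvNum W A) (x : W) : Prop :=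
  ∃ U ∈ 𝓝 x, ∃ F : Finset W, (∀ s ∈ F, s ∈ X.lat ∧ s ∈ X.movEff) ∧ X.mov ∩ U ⊆ cone F

/-- `x` is not effective and there are pseudo-automorphisms which make it arbitrarily small. -/
def Contracted (X : MvNum W A) (x : W) : Prop :=
  x ∉ X.eff ∧ (0 : W) ∈ closure (Set.range fun a => X.act a x)

/-- The standard properties of (a multiple of) the class `f` on `X` of the pullback of the ample
generator for a fibration `X' → B`, where `X'` is isomorphic to `X` in codimension one over the base
`Z` and `B` has relative Picard number one over `Z`, together with the covering part of the movable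
cone conjecture for `X' → B`, for the classes modulo `f`. -/
structure Cusp (X : MvNum W A) (f : W) : Prop where
  lat : f ∈ X.lat
  movEff : f ∈ X.movEff
  /-- the class `f` generates an extremal ray of the movable cone -/
  extremal : ∀ u ∈ X.mov, ∀ v ∈ X.mov, (∃ t : ℝ, u + v = t • f) → ∃ t : ℝ, u = t • f
  /-- there is a function such as: `η x` is the `d`-th root of the volume of the restriction of `x` to
  the general fibre of `X' → B`, where `d` is the dimension of the fibre -/
  size : ∃ η : W → ℝ, Continuous η ∧ (∀ t : ℝ, 0 ≤ t → ∀ x, η (t • x) = t * η x) ∧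
    (∀ (t : ℝ) x, η (x + t • f) = η x) ∧ (∀ a, X.act a f = f → ∀ x, η (X.act a x) = η x) ∧
    ∀ x ∈ X.movEff, (∀ t : ℝ, x ≠ t • f) → 0 < η x
  /-- modulo `f`, the interior of the movable cone is covered by the translates of a cone, generated
  by finitely many integral classes which are movable and effective, under pseudo-automorphisms
  which fix `f` -/
  rel : ∃ F : Finset W, (∀ s ∈ F, s ∈ X.lat ∧ s ∈ X.movEff) ∧ ∀ x ∈ interior X.mov, ∃ a,
    X.act a f = f ∧ ∃ t : ℝ, X.act a x - t • f ∈ cone F

end MvNum

end Pool.Agent.Y95.KM
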