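import Pool.Agent.Y95.KM.CuspMain
import Pool.Agent.Y95.KM.FaceDefs

/-!
# The cone conjecture and fibration faces
-/

set_option autoImplicit false

namespace Pool.Agent.Y95.KM

open Finset Filter Topology
open Pool.Agent.Y167

variable {W A : Type*} [NormedAddCommGroup W] [NormedSpace ℝ W] [Group A] {X : Num W A}

theorem cone_sub_span (Φ : Finset W) {u : W} (hu : u ∈ cone Φ) :
    u ∈ Submodule.span ℝ (Φ : Set W) := by
  obtain ⟨c, -, rfl⟩ := hu
  exact Submodule.sum_mem _ fun s hs => Submodule.smul_mem _ _ (Submodule.subset_span hs)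

/-- a homogeneous continuous function is bounded by a multiple of the norm -/
theorem exists_norm_bound [FiniteDimensional ℝ W] (η : W → ℝ) (hc : Continuous η)
    (hs : ∀ t : ℝ, 0 ≤ t → ∀ x, η (t • x) = t * η x) : ∃ C : ℝ, 0 ≤ C ∧ ∀ y, η y ≤ C * ‖y‖ := by
  have : ProperSpace W := FiniteDimensional.proper ℝ W
  have hη0 : η 0 = 0 := by
    have := hs 0 le_rfl 0
    rwa [smul_zero, zero_mul] at this
  obtain ⟨C, hC⟩ := (isCompact_sphere (0 : W) 1).bddAbove_image (f := η) hc.continuousOn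
  refine ⟨|C|, abs_nonneg C, fun y => ?_⟩
  by_cases hy : y = 0
  · rw [hy, hη0, norm_zero, mul_zero]
  · have hn : 0 < ‖y‖ := norm_pos_iff.2 hy
    have h1 : η (‖y‖⁻¹ • y) ≤ C := hC ⟨_, by
      rw [mem_sphere_zero_iff_norm, norm_smul, norm_inv, norm_norm, inv_mul_cancel₀ hn.ne'], rfl⟩
    have h2 : η y = ‖y‖ * η (‖y‖⁻¹ • y) := by
      rw [← hs _ hn.le, smul_smul, mul_inv_cancel₀ hn.ne', one_smul]
    rw [h2, mul_comm]
    exact mul_le_mul_of_nonneg_right (h1.trans (le_abs_self C)) hn.le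

/-- the first point of the cone on a ray in the direction of an interior point -/
theorem first_hit (Φ : Finset W) (hcl : IsClosed (cone Φ : Set W)) {v : W}
    (hv : v ∈ Submodule.span ℝ (Φ : Set W)) (hvΦ : v ∉ cone Φ) :
    ∃ s : ℝ, 0 < s ∧ v + s • ∑ z ∈ Φ, z ∈ cone Φ ∧
      ∀ δ : ℝ, 0 < δ → v + s • ∑ z ∈ Φ, z - δ • ∑ z ∈ Φ, z ∉ cone Φ := by
  classical
  set w := ∑ z ∈ Φ, z with hw
  have hwc : w ∈ cone Φ := ⟨fun _ => 1, fun _ => zero_le_one, by rw [hw]; simp⟩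
  set Z : Set ℝ := {s | 0 ≤ s ∧ v + s • w ∈ cone Φ} with hZ
  have hZc : IsClosed Z := by
    have hc : Continuous fun s : ℝ => v + s • w := by fun_prop
    exact (isClosed_le continuous_const continuous_id).inter (hcl.preimage hc)
  have hZn : Z.Nonempty := by
    obtain ⟨c, hc⟩ := Submodule.mem_span_finset'.1 hv
    let c' : W → ℝ := fun z => if hz : z ∈ Φ then c ⟨z, hz⟩ else 0
    have hc' : v = ∑ z ∈ Φ, c' z • z := by
      rw [← hc, ← Finset.sum_coe_sort Φ]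
      refine Finset.sum_congr rfl fun z _ => ?_
      simp only [c', z.2, dif_pos]
    set s₀ : ℝ := ∑ z ∈ Φ, |c' z| with hs₀
    have hs₀0 : 0 ≤ s₀ := Finset.sum_nonneg fun z _ => abs_nonneg _
    refine ⟨s₀, hs₀0, fun z => |c' z + s₀|, fun z => abs_nonneg _, ?_⟩
    rw [hc', hw, Finset.smul_sum, ← Finset.sum_add_distrib]
    refine Finset.sum_congr rfl fun z hz => ?_
    rw [← add_smul]
    congr 1
    symm
    apply abs_of_nonneg
    have h1 : |c' z| ≤ s₀ :=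
      Finset.single_le_sum (f := fun z => |c' z|) (fun z _ => abs_nonneg _) hz
    have h2 := neg_abs_le (c' z)
    linarith
  have hZb : BddBelow Z := ⟨0, fun s hs => hs.1⟩
  have hs : sInf Z ∈ Z := hZc.csInf_mem hZn hZb
  have hs0 : sInf Z ≠ 0 := by
    intro h0
    rw [h0] at hs
    have := hs.2
    rw [zero_smul, add_zero] at this
    exact hvΦ this
  have hspos : 0 < sInf Z := lt_of_le_of_ne hs.1 (Ne.symm hs0)
  refine ⟨sInf Z, hspos, hs.2, fun δ hδ hcon => ?_⟩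
  have h1 : v + sInf Z • w - δ • w = v + (sInf Z - δ) • w := by rw [sub_smul]; abel
  rw [h1] at hcon
  rcases le_or_gt 0 (sInf Z - δ) with h2 | h2
  · have := csInf_le hZb (show sInf Z - δ ∈ Z from ⟨h2, hcon⟩)
    linarith
  · apply hvΦ
    have h3 := cone_add hcon (cone_smul hwc (neg_nonneg.2 h2.le))
    have h4 : v + (sInf Z - δ) • w + -(sInf Z - δ) • w = v := by rw [neg_smul]; abel
    rwa [h4] at h3

theorem Num.FibrationFace.isClosed {Φ : Finset W} (h : X.Good) (hΦ : X.FibrationFace Φ) :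
    IsClosed (cone Φ : Set W) := by
  have := h.finDim
  obtain ⟨ℓ, h1, h2⟩ := hΦ.exposed
  have h3 : (cone Φ : Set W) = X.nef ∩ {x | ℓ x = 0} := by
    ext x
    constructor
    · intro hx
      have hxn : x ∈ X.nef := by
        obtain ⟨c, hc, rfl⟩ := hx
        rcases Φ.eq_empty_or_nonempty with he | he
        · rw [he, Finset.sum_empty]
          obtain ⟨y, hy⟩ := h.nonempty
          have := h.nef_smul (le_refl (0 : ℝ)) (subset_closure hy)
          rwa [zero_smul] at this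
        · exact Finset.sum_induction_nonempty _ (fun x => x ∈ X.nef)
            (fun x y hx hy => h.nef_add hx hy) he
            fun s hs => h.nef_smul (hc s) (hΦ.gens s hs).2.1
      exact ⟨hxn, (h2 x hxn).2 hx⟩
    · rintro ⟨hxn, hx⟩
      exact (h2 x hxn).1 hx
  rw [h3]
  exact isClosed_closure.inter (isClosed_eq ℓ.continuous_of_finiteDimensional continuous_const)

theorem Num.Good.cone_nef (h : X.Good) {Φ : Finset W} (hΦ : ∀ s ∈ Φ, s ∈ X.nef) {x : W}
    (hx : x ∈ cone Φ) : x ∈ X.nef := by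
  obtain ⟨c, hc, rfl⟩ := hx
  rcases Φ.eq_empty_or_nonempty with he | he
  · rw [he, Finset.sum_empty]
    obtain ⟨y, hy⟩ := h.nonempty
    have := h.nef_smul (le_refl (0 : ℝ)) (subset_closure hy)
    rwa [zero_smul] at this
  · exact Finset.sum_induction_nonempty _ (fun x => x ∈ X.nef)
      (fun x y hx hy => h.nef_add hx hy) he
      fun s hs => h.nef_smul (hc s) (hΦ s hs)

theorem Num.Good.cone_eff (h : X.Good) (h00 : (0 : W) ∈ X.eff) {Φ : Finset W}
    (hΦ : ∀ s ∈ Φ, s ∈ X.eff) {x : W} (hx : x ∈ cone Φ) : x ∈ X.eff := by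
  obtain ⟨c, hc, rfl⟩ := hx
  refine Finset.sum_induction _ (fun x => x ∈ X.eff) (fun x y hx hy => h.eff_add x hx y hy) h00
    fun s hs => ?_
  rcases (hc s).eq_or_lt with h0 | h0
  · rw [← h0, zero_smul]; exact h00
  · exact h.eff_smul _ h0 _ (hΦ s hs)

/-- a sum of nef classes in the face has its terms in the face -/
theorem face_term (h : X.Good) {Φ : Finset W} {ℓ : W →ₗ[ℝ] ℝ} (h1 : ∀ x ∈ X.nef, 0 ≤ ℓ x)
    (h2 : ∀ x ∈ X.nef, ℓ x = 0 ↔ x ∈ cone Φ) {S : Finset W} (hS : ∀ s ∈ S, s ∈ X.nef) {c : W → ℝ}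
    (hc : ∀ s, 0 ≤ c s) (hu : ∑ s ∈ S, c s • s ∈ cone Φ) {s : W} (hs : s ∈ S) (hcs : 0 < c s) :
    s ∈ cone Φ := by
  have hun : ∑ s ∈ S, c s • s ∈ X.nef := h.cone_nef hS ⟨c, hc, rfl⟩
  have h3 : ℓ (∑ s ∈ S, c s • s) = 0 := (h2 _ hun).2 hu
  rw [map_sum, Finset.sum_eq_zero_iff_of_nonneg (fun z hz => by
    rw [map_smul, smul_eq_mul]; exact mul_nonneg (hc z) (h1 z (hS z hz)))] at h3
  have h4 := h3 s hs
  rw [map_smul, smul_eq_mul] at h4
  rcases mul_eq_zero.1 h4 with h5 | h5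
  · exact absurd h5 hcs.ne'
  · exact (h2 s (hS s hs)).1 h5

/-- the relative covering together with the estimate by the size -/
theorem exists_rel (h : X.Good) (h00 : (0 : W) ∈ X.eff) {Φ : Finset W} (hΦ : X.FibrationFace Φ)
    (ξ : W →ₗ[ℝ] ℝ) (η : W → ℝ) (hηc : Continuous η)
    (hηs : ∀ t : ℝ, 0 ≤ t → ∀ x, η (t • x) = t * η x)
    (hη0 : ∀ x ∈ X.nefEff, x ∉ cone Φ → 0 < η x) :
    ∃ F : Finset W, (∀ s ∈ F, s ∈ X.lat ∧ s ∈ X.nefEff) ∧ (∀ x ∈ X.amp, ∃ a,
      (∀ s ∈ Φ, X.act a s = s) ∧ ∃ v ∈ Submodule.span ℝ (Φ : Set W), X.act a x - v ∈ cone F) ∧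
      ∃ M : ℝ, 0 < M ∧ ∀ p ∈ cone F, ξ p ≤ M * η p := by
  classical
  have := h.finDim
  obtain ⟨F, hF, hrel⟩ := hΦ.rel
  obtain ⟨ℓ, hℓ1, hℓ2⟩ := hΦ.exposed
  refine ⟨F.filter fun v => v ∉ cone Φ, fun s hs => hF s (Finset.mem_filter.1 hs).1, ?_, ?_⟩
  · intro x hx
    obtain ⟨a, haf, v, hv, c, hc, he⟩ := hrel x hx
    refine ⟨a, haf, v + ∑ z ∈ F.filter (fun z => ¬ z ∉ cone Φ), c z • z, ?_, c, hc, ?_⟩
    · refine Submodule.add_mem _ hv (Submodule.sum_mem _ fun z hz => Submodule.smul_mem _ _ ?_)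
      exact cone_sub_span Φ (not_not.1 (Finset.mem_filter.1 hz).2)
    · have h2 : X.act a x = v + ∑ v ∈ F, c v • v := by rw [← he]; abel
      rw [h2, ← Finset.sum_filter_add_sum_filter_not F (fun v => v ∉ cone Φ)]
      abel
  · refine exists_bound _ ξ η hηc hηs fun u hu => ?_
    rw [Finset.convexHull_eq] at hu
    obtain ⟨w, hw0, hw1, hwx⟩ := hu
    rw [Finset.centerMass_eq_of_sum_1 _ _ hw1] at hwx
    simp only [id] at hwx
    set F' := F.filter fun v => v ∉ cone Φ with hF'def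
    have hF' : ∀ s ∈ F', s ∈ X.nefEff ∧ s ∉ cone Φ := fun s hs =>
      ⟨(hF s (Finset.mem_filter.1 hs).1).2, (Finset.mem_filter.1 hs).2⟩
    obtain ⟨v, hv, hwv⟩ : ∃ v ∈ F', 0 < w v := by
      by_contra hcon
      push Not at hcon
      have : ∑ y ∈ F', w y ≤ 0 := Finset.sum_nonpos hcon
      linarith
    -- coefficients which are nonnegative everywhere
    let c : W → ℝ := fun z => |w z|
    have hcw : ∀ z ∈ F', c z = w z := fun z hz => abs_of_nonneg (hw0 z hz)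
    have hux : u = ∑ z ∈ F', c z • z := by
      rw [← hwx]
      exact Finset.sum_congr rfl fun z hz => by rw [hcw z hz]
    have huc : u ∈ cone F' := ⟨c, fun z => abs_nonneg _, hux⟩
    refine hη0 u ⟨h.cone_nef (fun s hs => (hF' s hs).1.1) huc,
      h.cone_eff h00 (fun s hs => (hF' s hs).1.2) huc⟩ fun hu => ?_
    refine (hF' v hv).2 (face_term h hℓ1 hℓ2 (S := F') (fun s hs => (hF' s hs).1.1)
      (fun z => abs_nonneg (w z)) (hux ▸ hu) hv ?_)
    rw [abs_of_pos hwv]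
    exact hwv

end Pool.Agent.Y95.KM
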