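import Pool.Agent.Y95.KM.Nest

/-!
# The induction over the fibration faces
-/

set_option autoImplicit false

namespace Pool.Agent.Y95.KM

open Finset Filter Topology
open Pool.Agent.Y167

variable {W A : Type*} [NormedAddCommGroup W] [NormedSpace ℝ W] [Group A] {X : Num W A}

/-- An ample class whose restriction to the general fibre of a fibration is small (compared with the
infimum `μ` of its orbit) lies in a translate of a fixed rational polyhedral cone. -/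
theorem small_claim (h : X.Good) (h00 : (0 : W) ∈ X.eff) {𝓕 : Set (Finset W)}
    (h𝓕 : ∀ Φ ∈ 𝓕, X.FibrationFace Φ) (hsub : Num.ClosedUnderFaces 𝓕) (ξ : W →ₗ[ℝ] ℝ) {m : ℝ}
    (hm : 0 < m) (hξ : ∀ x ∈ X.nef, m * ‖x‖ ≤ ξ x) (η : Finset W → W → ℝ)
    (hη : ∀ Φ ∈ 𝓕, Continuous (η Φ) ∧ (∀ t : ℝ, 0 ≤ t → ∀ x, η Φ (t • x) = t * η Φ x) ∧
      (∀ v ∈ Submodule.span ℝ (Φ : Set W), ∀ x, η Φ (x + v) = η Φ x) ∧
      (∀ a, (∀ s ∈ Φ, X.act a s = s) → ∀ x, η Φ (X.act a x) = η Φ x) ∧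
      ∀ x ∈ X.nefEff, x ∉ cone Φ → 0 < η Φ x) (n : ℕ) :
    ∀ Φ ∈ 𝓕, Module.finrank ℝ (Submodule.span ℝ (Φ : Set W)) = n →
      ∃ (ε : ℝ) (S : Finset W), 0 < ε ∧ (∀ s ∈ S, s ∈ X.lat ∧ s ∈ X.nefEff) ∧
        ∀ x ∈ X.amp, ∀ μ : ℝ, 0 ≤ μ → (∀ γ, μ ≤ ξ (X.act γ x)) → ∀ γ,
          η Φ (X.act γ x) ≤ ε * μ → ∃ γ', X.act γ' x ∈ cone S := by
  classical
  have := h.finDim
  have hξn : ∀ x ∈ X.nef, 0 ≤ ξ x := fun x hx =>
    le_trans (mul_nonneg hm.le (norm_nonneg x)) (hξ x hx)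
  induction n using Nat.strong_induction_on with
  | _ n ih =>
  intro Φ hΦ hn
  obtain ⟨hηc, hηs, hηt, hηa, hη0⟩ := hη Φ hΦ
  obtain ⟨F, hF, hrel, M, hM0, hM⟩ := exists_rel h h00 (h𝓕 Φ hΦ) ξ (η Φ) hηc hηs hη0
  set w := ∑ z ∈ Φ, z with hw
  have hΦn : ∀ s ∈ Φ, s ∈ X.nef := fun s hs => ((h𝓕 Φ hΦ).gens s hs).2.1
  have hwc : w ∈ cone Φ := ⟨fun _ => 1, fun _ => zero_le_one, by rw [hw]; simp⟩
  have hwn : w ∈ X.nef := h.cone_nef hΦn hwc
  -- the smaller faces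
  have key : ∀ T : Finset W, ∃ (κ : ℝ) (S : Finset W), 0 < κ ∧
      (∀ s ∈ S, s ∈ X.lat ∧ s ∈ X.nefEff) ∧
      ((∃ Φ' ∈ 𝓕, cone Φ' ⊆ cone Φ ∧ w ∉ cone Φ' ∧ ∀ s ∈ T, s ∈ cone Φ') →
      ∀ x ∈ X.amp, ∀ μ : ℝ, 0 ≤ μ → (∀ γ, μ ≤ ξ (X.act γ x)) → ∀ γ, ∀ p ∈ X.nef,
        ∀ u ∈ cone T, ∀ s : ℝ, 0 ≤ s → X.act γ x = p + u - s • w → ξ p ≤ κ * μ →
          ∃ γ', X.act γ' x ∈ cone S) := by
    intro T
    by_cases hT : ∃ Φ' ∈ 𝓕, cone Φ' ⊆ cone Φ ∧ w ∉ cone Φ' ∧ ∀ s ∈ T, s ∈ cone Φ'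
    swap
    · exact ⟨1, ∅, one_pos, fun s hs => absurd hs (Finset.notMem_empty s), fun h => absurd h hT⟩
    obtain ⟨Φ', hΦ', hcc, hwΦ', hTΦ'⟩ := hT
    obtain ⟨hηc', hηs', hηt', -, -⟩ := hη Φ' hΦ'
    obtain ⟨ℓ, hℓ1, hℓ2⟩ := (h𝓕 Φ' hΦ').exposed
    have hΦn' : ∀ s ∈ Φ', s ∈ X.nef := fun s hs => ((h𝓕 Φ' hΦ').gens s hs).2.1
    have hℓw : 0 < ℓ w :=
      lt_of_le_of_ne (hℓ1 w hwn) (fun h0 => hwΦ' ((hℓ2 w hwn).1 h0.symm))
    -- the dimension drops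
    have hlt : Module.finrank ℝ (Submodule.span ℝ (Φ' : Set W)) <
        Module.finrank ℝ (Submodule.span ℝ (Φ : Set W)) := by
      apply Submodule.finrank_lt_finrank_of_lt
      refine lt_of_le_of_ne ?_ ?_
      · rw [Submodule.span_le]
        exact fun s hs => cone_sub_span Φ (hcc (mem_cone_self hs))
      · intro heq
        have h1 : w ∈ Submodule.span ℝ (Φ' : Set W) := heq ▸ cone_sub_span Φ hwc
        have h2 : Submodule.span ℝ (Φ' : Set W) ≤ LinearMap.ker ℓ := by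
          rw [Submodule.span_le]
          exact fun s hs => (hℓ2 s (hΦn' s hs)).2 (mem_cone_self hs)
        have h3 : ℓ w = 0 := h2 h1
        linarith
    obtain ⟨ε', S', hε', hS', hcl⟩ := ih _ (hn ▸ hlt) Φ' hΦ' rfl
    obtain ⟨C, hC0, hC⟩ := exists_norm_bound (η Φ') hηc' hηs'
    set L : ℝ := ‖LinearMap.toContinuousLinearMap ℓ‖ with hL
    have hL0 : 0 ≤ L := norm_nonneg _
    have hLp : ∀ p, ℓ p ≤ L * ‖p‖ := fun p =>
      (le_abs_self _).trans ((LinearMap.toContinuousLinearMap ℓ).le_opNorm p)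
    set C₃ : ℝ := C * ((1 + L / ℓ w * ‖w‖) / m) with hC₃
    have hC₃0 : 0 ≤ C₃ := by positivity
    refine ⟨ε' / (C₃ + 1), S', by positivity, hS', fun _ x hx μ hμ0 hμ γ p hp u hu s hs hy hpμ => ?_⟩
    refine hcl x hx μ hμ0 hμ γ ?_
    have huΦ : u ∈ cone Φ' := cone_le (fun s hs => hTΦ' s hs) hu
    have h1 : η Φ' (X.act γ x) = η Φ' (p - s • w) := by
      rw [hy, show p + u - s • w = (p - s • w) + u by abel]
      exact hηt' u (cone_sub_span Φ' huΦ) _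
    have h2 : s * ℓ w ≤ ℓ p := by
      have h3 := hℓ1 _ (subset_closure (h.act_amp γ x hx))
      rw [hy, map_sub, map_add, map_smul, smul_eq_mul] at h3
      have h4 : ℓ u = 0 := (hℓ2 u (h.cone_nef hΦn' huΦ)).2 huΦ
      linarith
    have h5 : ‖p‖ ≤ ξ p / m := by
      rw [le_div_iff₀ hm, mul_comm]
      exact hξ p hp
    have h7 : s ≤ L / ℓ w * ‖p‖ := by
      rw [div_mul_eq_mul_div, le_div_iff₀ hℓw]
      exact h2.trans (hLp p)
    have h8 : ‖p - s • w‖ ≤ ‖p‖ + s * ‖w‖ := by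
      refine (norm_sub_le _ _).trans ?_
      rw [norm_smul, Real.norm_of_nonneg hs]
    have h9 : ‖p - s • w‖ ≤ (1 + L / ℓ w * ‖w‖) / m * ξ p := by
      have h10 : s * ‖w‖ ≤ L / ℓ w * ‖p‖ * ‖w‖ := mul_le_mul_of_nonneg_right h7 (norm_nonneg _)
      have h11 : 0 ≤ 1 + L / ℓ w * ‖w‖ := by positivity
      calc ‖p - s • w‖ ≤ (1 + L / ℓ w * ‖w‖) * ‖p‖ := by nlinarith
        _ ≤ (1 + L / ℓ w * ‖w‖) * (ξ p / m) := mul_le_mul_of_nonneg_left h5 h11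
        _ = (1 + L / ℓ w * ‖w‖) / m * ξ p := by ring
    have h12 : C₃ * (ε' / (C₃ + 1)) ≤ ε' := by
      rw [mul_div_assoc', div_le_iff₀ (by positivity)]
      nlinarith
    calc η Φ' (X.act γ x) = η Φ' (p - s • w) := h1
      _ ≤ C * ‖p - s • w‖ := hC _
      _ ≤ C * ((1 + L / ℓ w * ‖w‖) / m * ξ p) := mul_le_mul_of_nonneg_left h9 hC0
      _ = C₃ * ξ p := by rw [hC₃]; ring
      _ ≤ C₃ * (ε' / (C₃ + 1) * μ) := mul_le_mul_of_nonneg_left hpμ hC₃0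
      _ = (C₃ * (ε' / (C₃ + 1))) * μ := by ring
      _ ≤ ε' * μ := mul_le_mul_of_nonneg_right h12 hμ0
  choose κ S hκ hS hkey using key
  -- the minimum of the constants
  obtain ⟨κ₀, hκ₀, hκ₂, hκ₁⟩ : ∃ κ₀ : ℝ, 0 < κ₀ ∧ κ₀ ≤ 1 / 2 ∧ ∀ T ∈ Φ.powerset, κ₀ ≤ κ T := by
    have h1 : 0 ≤ ∑ T ∈ Φ.powerset, 1 / κ T :=
      Finset.sum_nonneg fun T _ => by have := hκ T; positivity
    refine ⟨1 / (2 + ∑ T ∈ Φ.powerset, 1 / κ T), by positivity, ?_, fun T hT => ?_⟩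
    · exact one_div_le_one_div_of_le (by norm_num) (by linarith)
    · rw [div_le_iff₀ (by positivity)]
      have h2 : 1 / κ T ≤ ∑ T ∈ Φ.powerset, 1 / κ T :=
        Finset.single_le_sum (f := fun T => 1 / κ T)
          (fun T _ => by have := hκ T; positivity) hT
      have h3 : κ T * (1 / κ T) = 1 := by
        rw [mul_one_div, div_self (hκ T).ne']
      have h4 : κ T * (1 / κ T) ≤ κ T * (2 + ∑ T ∈ Φ.powerset, 1 / κ T) :=
        mul_le_mul_of_nonneg_left (by linarith) (hκ T).le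
      linarith
  refine ⟨κ₀ / M, F ∪ Φ ∪ Φ.powerset.biUnion S, by positivity, ?_, ?_⟩
  · intro s hs
    rcases Finset.mem_union.1 hs with hs | hs
    · rcases Finset.mem_union.1 hs with hs | hs
      · exact hF s hs
      · exact (h𝓕 Φ hΦ).gens s hs
    · obtain ⟨T, -, hs⟩ := Finset.mem_biUnion.1 hs
      exact hS T s hs
  intro x hx μ hμ0 hμ γ hsmall
  obtain ⟨a, haf, v, hv, hp⟩ := hrel (X.act γ x) (h.act_amp γ x hx)
  set p := X.act a (X.act γ x) - v with hpdef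
  have hy : X.act (a * γ) x = p + v := by rw [act_mul, hpdef]; abel
  have hpn : p ∈ X.nef := h.cone_nef (fun s hs => (hF s hs).2.1) hp
  have hpμ : ξ p ≤ κ₀ * μ := by
    have h1 : η Φ p = η Φ (X.act γ x) := by
      rw [← hηa a haf (X.act γ x), ← act_mul, hy, hηt v hv]
    calc ξ p ≤ M * η Φ p := hM p hp
      _ ≤ M * (κ₀ / M * μ) := by rw [h1]; exact mul_le_mul_of_nonneg_left hsmall hM0.le
      _ = κ₀ * μ := by field_simp
  by_cases hvΦ : v ∈ cone Φ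
  · refine ⟨a * γ, ?_⟩
    rw [hy]
    refine cone_add (cone_mono ?_ hp) (cone_mono ?_ hvΦ)
    · exact Finset.subset_union_left.trans Finset.subset_union_left
    · exact Finset.subset_union_right.trans Finset.subset_union_left
  obtain ⟨s, hs0, hu, hint⟩ := first_hit Φ ((h𝓕 Φ hΦ).isClosed h) hv hvΦ
  set u := v + s • ∑ z ∈ Φ, z with hudef
  have hy' : X.act (a * γ) x = p + u - s • w := by rw [hy, hudef, hw]; abel
  by_cases hu0 : u = 0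
  · -- the class itself is zero
    have h1 : ξ (X.act (a * γ) x) ≤ ξ p := by
      rw [hy', hu0, add_zero, map_sub, map_smul, smul_eq_mul]
      have := mul_nonneg hs0.le (hξn w hwn)
      linarith
    have h2 : μ ≤ ξ (X.act (a * γ) x) := hμ (a * γ)
    have h3 : κ₀ * μ ≤ 1 / 2 * μ := mul_le_mul_of_nonneg_right hκ₂ hμ0
    have h4 := hξ _ (subset_closure (h.act_amp (a * γ) x hx))
    have h5 : ‖X.act (a * γ) x‖ ≤ 0 := by
      have h6 : μ ≤ 0 := by linarith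
      have h7 : m * ‖X.act (a * γ) x‖ ≤ 0 := by nlinarith
      by_contra hcon
      push Not at hcon
      have := mul_pos hm hcon
      linarith
    refine ⟨a * γ, ?_⟩
    rw [norm_le_zero_iff.1 h5]
    exact zero_mem_cone _
  rcases hsub Φ hΦ u hu hu0 with ⟨δ, hδ, h1⟩ | ⟨Φ', hΦ', huΦ', hcc, hwΦ'⟩
  · exact absurd h1 (hint δ hδ)
  obtain ⟨ℓ, hℓ1, hℓ2⟩ := (h𝓕 Φ' hΦ').exposed
  obtain ⟨c, hc, huc⟩ := hu
  set T := Φ.filter fun z => 0 < c z with hT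
  have hTΦ' : ∀ z ∈ T, z ∈ cone Φ' := fun z hz =>
    face_term h hℓ1 hℓ2 (S := Φ) hΦn hc (huc ▸ huΦ') (Finset.mem_filter.1 hz).1
      (Finset.mem_filter.1 hz).2
  have huT : u ∈ cone T := by
    refine ⟨c, hc, ?_⟩
    rw [huc, ← Finset.sum_filter_add_sum_filter_not Φ (fun z => 0 < c z)]
    have : ∑ z ∈ Φ.filter (fun z => ¬ 0 < c z), c z • z = 0 :=
      Finset.sum_eq_zero fun z hz => by
        have h1 := (Finset.mem_filter.1 hz).2
        have h2 : c z = 0 := le_antisymm (not_lt.1 h1) (hc z)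
        rw [h2, zero_smul]
    rw [this, add_zero]
  have hTp : T ∈ Φ.powerset := Finset.mem_powerset.2 (Finset.filter_subset _ _)
  obtain ⟨γ', hγ'⟩ := hkey T ⟨Φ', hΦ', hcc, hwΦ', hTΦ'⟩ x hx μ hμ0 hμ (a * γ) p hpn u huT s hs0.le hy'
    (hpμ.trans (mul_le_mul_of_nonneg_right (hκ₁ T hTp) hμ0))
  exact ⟨γ', cone_mono ((Finset.subset_biUnion_of_mem S hTp).trans Finset.subset_union_right) hγ'⟩

end Pool.Agent.Y95.KM
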