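import Pool.Agent.Y95.KM.OverDefs
import Pool.Agent.Y95.KM.Fib

/-!
# The cone conjecture and reducible classes, for families closed under contractions
-/

set_option autoImplicit false

namespace Pool.Agent.Y95.KM

open Finset Filter Topology
open Pool.Agent.Y167

variable {W A W' B : Type*} [NormedAddCommGroup W] [NormedSpace ℝ W] [Group A]
  [NormedAddCommGroup W'] [NormedSpace ℝ W'] [Group B]

theorem fibred_of_over {X : Num W A} {X' : Num W' B} (h : X.Good) (h' : X'.Good)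
    {V : Submodule ℝ W} {p : W →ₗ[ℝ] W'} {y : W}
    (hp : X.IsOver X' V p) (hy : X.AmpleOn V y) (hc : X'.ConeConj) : X.FibredAt y := by
  classical
  obtain ⟨S, hSL, hcov, -⟩ := hc
  have hSn : ∀ s ∈ S, s ∈ X'.nefEff := fun s hs => by
    rw [hcov]
    refine Set.mem_iUnion.2 ⟨1, s, mem_cone_self hs, ?_⟩
    rw [map_one]; rfl
  obtain ⟨ℓ, hℓL, hℓV, hℓ0, hℓ1⟩ := hp.exposed
  obtain ⟨hyV, Φ, hΦ, U, hU, hUΦ⟩ := hy
  obtain ⟨F, hF, hlift⟩ := hp.lift S fun s hs => ⟨hSL hs, hSn s hs⟩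
  refine ⟨V, hyV, ⟨Φ, hΦ, U, hU, hUΦ⟩, ⟨ℓ, hℓL, hℓV, hℓ0, hℓ1⟩, F, hF, ?_⟩
  intro x hx
  have hx' : p x ∈ X'.nefEff := ⟨subset_closure (hp.amp x hx), h'.amp_eff (hp.amp x hx)⟩
  rw [hcov] at hx'
  obtain ⟨b, w, hw, hbw⟩ := Set.mem_iUnion.1 hx'
  obtain ⟨a, ha, hpa⟩ := hp.act b⁻¹
  have h1 : p (X.act a x) = w := by
    rw [hpa, ← hbw, ← act_mul, inv_mul_cancel, map_one]; rfl
  obtain ⟨a', ha', v, hv, hv'⟩ := hlift (X.act a x) (h.act_amp a x hx) (by rw [h1]; exact hw)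
  refine ⟨a' * a, fun u hu => ?_, v, hv, ?_⟩
  · rw [act_mul, ha u hu, ha' u hu]
  · rw [act_mul]
    exact hv'

theorem finrank_lt {p : W →ₗ[ℝ] W'} [FiniteDimensional ℝ W] (hp : Function.Surjective p) {y : W}
    (hy : y ≠ 0) (hpy : p y = 0) : Module.finrank ℝ W' < Module.finrank ℝ W := by
  have h1 := LinearMap.finrank_range_add_finrank_ker p
  rw [LinearMap.range_eq_top.2 hp, finrank_top] at h1
  have h2 : 0 < Module.finrank ℝ (LinearMap.ker p) := by
    rw [Module.finrank_pos_iff]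
    exact ⟨⟨⟨y, hpy⟩, 0, fun h3 => hy (congrArg Subtype.val h3)⟩⟩
  omega

/-- all members of the family -/
theorem family {ι : Type*} {W A : ι → Type*} [∀ i, NormedAddCommGroup (W i)]
    [∀ i, NormedSpace ℝ (W i)] [∀ i, Group (A i)] (X : ∀ i, Num (W i) (A i))
    (hX : ∀ i, (X i).Good)
    (hover : ∀ i, ∀ y ∈ (X i).nefEff, y ≠ 0 → (X i).PolyhedralAt y ∨
      ∃ j, ∃ V : Submodule ℝ (W i), ∃ p : W i →ₗ[ℝ] W j, (X i).IsOver (X j) V p ∧
        (X i).AmpleOn V y) :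
    (∀ i, (X i).ConeConj) ↔ ∀ i, ∀ x ∈ (X i).nef, x ∉ (X i).eff → (X i).Reducible x := by
  refine ⟨fun hc i x hx hxe => reducible_of_conj (hX i) (hc i) hx hxe, fun hred => ?_⟩
  have key : ∀ N : ℕ, ∀ i, Module.finrank ℝ (W i) = N → (X i).ConeConj := by
    intro N
    induction N using Nat.strong_induction_on with
    | _ N ih =>
      intro i hi
      have := (hX i).finDim
      refine conj_of_fibred (hX i) (fun y hy hy0 => ?_) (hred i)
      rcases hover i y hy hy0 with h1 | ⟨j, V, p, hp, hyV⟩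
      · exact Or.inl h1
      · refine Or.inr (fibred_of_over (hX i) (hX j) hp hyV (ih _ ?_ j rfl))
        have := finrank_lt hp.surj hy0 (hp.triv y hyV.1)
        omega
  exact fun i => key _ i rfl

end Pool.Agent.Y95.KM
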