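import Pool.Agent.Y95.KM.GeoDefs

/-!
# Contractions of varieties over a base: definitions used in the statements
-/

set_option autoImplicit false

namespace Pool.Agent.Y95.KM

open Topology
open Pool.Agent.Y167 (cone)

variable {W A W' B : Type*} [NormedAddCommGroup W] [NormedSpace ℝ W] [Group A]
  [NormedAddCommGroup W'] [NormedSpace ℝ W'] [Group B]

/-- The class `y` is ample on `B`, where `V` is the space of pullbacks from `B`: the classes in `V`
close to `y` are combinations of finitely many integral, nef and effective classes. -/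
def Num.AmpleOn (X : Num W A) (V : Submodule ℝ W) (y : W) : Prop :=
  y ∈ V ∧ ∃ Φ : Finset W, (∀ s ∈ Φ, s ∈ X.lat ∧ s ∈ X.nefEff) ∧ ∃ U ∈ 𝓝 y, ↑V ∩ U ⊆ cone Φ

/-- `X → B` is a contraction over the base, `V` is the space of pullbacks from `B`, `X'` consists of
the numerical data of `X → B`, and `p : N^1(X) → N^1(X/B)` is the projection. (The kernel of `p` can be
larger than `V`: it also contains classes which restrict to the generic fibre of `X → B` as classes
of `Pic⁰`.) -/
structure Num.IsOver (X : Num W A) (X' : Num W' B) (V : Submodule ℝ W) (p : W →ₗ[ℝ] W') :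
    Prop where
  surj : Function.Surjective p
  triv : ∀ v ∈ V, p v = 0
  /-- there is a class `ℓ` of contracted curves such that the nef classes of degree zero on `ℓ` are
  pulled back from `B` -/
  exposed : ∃ ℓ : W →ₗ[ℝ] ℝ, (∀ x ∈ X.lat, ∃ k : ℤ, ℓ x = k) ∧ (∀ v ∈ V, ℓ v = 0) ∧
    (∀ x ∈ X.nef, 0 ≤ ℓ x) ∧ ∀ x ∈ X.nef, ℓ x = 0 → x ∈ V
  /-- ample classes are ample over `B` -/
  amp : ∀ x ∈ X.amp, p x ∈ X'.amp
  /-- the automorphisms over `B` act on `N^1(X)` and fix the pullbacks from `B` -/
  act : ∀ b : B, ∃ a : A, (∀ v ∈ V, X.act a v = v) ∧ ∀ x, p (X.act a x) = X'.act b (p x)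
  /-- for finitely many integral classes `S` which are nef and effective over `B` there are finitely
  many integral, nef and effective classes `F` such that every ample class which over `B` is a
  combination of `S` is brought into the cone of `F`, modulo pullbacks from `B`, by an
  automorphism which fixes the pullbacks from `B` (translates of lifts of `S` by Mordell–Weil
  translations) -/
  lift : ∀ S : Finset W', (∀ s ∈ S, s ∈ X'.lat ∧ s ∈ X'.nefEff) →
    ∃ F : Finset W, (∀ f ∈ F, f ∈ X.lat ∧ f ∈ X.nefEff) ∧ ∀ x ∈ X.amp, p x ∈ cone S →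
      ∃ a, (∀ v ∈ V, X.act a v = v) ∧ ∃ v ∈ V, X.act a x - v ∈ cone F

end Pool.Agent.Y95.KM
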