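import Pool.Agent.Y95.KM.Main

/-!
# The cone conjecture for a tower of fibrations
-/

set_option autoImplicit false

namespace Pool.Agent.Y95.KM

open Finset Filter Topology
open Pool.Agent.Y167

variable {W A : Type*} [NormedAddCommGroup W] [NormedSpace ℝ W] [Group A] {X : Num W A}

/-- a compact set of nef classes at which the nef cone is locally rational polyhedral -/
theorem cover_compact (K : Set W) (hK : IsCompact K) (hKn : K ⊆ X.nef)
    (hloc : ∀ x ∈ K, ∃ U ∈ 𝓝 x, ∃ F : Finset W, (∀ s ∈ F, s ∈ X.lat ∧ s ∈ X.nefEff) ∧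
      X.nef ∩ U ⊆ cone F) :
    ∃ F : Finset W, (∀ s ∈ F, s ∈ X.lat ∧ s ∈ X.nefEff) ∧ K ⊆ cone F := by
  classical
  have h1 : ∀ x : W, ∃ U : Set W, ∃ F : Finset W, x ∈ K → U ∈ 𝓝 x ∧
      (∀ s ∈ F, s ∈ X.lat ∧ s ∈ X.nefEff) ∧ X.nef ∩ U ⊆ cone F := by
    intro x
    by_cases hx : x ∈ K
    · obtain ⟨U, hU, F, hF, h2⟩ := hloc x hx
      exact ⟨U, F, fun _ => ⟨hU, hF, h2⟩⟩
    · exact ⟨∅, ∅, fun h => absurd h hx⟩
  choose U F hUF using h1
  obtain ⟨t, htK, htc⟩ := hK.elim_nhds_subcover U (fun x hx => (hUF x hx).1)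
  refine ⟨t.biUnion F, fun s hs => ?_, fun x hx => ?_⟩
  · obtain ⟨x, hx, hs⟩ := Finset.mem_biUnion.1 hs
    exact (hUF x (htK x hx)).2.1 s hs
  · obtain ⟨y, hy, hxy⟩ := Set.mem_iUnion₂.1 (htc hx)
    exact cone_mono (Finset.subset_biUnion_of_mem F hy) ((hUF y (htK y hy)).2.2 ⟨hKn hx, hxy⟩)

/-- **The cone conjecture for a tower.** -/
theorem tower (h : X.Good) (h00 : (0 : W) ∈ X.eff) (f : W) (hfL : f ∈ X.lat) (hfN : f ∈ X.nefEff)
    (hface : ∀ u ∈ X.nef, ∀ v ∈ X.nef, (∃ t : ℝ, u + v = t • f) → ∃ t : ℝ, u = t • f)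
    (hloc : ∀ x ∈ X.nef, (∀ t : ℝ, x ≠ t • f) → ∃ U ∈ 𝓝 x, ∃ F : Finset W,
      (∀ s ∈ F, s ∈ X.lat ∧ s ∈ X.nefEff) ∧ X.nef ∩ U ⊆ cone F)
    (F : Finset W) (hF : ∀ s ∈ F, s ∈ X.lat ∧ s ∈ X.nefEff)
    (hrel : ∀ x ∈ X.amp, ∃ a, ∃ t : ℝ, X.act a x - t • f ∈ cone F) : X.ConeConj := by
  classical
  have := h.finDim
  have : ProperSpace W := FiniteDimensional.proper ℝ W
  obtain ⟨ξ, m, hm, hξL, hξ⟩ := h.exists_form
  have hξn : ∀ x ∈ X.nef, 0 ≤ ξ x := fun x hx =>
    le_trans (mul_nonneg hm.le (norm_nonneg x)) (hξ x hx)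
  -- remove the multiples of `f`
  let F' : Finset W := F.filter fun v => ∀ t : ℝ, v ≠ t • f
  have hF' : ∀ v ∈ F', v ∈ F ∧ ∀ t : ℝ, v ≠ t • f := fun v hv => Finset.mem_filter.1 hv
  have hrel' : ∀ x ∈ X.amp, ∃ a, ∃ t : ℝ, X.act a x - t • f ∈ cone F' := by
    intro x hx
    obtain ⟨a, t, c, hc, he⟩ := hrel x hx
    have h1 : ∀ v : W, ∃ r : ℝ, v ∈ F → v ∉ F' → v = r • f := by
      intro v
      by_cases hv : ∃ r : ℝ, v = r • f
      · exact ⟨hv.choose, fun _ _ => hv.choose_spec⟩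
      · exact ⟨0, fun h2 h3 => absurd (Finset.mem_filter.2 ⟨h2, fun t ht => hv ⟨t, ht⟩⟩) h3⟩
    choose r hr using h1
    refine ⟨a, t + ∑ v ∈ F.filter (fun v => v ∉ F'), c v * r v, c, hc, ?_⟩
    have h2 : X.act a x = t • f + ∑ v ∈ F, c v • v := by rw [← he]; abel
    rw [h2, ← Finset.sum_filter_add_sum_filter_not F (fun v => v ∉ F'), add_smul, Finset.sum_smul]
    have h3 : ∑ v ∈ F.filter (fun v => v ∉ F'), c v • v =
        ∑ v ∈ F.filter (fun v => v ∉ F'), (c v * r v) • f := by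
      refine Finset.sum_congr rfl fun v hv => ?_
      have hv' := Finset.mem_filter.1 hv
      rw [mul_smul, ← hr v hv'.1 hv'.2]
    have h4 : F.filter (fun v => ¬ v ∉ F') = F' := by
      ext v
      rw [Finset.mem_filter, not_not]
      exact ⟨fun h => h.2, fun h => ⟨(hF' v h).1, h⟩⟩
    rw [h3, h4]
    abel
  -- a linear form which vanishes on `f` and is positive on `F'`
  obtain ⟨η, hηf, hηF⟩ : ∃ η : W →L[ℝ] ℝ, η f = 0 ∧ ∀ v ∈ F', 0 < η v := by
    have hdisj : Disjoint (convexHull ℝ (F' : Set W)) ((ℝ ∙ f : Submodule ℝ W) : Set W) := by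
      rw [Set.disjoint_left]
      intro x hx1 hx2
      obtain ⟨t, ht⟩ := Submodule.mem_span_singleton.1 hx2
      rw [Finset.convexHull_eq] at hx1
      obtain ⟨w, hw0, hw1, hwx⟩ := hx1
      rw [Finset.centerMass_eq_of_sum_1 _ _ hw1] at hwx
      obtain ⟨v, hv, hwv⟩ : ∃ v ∈ F', 0 < w v := by
        by_contra hcon
        push Not at hcon
        have : ∑ y ∈ F', w y ≤ 0 := Finset.sum_nonpos hcon
        linarith
      have hnef : ∀ s ∈ F', s ∈ X.nef := fun s hs => (hF s (hF' s hs).1).2.1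
      have h1 : w v • v ∈ X.nef := h.nef_smul hwv.le (hnef v hv)
      have h2 : ∑ s ∈ F'.erase v, w s • s ∈ X.nef := by
        refine Finset.sum_induction _ (fun x => x ∈ X.nef) (fun x y hx hy => h.nef_add hx hy) ?_ ?_
        · have := h.nef_smul (le_refl (0 : ℝ)) h1
          rwa [zero_smul] at this
        · exact fun s hs => h.nef_smul (hw0 s (Finset.mem_of_mem_erase hs))
            (hnef s (Finset.mem_of_mem_erase hs))
      obtain ⟨r, hr⟩ := hface _ h1 _ h2 ⟨t, by
        rw [ht, ← hwx]; exact Finset.add_sum_erase F' (fun s => w s • s) hv⟩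
      apply (hF' v hv).2 ((w v)⁻¹ * r)
      rw [mul_smul, ← hr, smul_smul, inv_mul_cancel₀ hwv.ne', one_smul]
    obtain ⟨g, u, v, hg1, huv, hg2⟩ := geometric_hahn_banach_compact_closed
      (convex_convexHull ℝ (F' : Set W)) ((F'.finite_toSet).isCompact_convexHull ℝ)
      (ℝ ∙ f : Submodule ℝ W).convex (Submodule.closed_of_finiteDimensional _) hdisj
    have hg0 : g f = 0 := by
      by_contra h0
      have h1 := hg2 (((v - 1) / g f) • f) (Submodule.smul_mem _ _ (Submodule.mem_span_singleton_self f))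
      rw [map_smul, smul_eq_mul, div_mul_cancel₀ _ h0] at h1
      linarith
    have hv : v < 0 := by
      have := hg2 0 (Submodule.zero_mem _)
      rwa [map_zero] at this
    refine ⟨-g, by simp [hg0], fun s hs => ?_⟩
    have := hg1 s (subset_convexHull ℝ _ hs)
    simp only [ContinuousLinearMap.neg_apply]
    linarith
  -- the estimate
  obtain ⟨M, hM0, hM⟩ : ∃ M : ℝ, 0 < M ∧ ∀ p ∈ cone F', ξ p ≤ M * η p := by
    refine ⟨1 + ∑ v ∈ F', |ξ v| / η v, ?_, ?_⟩
    · have : 0 ≤ ∑ v ∈ F', |ξ v| / η v :=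
        Finset.sum_nonneg fun v hv => div_nonneg (abs_nonneg _) (hηF v hv).le
      linarith
    · rintro p ⟨c, hc, rfl⟩
      rw [map_sum, map_sum, Finset.mul_sum]
      refine Finset.sum_le_sum fun v hv => ?_
      rw [map_smul, map_smul, smul_eq_mul, smul_eq_mul]
      have h1 := Finset.single_le_sum (f := fun v => |ξ v| / η v)
        (fun v hv => div_nonneg (abs_nonneg _) (hηF v hv).le) hv
      have h2 : ξ v ≤ |ξ v| / η v * η v := by
        rw [div_mul_cancel₀ _ (hηF v hv).ne']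
        exact le_abs_self _
      have h3 : |ξ v| / η v * η v ≤ (1 + ∑ v ∈ F', |ξ v| / η v) * η v :=
        mul_le_mul_of_nonneg_right (by linarith) (hηF v hv).le
      calc c v * ξ v ≤ c v * ((1 + ∑ v ∈ F', |ξ v| / η v) * η v) :=
            mul_le_mul_of_nonneg_left (h2.trans h3) (hc v)
        _ = (1 + ∑ v ∈ F', |ξ v| / η v) * (c v * η v) := by ring
  set K : Set W := (X.nef ∩ Metric.sphere 0 1) ∩ {x | m / M ≤ η x} with hK
  have hKc : IsCompact K := ((isCompact_sphere (0 : W) 1).inter_left isClosed_closure).inter_right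
    (isClosed_le continuous_const η.continuous)
  obtain ⟨FK, hFK, hKF⟩ := cover_compact (X := X) K hKc (fun x hx => hx.1.1) (fun x hx =>
    hloc x hx.1.1 fun t ht => by
      have h1 : m / M ≤ η x := hx.2
      rw [ht, map_smul, hηf, smul_zero] at h1
      have : 0 < m / M := by positivity
      linarith)
  refine h.conj_of_cover2 (insert f (F' ∪ FK)) ?_ h00 ?_ ?_
  · intro s hs
    rcases Finset.mem_insert.1 hs with rfl | hs
    · exact ⟨hfL, hfN⟩
    · rcases Finset.mem_union.1 hs with hs | hs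
      · exact hF s (hF' s hs).1
      · exact hFK s hs
  · intro x hx
    obtain ⟨a, t, hp⟩ := hrel' x hx
    refine ⟨a, ?_⟩
    set x' := X.act a x with hx'
    set p := x' - t • f with hp'
    have hxp : x' = p + t • f := by rw [hp']; abel
    rcases le_or_gt 0 t with ht | ht
    · rw [hxp]
      refine cone_add (cone_mono ?_ hp) (cone_smul (mem_cone_self (Finset.mem_insert_self _ _)) ht)
      exact (Finset.subset_union_left).trans (Finset.subset_insert _ _)
    · have hxn : x' ∈ X.nef := subset_closure (h.act_amp a x hx)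
      have h1 : m * ‖x'‖ ≤ M * η x' := by
        have h2 : ξ x' ≤ ξ p := by
          rw [hxp, map_add, map_smul, smul_eq_mul]
          have := mul_nonpos_of_nonpos_of_nonneg ht.le (hξn f hfN.1)
          linarith
        have h3 : η x' = η p := by rw [hxp, map_add, map_smul, hηf, smul_zero, add_zero]
        rw [h3]
        exact (hξ x' hxn).trans (h2.trans (hM p hp))
      have hcone : x' ∈ cone FK := by
        by_cases h0 : x' = 0
        · rw [h0]; exact zero_mem_cone FK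
        · have hnx : 0 < ‖x'‖ := norm_pos_iff.2 h0
          have hxK : ‖x'‖⁻¹ • x' ∈ K := by
            refine ⟨⟨h.nef_smul (inv_nonneg.2 hnx.le) hxn, ?_⟩, ?_⟩
            · rw [mem_sphere_zero_iff_norm, norm_smul, norm_inv, norm_norm,
                inv_mul_cancel₀ hnx.ne']
            · show m / M ≤ η (‖x'‖⁻¹ • x')
              rw [map_smul, smul_eq_mul, div_le_iff₀ hM0]
              have h5 : m = ‖x'‖⁻¹ * (m * ‖x'‖) := by field_simp
              calc m = ‖x'‖⁻¹ * (m * ‖x'‖) := h5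
                _ ≤ ‖x'‖⁻¹ * (M * η x') := mul_le_mul_of_nonneg_left h1 (inv_nonneg.2 hnx.le)
                _ = ‖x'‖⁻¹ * η x' * M := by ring
          have h6 := cone_smul (hKF hxK) hnx.le
          rwa [smul_smul, mul_inv_cancel₀ hnx.ne', one_smul] at h6
      exact cone_mono ((Finset.subset_union_right).trans (Finset.subset_insert _ _)) hcone
  · intro x hx
    by_cases hxf : ∃ t : ℝ, x = t • f
    · obtain ⟨t, rfl⟩ := hxf
      rcases le_or_gt 0 t with ht | ht
      · exact ⟨{f}, fun s hs => by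
          rw [Finset.mem_singleton] at hs; subst hs; exact ⟨hfL, hfN.1⟩,
          cone_smul (mem_cone_self (Finset.mem_singleton_self f)) ht⟩
      · -- then `f = 0`
        have h1 : -f ∈ X.nef := by
          have h2 := h.nef_smul (show (0 : ℝ) ≤ -t⁻¹ by
            rw [neg_nonneg]; exact (inv_lt_zero.2 ht).le) hx.1
          rwa [smul_smul, neg_mul, inv_mul_cancel₀ ht.ne, neg_smul, one_smul] at h2
        have h3 : f = 0 := h.pointed f hfN.1 h1
        rw [h3, smul_zero]
        exact ⟨∅, fun s hs => absurd hs (Finset.notMem_empty s), zero_mem_cone ∅⟩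
    · push Not at hxf
      obtain ⟨U, hU, F1, hF1, h1⟩ := hloc x hx.1 hxf
      exact ⟨F1, fun s hs => ⟨(hF1 s hs).1, (hF1 s hs).2.1⟩, h1 ⟨hx.1, mem_of_mem_nhds hU⟩⟩

end Pool.Agent.Y95.KM
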